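import Mathlib
import Pool.Agent.H906R3.YM.Conc
import Pool.Agent.W793.YM.Dev

/-!
# Closed subgroups of the unitary group: tangent vectors, the Lie algebra, distance to the Lie algebra
-/

open MeasureTheory Matrix Filter
open scoped Matrix.Norms.Frobenius ContDiff Topology
open Pool.Agent.H906R3.YM Pool.Agent.W793.YM

namespace Pool.Agent.TH618.YM

set_option linter.unusedSectionVars false

noncomputable section

variable {N n : ℕ} {G : Subgroup (UN N)}

lemma mt_mul (g h : G) : mt (g * h) = mt g * mt h := rfl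

lemma mt_one : mt (1 : G) = 1 := rfl

lemma mt_pow (g : G) (k : ℕ) : mt (g ^ k) = mt g ^ k := by
  induction k with
  | zero => rw [pow_zero, pow_zero]; rfl
  | succ k ih => rw [pow_succ, pow_succ, ← ih]; rfl

lemma mt_cont : Continuous (mt : G → Mat N) := continuous_subtype_val.comp continuous_subtype_val

/-- the matrices of a closed subgroup form a closed set -/
lemma closed_mt (hG : IsClosed (G : Set (UN N))) : IsClosed (Set.range (mt : G → Mat N)) := by
  have h1 : IsCompact (G : Set (UN N)) := hG.isCompact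
  have h2 : CompactSpace G := isCompact_iff_compactSpace.1 h1
  exact (isCompact_range mt_cont).isClosed

lemma norm_mt_mul (g : G) (A : Mat N) : ‖mt g * A‖ = ‖A‖ := by
  have h : ‖mt g * A‖ ^ 2 = ‖A‖ ^ 2 := by
    rw [norm_sq_ip, norm_sq_ip, ip_apply, ip_apply, conjTranspose_mul, mul_assoc,
      ← mul_assoc (mt g)ᴴ]
    have : (mt g)ᴴ * mt g = 1 := rhoG_unit' g
    rw [this, one_mul]
  have h0 := norm_nonneg (mt g * A)
  have h1 := norm_nonneg A
  nlinarith

/-- a sequence of elements of a closed subgroup which tends to the identity: the limits of the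
directions belong to the Lie algebra, nonnegative times -/
lemma limit_exp0 (hG : IsClosed (G : Set (UN N))) {h : ℕ → G} {δ : ℕ → ℝ} {Y : Mat N}
    (hδ : ∀ k, 0 < δ k) (hδ0 : Tendsto δ atTop (𝓝 0))
    (hY : Tendsto (fun k => (δ k)⁻¹ • (mt (h k) - 1)) atTop (𝓝 Y)) {t : ℝ} (ht : 0 ≤ t) :
    ∃ g : G, mt g = NormedSpace.exp (t • Y) := by
  obtain ⟨m, hm⟩ : ∃ m : ℕ → ℕ, m = fun k => ⌊t / δ k⌋₊ := ⟨_, rfl⟩
  have hm1 : ∀ k, (m k : ℝ) * δ k ≤ t := fun k => by
    have h1 : (m k : ℝ) ≤ t / δ k := by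
      rw [hm]; exact Nat.floor_le (div_nonneg ht (hδ k).le)
    rwa [le_div_iff₀ (hδ k)] at h1
  have hm2 : ∀ k, t - δ k ≤ (m k : ℝ) * δ k := fun k => by
    have h1 : t / δ k < (m k : ℝ) + 1 := by
      rw [hm]; exact Nat.lt_floor_add_one _
    rw [div_lt_iff₀ (hδ k)] at h1
    linarith
  have hmt : Tendsto (fun k => (m k : ℝ) * δ k) atTop (𝓝 t) := by
    refine tendsto_of_tendsto_of_tendsto_of_le_of_le (g := fun k => t - δ k) (h := fun _ => t)
      ?_ tendsto_const_nhds hm2 hm1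
    have := hδ0.const_sub t
    rwa [sub_zero] at this
  have hexp : Continuous fun s : ℝ => (NormedSpace.exp (s • Y) : Mat N) :=
    NormedSpace.exp_continuous.comp (continuous_id.smul continuous_const)
  obtain ⟨C, hC⟩ : ∃ C : ℝ, ∀ s ∈ Set.Icc (0 : ℝ) t, ‖(NormedSpace.exp (s • Y) : Mat N)‖ ≤ C :=
    isCompact_Icc.exists_bound_of_continuousOn hexp.continuousOn
  have hC0 : 0 ≤ C := (norm_nonneg _).trans (hC 0 ⟨le_rfl, ht⟩)
  -- the powers of the exponential
  have hpow : ∀ (s : ℝ) (i : ℕ), (NormedSpace.exp (s • Y) : Mat N) ^ i =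
      NormedSpace.exp (((i : ℝ) * s) • Y) := by
    intro s i
    rw [← Matrix.exp_nsmul, ← smul_assoc]
    congr 2
    rw [nsmul_eq_mul]
  have htel : ∀ (k : ℕ) (i : ℕ), i ≤ m k → ‖mt (h k) ^ i - (NormedSpace.exp (δ k • Y) : Mat N) ^ i‖ ≤
      i * (C * ‖mt (h k) - NormedSpace.exp (δ k • Y)‖) := by
    intro k i
    induction i with
    | zero => intro _; simp
    | succ i ih =>
      intro hi
      obtain ⟨A, hA⟩ : ∃ A : Mat N, A = mt (h k) := ⟨_, rfl⟩
      obtain ⟨B, hB⟩ : ∃ B : Mat N, B = NormedSpace.exp (δ k • Y) := ⟨_, rfl⟩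
      have h1 := ih (by omega)
      rw [← hA, ← hB] at h1 ⊢
      have h2 : A ^ (i + 1) - B ^ (i + 1) = A * (A ^ i - B ^ i) + (A - B) * B ^ i := by
        rw [pow_succ' A, pow_succ' B]; noncomm_ring
      have h3 : ‖A * (A ^ i - B ^ i)‖ = ‖A ^ i - B ^ i‖ := by rw [hA]; exact norm_mt_mul _ _
      have h4 : ‖B ^ i‖ ≤ C := by
        rw [hB, hpow]
        refine hC _ ⟨mul_nonneg (Nat.cast_nonneg _) (hδ k).le, ?_⟩
        refine le_trans (mul_le_mul_of_nonneg_right ?_ (hδ k).le) (hm1 k)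
        exact_mod_cast (by omega : i ≤ m k)
      have h5 : ‖(A - B) * B ^ i‖ ≤ C * ‖A - B‖ := by
        refine (norm_mul_le _ _).trans ?_
        rw [mul_comm]
        exact mul_le_mul_of_nonneg_right h4 (norm_nonneg _)
      rw [h2]
      refine (norm_add_le _ _).trans ?_
      rw [h3]
      push_cast
      linarith
  -- first order
  have hder : Tendsto (fun k => (δ k)⁻¹ • ((NormedSpace.exp (δ k • Y) : Mat N) - 1)) atTop (𝓝 Y) := by
    have h1 : HasDerivAt (fun s : ℝ => (NormedSpace.exp (s • Y) : Mat N)) Y 0 := by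
      have h2 := hasDerivAt_exp_smul_const (𝕂 := ℝ) Y (0 : ℝ)
      rwa [zero_smul, NormedSpace.exp_zero, one_mul] at h2
    have h2 := h1.tendsto_slope_zero
    have h3 : Tendsto δ atTop (𝓝[≠] 0) := by
      rw [tendsto_nhdsWithin_iff]
      exact ⟨hδ0, Eventually.of_forall fun k => (hδ k).ne'⟩
    have h4 := h2.comp h3
    refine h4.congr fun k => ?_
    simp only [Function.comp_apply, zero_add, zero_smul, NormedSpace.exp_zero]
  have hsmall : Tendsto (fun k => (δ k)⁻¹ • (mt (h k) - NormedSpace.exp (δ k • Y))) atTop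
      (𝓝 0) := by
    have h1 := hY.sub hder
    rw [sub_self] at h1
    refine h1.congr fun k => ?_
    rw [← smul_sub]
    congr 1
    abel
  have hconv : Tendsto (fun k => mt (h k) ^ m k) atTop (𝓝 (NormedSpace.exp (t • Y))) := by
    have h1 : Tendsto (fun k => (NormedSpace.exp (δ k • Y) : Mat N) ^ m k) atTop
        (𝓝 (NormedSpace.exp (t • Y))) := by
      simp only [hpow]
      exact (hexp.tendsto t).comp hmt
    have h2 : Tendsto (fun k => mt (h k) ^ m k - (NormedSpace.exp (δ k • Y) : Mat N) ^ m k) atTop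
        (𝓝 0) := by
      have h3 := ((tendsto_zero_iff_norm_tendsto_zero (E := Mat N)).1 hsmall).const_mul (t * C)
      rw [mul_zero] at h3
      refine (tendsto_zero_iff_norm_tendsto_zero (E := Mat N)).2 ?_
      refine squeeze_zero (fun k => norm_nonneg _) (fun k => ?_) h3
      refine (htel k (m k) le_rfl).trans ?_
      rw [norm_smul, norm_inv, Real.norm_eq_abs, abs_of_pos (hδ k)]
      have h4 := hm1 k
      have h5 : 0 ≤ C * ((δ k)⁻¹ * ‖mt (h k) - NormedSpace.exp (δ k • Y)‖) :=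
        mul_nonneg hC0 (mul_nonneg (inv_nonneg.2 (hδ k).le) (norm_nonneg _))
      have h6 := (hδ k).ne'
      calc (m k : ℝ) * (C * ‖mt (h k) - NormedSpace.exp (δ k • Y)‖) =
          (m k * δ k) * (C * ((δ k)⁻¹ * ‖mt (h k) - NormedSpace.exp (δ k • Y)‖)) := by
            field_simp
        _ ≤ t * (C * ((δ k)⁻¹ * ‖mt (h k) - NormedSpace.exp (δ k • Y)‖)) :=
            mul_le_mul_of_nonneg_right h4 h5
        _ = _ := by ring
    have h3 := h2.add h1
    rw [zero_add] at h3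
    refine h3.congr fun k => ?_
    rw [sub_add_cancel]
  have hmem : (NormedSpace.exp (t • Y) : Mat N) ∈ Set.range (mt : G → Mat N) := by
    refine (closed_mt hG).mem_of_tendsto hconv (Eventually.of_forall fun k => ?_)
    exact ⟨h k ^ m k, mt_pow _ _⟩
  obtain ⟨g, hg⟩ := hmem
  exact ⟨g, hg⟩

/-- a sequence of elements of a closed subgroup which tends to the identity: the limits of the
directions belong to the Lie algebra -/
theorem limit_exp (hG : IsClosed (G : Set (UN N))) {h : ℕ → G} {δ : ℕ → ℝ} {Y : Mat N}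
    (hδ : ∀ k, 0 < δ k) (hδ0 : Tendsto δ atTop (𝓝 0))
    (hY : Tendsto (fun k => (δ k)⁻¹ • (mt (h k) - 1)) atTop (𝓝 Y)) (t : ℝ) :
    ∃ g : G, mt g = NormedSpace.exp (t • Y) := by
  rcases le_total 0 t with ht | ht
  · exact limit_exp0 hG hδ hδ0 hY ht
  · obtain ⟨g, hg⟩ := limit_exp0 hG hδ hδ0 hY (t := -t) (by linarith)
    refine ⟨g⁻¹, ?_⟩
    have h1 : mt g⁻¹ * mt g = 1 := by rw [← mt_mul, inv_mul_cancel]; rfl
    have h2 : (NormedSpace.exp (-t • Y) : Mat N) * NormedSpace.exp (t • Y) = 1 := by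
      rw [← Matrix.exp_add_of_commute _ _ (((Commute.refl Y).smul_left (-t)).smul_right t),
        ← add_smul, neg_add_cancel, zero_smul, NormedSpace.exp_zero]
    rw [← hg] at h2
    calc mt g⁻¹ = mt g⁻¹ * (mt g * NormedSpace.exp (t • Y)) := by rw [h2, mul_one]
      _ = _ := by rw [← mul_assoc, h1, one_mul]

/-- the Lie algebra of a closed subgroup -/
def lieS (hG : IsClosed (G : Set (UN N))) : Submodule ℝ (Mat N) where
  carrier := {Y | ∀ t : ℝ, ∃ g : G, mt g = NormedSpace.exp (t • Y)}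
  zero_mem' := fun t => ⟨1, by rw [smul_zero, NormedSpace.exp_zero]; rfl⟩
  smul_mem' := fun c Y hY t => by
    obtain ⟨g, hg⟩ := hY (t * c)
    exact ⟨g, by rw [hg, smul_smul]⟩
  add_mem' := by
    intro A B hA hB
    obtain ⟨δ, hδd⟩ : ∃ δ : ℕ → ℝ, δ = fun k : ℕ => 1 / ((k : ℝ) + 1) := ⟨_, rfl⟩
    have hδ : ∀ k, 0 < δ k := fun k => by rw [hδd]; positivity
    have hδ0 : Tendsto δ atTop (𝓝 0) := by
      rw [hδd]; exact tendsto_one_div_add_atTop_nhds_zero_nat
    choose gA hgA using fun k => hA (δ k)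
    choose gB hgB using fun k => hB (δ k)
    refine limit_exp hG (h := fun k => gA k * gB k) hδ hδ0 ?_
    have h1 : ∀ Y : Mat N, HasDerivAt (fun s : ℝ => (NormedSpace.exp (s • Y) : Mat N)) Y 0 := by
      intro Y
      have h2 := hasDerivAt_exp_smul_const (𝕂 := ℝ) Y (0 : ℝ)
      rwa [zero_smul, NormedSpace.exp_zero, one_mul] at h2
    have h2 := (h1 A).mul (h1 B)
    rw [zero_smul, zero_smul, NormedSpace.exp_zero, mul_one, one_mul] at h2
    have h3 := h2.tendsto_slope_zero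
    have h4 : Tendsto δ atTop (𝓝[≠] 0) := by
      rw [tendsto_nhdsWithin_iff]
      exact ⟨hδ0, Eventually.of_forall fun k => (hδ k).ne'⟩
    refine (h3.comp h4).congr fun k => ?_
    simp only [Function.comp_apply, zero_add, Pi.mul_apply, zero_smul, NormedSpace.exp_zero,
      mul_one]
    rw [mt_mul, hgA, hgB]

/-- the scalar product as a bilinear form -/
def ipB (N : ℕ) : LinearMap.BilinForm ℝ (Mat N) :=
  LinearMap.mk₂ ℝ (fun A B => ip A B) (fun A A' B => ip_add_left A A' B)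
    (fun c A B => by rw [ip_comm, map_smul, ip_comm]) (fun A B B' => map_add _ _ _)
    (fun c A B => map_smul _ _ _)

lemma ipB_apply (A B : Mat N) : ipB N A B = ip A B := rfl

/-- a closed subgroup has an orthonormal basis of its Lie algebra -/
theorem exists_frame (hG : IsClosed (G : Set (UN N))) : ∃ n : ℕ, Nonempty (Frame G n) := by
  obtain ⟨S, hS⟩ : ∃ S, S = lieS hG := ⟨_, rfl⟩
  have hfin : FiniteDimensional ℝ S := inferInstance
  obtain ⟨v, hv⟩ := LinearMap.BilinForm.exists_orthogonal_basis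
    (B := (ipB N).restrict S) ⟨fun x y => by
      show ip _ _ = ip _ _
      exact ip_comm _ _⟩
  obtain ⟨n, hn⟩ : ∃ n, n = Module.finrank ℝ S := ⟨_, rfl⟩
  have hpos : ∀ a, 0 < ip (v a : Mat N) (v a : Mat N) := by
    intro a
    have h1 : (v a : Mat N) ≠ 0 := fun h => v.ne_zero a (Subtype.ext h)
    rw [← norm_sq_ip]
    have := norm_pos_iff.2 h1
    positivity
  have hmem : ∀ a, (v a : Mat N) ∈ lieS hG := fun a => by rw [← hS]; exact (v a).2
  have hmem' : ∀ a, ((Real.sqrt (ip (v a : Mat N) (v a : Mat N)))⁻¹ • (v a : Mat N)) ∈ lieS hG :=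
    fun a => (lieS hG).smul_mem _ (hmem a)
  have hmem2 : ∀ a, ∀ t : ℝ, ∃ g : G, mt g = NormedSpace.exp
      (t • ((Real.sqrt (ip (v a : Mat N) (v a : Mat N)))⁻¹ • (v a : Mat N))) := hmem'
  choose ex hex using hmem2
  refine ⟨Module.finrank ℝ S, ⟨⟨fun a => (Real.sqrt (ip (v a : Mat N) (v a : Mat N)))⁻¹ •
    (v a : Mat N), ex, hex, fun a b => ?_, fun Y hY => ?_⟩⟩⟩
  · show ip _ _ = _
    rw [map_smul, ip_comm ((Real.sqrt (ip (v a : Mat N) (v a : Mat N)))⁻¹ • (v a : Mat N)),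
      map_smul, ip_comm (v b : Mat N) (v a : Mat N)]
    simp only [smul_eq_mul]
    by_cases hab : a = b
    · subst hab
      rw [if_pos rfl]
      have h1 := Real.mul_self_sqrt (hpos a).le
      have h2 := Real.sqrt_pos.2 (hpos a)
      field_simp
      rw [pow_two]; exact h1.symm
    · rw [if_neg hab]
      have h1 : ip (v a : Mat N) (v b : Mat N) = 0 := hv hab
      rw [h1]; ring
  · have h1 : Y ∈ S := by rw [hS]; exact hY
    have h2 := v.mem_span ⟨Y, h1⟩
    have h3 : Y ∈ Submodule.map S.subtype (Submodule.span ℝ (Set.range v)) :=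
      ⟨⟨Y, h1⟩, h2, rfl⟩
    rw [Submodule.map_span] at h3
    refine Submodule.span_le.2 ?_ h3
    rintro _ ⟨_, ⟨a, rfl⟩, rfl⟩
    have h4 : (S.subtype (v a)) = Real.sqrt (ip (v a : Mat N) (v a : Mat N)) •
        ((Real.sqrt (ip (v a : Mat N) (v a : Mat N)))⁻¹ • (v a : Mat N)) := by
      rw [smul_smul, mul_inv_cancel₀ (Real.sqrt_pos.2 (hpos a)).ne', one_smul]; rfl
    rw [h4]
    exact Submodule.smul_mem _ _ (Submodule.subset_span ⟨a, rfl⟩)


section prod

variable {H : Type*} [Group H] [TopologicalSpace H] [IsTopologicalGroup H] [CompactSpace H]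
  [SecondCountableTopology H] [MeasurableSpace H] [BorelSpace H] {L : LD H N n}

lemma dv_list (l : List H) : dv L l.prod ≤ (l.map (dv L)).sum := by
  induction l with
  | nil => rw [List.prod_nil, dv_one]; simp
  | cons g l ih =>
    rw [List.prod_cons, List.map_cons, List.sum_cons]
    exact (dv_mul _ _).trans (add_le_add le_rfl ih)

/-- the product to first order -/
lemma prod_dev (l : List H) : ‖L.rho l.prod - 1 - (l.map fun g => L.rho g - 1).sum‖ ≤
    (l.map (dv L)).sum ^ 2 := by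
  induction l with
  | nil => simp
  | cons g l ih =>
    rw [List.prod_cons, List.map_cons, List.map_cons, List.sum_cons, List.sum_cons]
    have h0 := dv_list (L := L) l
    have h1 : 0 ≤ (l.map (dv L)).sum := (dv_nonneg _).trans h0
    have h2 := dv_nonneg (L := L) g
    obtain ⟨S, hS⟩ : ∃ S, S = (l.map fun g => L.rho g - 1).sum := ⟨_, rfl⟩
    rw [← hS] at ih ⊢
    have h3 : L.rho (g * l.prod) - 1 - (L.rho g - 1 + S) =
        (L.rho g - 1) * (L.rho l.prod - 1) + (L.rho l.prod - 1 - S) := by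
      rw [map_mul]; noncomm_ring
    rw [h3]
    refine (norm_add_le _ _).trans ?_
    have h4 : ‖(L.rho g - 1) * (L.rho l.prod - 1)‖ ≤ dv L g * (l.map (dv L)).sum :=
      (norm_mul_le _ _).trans (mul_le_mul_of_nonneg_left h0 h2)
    nlinarith

end prod

/-- the part orthogonal to the Lie algebra -/
lemma norm_perp {X : Fin n → Mat N} (hX : ∀ a b, ip (X a) (X b) = if a = b then 1 else 0)
    (A : Mat N) : ‖A - ∑ a, ip (X a) A • X a‖ ^ 2 = ‖A‖ ^ 2 - ∑ a, ip (X a) A ^ 2 := by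
  rw [norm_sq_ip, norm_sq_ip]
  obtain ⟨S, hS⟩ : ∃ S, S = A - ∑ a, ip (X a) A • X a := ⟨_, rfl⟩
  have h1 : ∀ B : Mat N, ip (A - ∑ a, ip (X a) A • X a) B = ip A B - ∑ a, ip (X a) A * ip (X a) B := by
    intro B
    rw [ip_comm, map_sub, map_sum, ip_comm B A]
    congr 1
    refine Finset.sum_congr rfl fun a _ => ?_
    rw [map_smul, smul_eq_mul, ip_comm B (X a)]
  rw [h1]
  have h2 : ∀ a, ip A (ip (X a) A • X a) = ip (X a) A ^ 2 := fun a => by
    rw [map_smul, smul_eq_mul, ip_comm A (X a)]; ring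
  have h3 : ∀ a, ip (X a) (A - ∑ b, ip (X b) A • X b) = 0 := by
    intro a
    rw [map_sub, map_sum]
    have h4 : ∀ b, ip (X a) (ip (X b) A • X b) = if a = b then ip (X b) A else 0 := fun b => by
      rw [map_smul, smul_eq_mul, hX]
      split_ifs <;> ring
    rw [Finset.sum_congr rfl fun b _ => h4 b, Finset.sum_ite_eq]
    simp
  have h5 : ∑ a, ip (X a) A * ip (X a) (A - ∑ b, ip (X b) A • X b) = 0 :=
    Finset.sum_eq_zero fun a _ => by rw [h3 a, mul_zero]
  rw [h5, sub_zero, map_sub, map_sum, Finset.sum_congr rfl fun a _ => h2 a]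

variable [CompactSpace G] [SecondCountableTopology G] [MeasurableSpace G] [BorelSpace G]
  (B : Frame G n)

lemma unit_exp (a : Fin n) (t : ℝ) (A : Mat N) :
    ‖(NormedSpace.exp (t • B.X a) : Mat N) * A‖ = ‖A‖ := by
  rw [← B.ex_eq]; exact norm_mt_mul _ _

lemma norm_XB (a : Fin n) : ‖B.X a‖ = 1 := norm_X (L := B.toLD) a

lemma hasDeriv_exp (a : Fin n) (t : ℝ) : HasDerivAt (fun s : ℝ => (NormedSpace.exp (s • B.X a) : Mat N))
    (NormedSpace.exp (t • B.X a) * B.X a) t :=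
  hasDerivAt_exp_smul_const (𝕂 := ℝ) (B.X a) t

lemma exp_first (a : Fin n) (t : ℝ) : ‖(NormedSpace.exp (t • B.X a) : Mat N) - 1‖ ≤ |t| := by
  have h := Convex.norm_image_sub_le_of_norm_hasDerivWithin_le (s := Set.univ)
    (f := fun s : ℝ => (NormedSpace.exp (s • B.X a) : Mat N))
    (f' := fun s => NormedSpace.exp (s • B.X a) * B.X a) (x := 0) (y := t) (C := 1)
    (fun s _ => (hasDeriv_exp B a s).hasDerivWithinAt) (fun s _ => by
      rw [unit_exp, norm_XB]) convex_univ (Set.mem_univ _) (Set.mem_univ _)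
  simp only [zero_smul, NormedSpace.exp_zero, sub_zero, one_mul, Real.norm_eq_abs] at h
  exact h

lemma exp_second (a : Fin n) (t : ℝ) :
    ‖(NormedSpace.exp (t • B.X a) : Mat N) - 1 - t • B.X a‖ ≤ t ^ 2 := by
  have h := Convex.norm_image_sub_le_of_norm_hasDerivWithin_le (s := Set.uIcc 0 t)
    (f := fun s : ℝ => (NormedSpace.exp (s • B.X a) : Mat N) - 1 - s • B.X a)
    (f' := fun s => NormedSpace.exp (s • B.X a) * B.X a - B.X a) (x := 0) (y := t) (C := |t|)
    (fun s _ => by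
      have h1 := ((hasDeriv_exp B a s).sub_const 1).sub ((hasDerivAt_id s).smul_const (B.X a))
      rw [one_smul] at h1
      exact h1.hasDerivWithinAt) (fun s hs => by
      have h1 : NormedSpace.exp (s • B.X a) * B.X a - B.X a =
          (NormedSpace.exp (s • B.X a) - 1) * B.X a := by rw [sub_mul, one_mul]
      rw [h1]
      refine (norm_mul_le _ _).trans ?_
      rw [norm_XB, mul_one]
      refine (exp_first B a s).trans ?_
      have h2 := Set.abs_sub_left_of_mem_uIcc hs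
      rwa [sub_zero, sub_zero] at h2) (convex_uIcc _ _) Set.left_mem_uIcc Set.right_mem_uIcc
  simp only [zero_smul, NormedSpace.exp_zero, sub_zero, sub_self, Real.norm_eq_abs] at h
  rw [← sq_abs, pow_two]
  exact h

/-- the product of the one parameter groups -/
def Ph0 (c : Fin n → ℝ) : G := (List.ofFn fun a => B.ex a (c a)).prod

lemma Ph0_dev (c : Fin n → ℝ) {ε : ℝ} (hc : ∀ a, |c a| ≤ ε) :
    ‖mt (Ph0 B c) - 1 - ∑ a, c a • B.X a‖ ≤ (n ^ 2 + n) * ε ^ 2 := by
  rcases Nat.eq_zero_or_pos n with hn | hn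
  · subst hn
    unfold Ph0
    simp [mt_one]
  have hε : 0 ≤ ε := (abs_nonneg _).trans (hc ⟨0, hn⟩)
  have h1 := prod_dev (L := B.toLD) (List.ofFn fun a => B.ex a (c a))
  rw [List.map_ofFn, List.map_ofFn, List.sum_ofFn, List.sum_ofFn] at h1
  have h2 : ∑ a, (dv B.toLD ∘ fun a => B.ex a (c a)) a ≤ n * ε := by
    calc ∑ a, (dv B.toLD ∘ fun a => B.ex a (c a)) a ≤ ∑ _a : Fin n, ε := by
          refine Finset.sum_le_sum fun a _ => ?_
          show ‖mt (B.ex a (c a)) - 1‖ ≤ ε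
          rw [B.ex_eq]
          exact (exp_first B a _).trans (hc a)
      _ = n * ε := by simp
  have h20 : 0 ≤ ∑ a, (dv B.toLD ∘ fun a => B.ex a (c a)) a :=
    Finset.sum_nonneg fun a _ => dv_nonneg _
  have h3 : ‖∑ a, ((fun g => B.toLD.rho g - 1) ∘ fun a => B.ex a (c a)) a - ∑ a, c a • B.X a‖ ≤
      n * ε ^ 2 := by
    rw [← Finset.sum_sub_distrib]
    refine (norm_sum_le _ _).trans ?_
    calc _ ≤ ∑ _a : Fin n, ε ^ 2 := by
          refine Finset.sum_le_sum fun a _ => ?_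
          show ‖mt (B.ex a (c a)) - 1 - c a • B.X a‖ ≤ ε ^ 2
          rw [B.ex_eq]
          refine (exp_second B a _).trans ?_
          rw [← sq_abs]
          exact pow_le_pow_left₀ (abs_nonneg _) (hc a) 2
      _ = n * ε ^ 2 := by simp
  have h4 : mt (Ph0 B c) - 1 - ∑ a, c a • B.X a =
      (B.toLD.rho (List.ofFn fun a => B.ex a (c a)).prod - 1 -
        ∑ a, ((fun g => B.toLD.rho g - 1) ∘ fun a => B.ex a (c a)) a) +
      (∑ a, ((fun g => B.toLD.rho g - 1) ∘ fun a => B.ex a (c a)) a - ∑ a, c a • B.X a) := by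
    have : mt (Ph0 B c) = B.toLD.rho (List.ofFn fun a => B.ex a (c a)).prod := rfl
    rw [this]; abel
  rw [h4]
  refine (norm_add_le _ _).trans ?_
  have h5 : (∑ a, (dv B.toLD ∘ fun a => B.ex a (c a)) a) ^ 2 ≤ (n * ε) ^ 2 :=
    pow_le_pow_left₀ h20 h2 2
  calc _ ≤ (n * ε) ^ 2 + n * ε ^ 2 := add_le_add (h1.trans h5) h3
    _ = _ := by ring

/-- **The distance of a closed subgroup to its Lie algebra is quadratic.** -/
theorem cartan (hG : IsClosed (G : Set (UN N))) : ∃ C : ℝ, 0 < C ∧ ∀ g : G,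
    ‖mt g - 1‖ ^ 2 ≤ ∑ a, ip (B.X a) (mt g - 1) ^ 2 + C * ‖mt g - 1‖ ^ 4 := by
  by_contra hcon
  push Not at hcon
  have hk : ∀ k : ℕ, ∃ g : G, ∑ a, ip (B.X a) (mt g - 1) ^ 2 + ((k : ℝ) + 1) * ‖mt g - 1‖ ^ 4 <
      ‖mt g - 1‖ ^ 2 := fun k => hcon _ (by positivity)
  choose g hg using hk
  obtain ⟨ε, hε⟩ : ∃ ε : ℕ → ℝ, ε = fun k => ‖mt (g k) - 1‖ := ⟨_, rfl⟩
  obtain ⟨c, hc⟩ : ∃ c : ℕ → Fin n → ℝ, c = fun k a => ip (B.X a) (mt (g k) - 1) := ⟨_, rfl⟩
  obtain ⟨w, hw⟩ : ∃ w : ℕ → Mat N, w = fun k => (mt (g k) - 1) - ∑ a, c k a • B.X a := ⟨_, rfl⟩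
  have hw2 : ∀ k, ‖w k‖ ^ 2 = ε k ^ 2 - ∑ a, c k a ^ 2 := fun k => by
    rw [hw, hc, hε]
    exact norm_perp (X := B.X) B.orth _
  have hlt : ∀ k : ℕ, ((k : ℝ) + 1) * ε k ^ 4 < ‖w k‖ ^ 2 := fun k => by
    have h1 := hg k
    have e1 : ∑ a, ip (B.X a) (mt (g k) - 1) ^ 2 = ∑ a, c k a ^ 2 := by rw [hc]
    have e2 : ‖mt (g k) - 1‖ = ε k := by rw [hε]
    rw [e1, e2] at h1
    rw [hw2 k]
    linarith
  have hε0 : ∀ k, 0 ≤ ε k := fun k => by rw [hε]; exact norm_nonneg _
  have hwpos : ∀ k, 0 < ‖w k‖ := fun k => by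
    have h1 := hlt k
    have h2 : 0 ≤ ((k : ℝ) + 1) * ε k ^ 4 := by
      have := hε0 k
      positivity
    have h3 : 0 < ‖w k‖ ^ 2 := lt_of_le_of_lt h2 h1
    exact lt_of_le_of_ne (norm_nonneg _) fun h => by rw [← h] at h3; norm_num at h3
  have hwε : ∀ k, ‖w k‖ ≤ ε k := fun k => by
    have h1 := hw2 k
    have h2 : 0 ≤ ∑ a, c k a ^ 2 := Finset.sum_nonneg fun _ _ => sq_nonneg _
    have h3 : ‖w k‖ ^ 2 ≤ ε k ^ 2 := by linarith
    exact (abs_le_of_sq_le_sq' h3 (hε0 k)).2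
  have hεpos : ∀ k, 0 < ε k := fun k => lt_of_lt_of_le (hwpos k) (hwε k)
  have hε1 : ∀ k : ℕ, ε k ^ 2 ≤ 1 / ((k : ℝ) + 1) := fun k => by
    have h1 := hlt k
    have h2 := pow_le_pow_left₀ (norm_nonneg _) (hwε k) 2
    have h3 := hεpos k
    rw [le_div_iff₀ (by positivity)]
    have h4 : ε k ^ 2 * (ε k ^ 2 * ((k : ℝ) + 1)) ≤ ε k ^ 2 * 1 := by nlinarith
    exact le_of_mul_le_mul_left h4 (by positivity)
  have hεt : Tendsto ε atTop (𝓝 0) := by
    have h1 : Tendsto (fun k => ε k ^ 2) atTop (𝓝 0) :=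
      squeeze_zero (fun k => sq_nonneg _) hε1 tendsto_one_div_add_atTop_nhds_zero_nat
    have h2 := h1.sqrt
    rw [Real.sqrt_zero] at h2
    refine h2.congr fun k => ?_
    rw [Real.sqrt_sq (hε0 k)]
  -- the ratio
  have hrat : ∀ k : ℕ, ε k ^ 2 / ‖w k‖ ≤ Real.sqrt (1 / ((k : ℝ) + 1)) := fun k => by
    rw [Real.le_sqrt (by have := hwpos k; positivity) (by positivity)]
    rw [div_pow, div_le_div_iff₀ (by have := hwpos k; positivity) (by positivity)]
    have h1 := hlt k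
    nlinarith
  have hratt : Tendsto (fun k => ε k ^ 2 / ‖w k‖) atTop (𝓝 0) := by
    have h1 := (tendsto_one_div_add_atTop_nhds_zero_nat (𝕜 := ℝ)).sqrt
    rw [Real.sqrt_zero] at h1
    exact squeeze_zero (fun k => by have := hwpos k; positivity) hrat h1
  -- the unit vectors
  obtain ⟨v, hv⟩ : ∃ v : ℕ → Mat N, v = fun k => ‖w k‖⁻¹ • w k := ⟨_, rfl⟩
  have hv1 : ∀ k, v k ∈ Metric.sphere (0 : Mat N) 1 := fun k => by
    rw [mem_sphere_zero_iff_norm, hv]
    simp only
    rw [norm_smul, norm_inv, norm_norm, inv_mul_cancel₀ (hwpos k).ne']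
  haveI : ProperSpace (Mat N) := FiniteDimensional.proper_real (Mat N)
  obtain ⟨W, hW, φ, hφ, hlim⟩ := (isCompact_sphere (0 : Mat N) 1).tendsto_subseq hv1
  have hWX : ∀ a, ip (B.X a) W = 0 := by
    intro a
    have h1 : ∀ k, ip (B.X a) (v k) = 0 := by
      intro k
      rw [hv]
      simp only
      rw [map_smul, hw]
      simp only
      rw [map_sub, map_sum]
      have h4 : ∀ b, ip (B.X a) (c k b • B.X b) = if a = b then c k b else 0 := fun b => by
        rw [map_smul, smul_eq_mul]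
        have := B.orth a b
        rw [← ip_apply] at this
        rw [this]
        split_ifs <;> ring
      rw [Finset.sum_congr rfl fun b _ => h4 b, Finset.sum_ite_eq]
      simp [hc]
    have h2 := ((ip (B.X a)).continuous.tendsto W).comp hlim
    have h3 : (fun k => ip (B.X a) ((v ∘ φ) k)) = fun _ => 0 := by
      funext k; exact h1 _
    have h4 : Tendsto (fun _ : ℕ => (0 : ℝ)) atTop (𝓝 (ip (B.X a) W)) := by
      rw [← h3]; exact h2
    exact (tendsto_nhds_unique h4 tendsto_const_nhds)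
  -- the corrected elements
  obtain ⟨h, hh⟩ : ∃ h : ℕ → G, h = fun k => (Ph0 B (c k))⁻¹ * g k := ⟨_, rfl⟩
  obtain ⟨r, hr⟩ : ∃ r : ℕ → Mat N, r = fun k => mt (Ph0 B (c k)) - 1 - ∑ a, c k a • B.X a :=
    ⟨_, rfl⟩
  have hcε : ∀ k a, |c k a| ≤ ε k := fun k a => by
    rw [hc, hε]
    simp only
    refine (abs_ip_le _ _).trans ?_
    rw [norm_XB, one_mul]
  have hrb : ∀ k, ‖r k‖ ≤ (n ^ 2 + n) * ε k ^ 2 := fun k => by
    rw [hr]; exact Ph0_dev B (c k) (hcε k)
  have hh1 : ∀ k, mt (h k) - 1 = mt (Ph0 B (c k))⁻¹ * (w k - r k) := by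
    intro k
    have e1 : w k - r k = mt (g k) - mt (Ph0 B (c k)) := by
      rw [hw, hr]; simp only; abel
    have e2 : mt (Ph0 B (c k))⁻¹ * mt (Ph0 B (c k)) = 1 := by
      rw [← mt_mul, inv_mul_cancel]; rfl
    rw [e1, mul_sub, e2, hh]
    simp only
    rw [mt_mul]
  have hPhi : ∀ k, ‖mt (Ph0 B (c k))⁻¹ - 1‖ ≤ n * ε k := by
    intro k
    have e1 : ‖mt (Ph0 B (c k))⁻¹ - 1‖ = dv B.toLD (Ph0 B (c k))⁻¹ := rfl
    rw [e1, dv_inv]
    refine (dv_list (L := B.toLD) _).trans ?_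
    rw [List.map_ofFn, List.sum_ofFn]
    calc ∑ a, (dv B.toLD ∘ fun a => B.ex a (c k a)) a ≤ ∑ _a : Fin n, ε k := by
          refine Finset.sum_le_sum fun a _ => ?_
          show ‖mt (B.ex a (c k a)) - 1‖ ≤ ε k
          rw [B.ex_eq]
          exact (exp_first B a _).trans (hcε k a)
      _ = n * ε k := by simp
  have hdiff : Tendsto (fun k => (‖w k‖⁻¹ • (mt (h k) - 1)) - v k) atTop (𝓝 0) := by
    refine (tendsto_zero_iff_norm_tendsto_zero (E := Mat N)).2 ?_
    have hb : ∀ k, ‖(‖w k‖⁻¹ • (mt (h k) - 1)) - v k‖ ≤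
        n * ε k + (n ^ 2 + n) * (ε k ^ 2 / ‖w k‖) := by
      intro k
      have e1 : (‖w k‖⁻¹ • (mt (h k) - 1)) - v k = (mt (Ph0 B (c k))⁻¹ - 1) * v k -
          mt (Ph0 B (c k))⁻¹ * (‖w k‖⁻¹ • r k) := by
        rw [hh1, hv]
        simp only
        rw [sub_mul, one_mul, mul_smul_comm, mul_smul_comm, mul_sub, smul_sub]
        abel
      rw [e1]
      refine (norm_sub_le _ _).trans (add_le_add ?_ ?_)
      · refine (norm_mul_le _ _).trans ?_
        have := hv1 k
        rw [mem_sphere_zero_iff_norm] at this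
        rw [this, mul_one]
        exact hPhi k
      · rw [norm_mt_mul, norm_smul, norm_inv, norm_norm]
        calc ‖w k‖⁻¹ * ‖r k‖ ≤ ‖w k‖⁻¹ * ((n ^ 2 + n) * ε k ^ 2) :=
              mul_le_mul_of_nonneg_left (hrb k) (inv_nonneg.2 (norm_nonneg _))
          _ = _ := by ring
    have h1 := (hεt.const_mul (n : ℝ)).add (hratt.const_mul ((n : ℝ) ^ 2 + n))
    rw [mul_zero, mul_zero, add_zero] at h1
    exact squeeze_zero (fun k => norm_nonneg _) hb h1
  have hfin : Tendsto (fun k => ‖w (φ k)‖⁻¹ • (mt (h (φ k)) - 1)) atTop (𝓝 W) := by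
    have h1 := (hdiff.comp hφ.tendsto_atTop).add hlim
    rw [zero_add] at h1
    refine h1.congr fun k => ?_
    simp only [Function.comp_apply]
    rw [sub_add_cancel]
  have hw0 : Tendsto (fun k => ‖w (φ k)‖) atTop (𝓝 0) := by
    have h1 : Tendsto (fun k => ‖w k‖) atTop (𝓝 0) :=
      squeeze_zero (fun k => norm_nonneg _) hwε hεt
    exact h1.comp hφ.tendsto_atTop
  have hWS := B.full W (fun t => limit_exp hG (h := fun k => h (φ k)) (fun k => hwpos _) hw0 hfin t)
  have hWW : ip W W = 0 := by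
    have h1 : ∀ Z ∈ Submodule.span ℝ (Set.range B.X), ip Z W = 0 := by
      intro Z hZ
      induction hZ using Submodule.span_induction with
      | mem Z h =>
        obtain ⟨a, rfl⟩ := h
        exact hWX a
      | zero => rw [ip_comm, map_zero]
      | add Z Z' _ _ h h' => rw [ip_add_left, h, h', add_zero]
      | smul t Z _ h => rw [ip_comm, map_smul, ip_comm, h, smul_zero]
    exact h1 W hWS
  rw [mem_sphere_zero_iff_norm] at hW
  rw [← norm_sq_ip, hW] at hWW
  norm_num at hWW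

/-- the same estimate for the abstract data -/
theorem cartan' (hG : IsClosed (G : Set (UN N))) : ∃ C : ℝ, 0 < C ∧ ∀ g : G,
    dv B.toLD g ^ 2 ≤ ∑ a, fi B.toLD a g ^ 2 + C * dv B.toLD g ^ 4 := by
  obtain ⟨C, hC, h⟩ := cartan B hG
  refine ⟨C, hC, fun g => ?_⟩
  have h1 : ∀ a, fi B.toLD a g ^ 2 = ip (B.X a) (mt g - 1) ^ 2 := by
    intro a
    have h3 : fi B.toLD a g = -ip (B.X a) (mt g - 1) := by
      have e1 : fi B.toLD a g = trX B.toLD a (mt g - 1) := by
        rw [map_sub, trX_one, sub_zero]; rfl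
      rw [e1]
      unfold trX
      rw [ip_apply, ip_apply, conjTranspose_conjTranspose]
      have e2 : (B.X a)ᴴ = -B.X a := B.skewX a
      rw [e2, neg_mul, trace_neg, Complex.neg_re, neg_neg]
      rfl
    rw [h3]; ring
  simp only [h1]
  exact h g

end

end Pool.Agent.TH618.YM
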