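import Mathlib
import Pool.Agent.W793.YM.Lat2
import Pool.Agent.TH618.YM.Cartan

/-!
# Wilson loops in the comb gauge: the non abelian Stokes formula to first order
-/

open MeasureTheory Matrix Filter
open scoped Matrix.Norms.Frobenius ContDiff Topology
open Pool.Agent.H906R3.YM Pool.Agent.W793.YM

namespace Pool.Agent.TH618.YM

set_option linter.unusedSectionVars false
set_option linter.unusedVariables false

noncomputable section

section alg

variable {d l : ℕ} {G : Type*} [Group G]

/-- the transport along `k` steps in the direction `i` -/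
def ln (U : Ed d l → G) (i : Fin d) : ℕ → (Fin d → ZMod l) → G
  | 0, _ => 1
  | k + 1, x => U (x, i) * ln U i k (x + eT i)

/-- the rectangular loop -/
def rect (U : Ed d l → G) (x : Fin d → ZMod l) (i j : Fin d) (R T : ℕ) : G :=
  ln U i R x * ln U j T (x + R • eT i) * (ln U i R (x + T • eT j))⁻¹ * (ln U j T x)⁻¹

lemma ln_zero (U : Ed d l → G) (i : Fin d) (x : Fin d → ZMod l) : ln U i 0 x = 1 := rfl

lemma ln_succ (U : Ed d l → G) (i : Fin d) (k : ℕ) (x : Fin d → ZMod l) :
    ln U i (k + 1) x = U (x, i) * ln U i k (x + eT i) := rfl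

lemma ln_add (U : Ed d l → G) (i : Fin d) (a b : ℕ) (x : Fin d → ZMod l) :
    ln U i (a + b) x = ln U i a x * ln U i b (x + a • eT i) := by
  induction a generalizing x with
  | zero => rw [zero_add, ln_zero, one_mul, zero_smul, add_zero]
  | succ a ih =>
    have h1 : a + 1 + b = (a + b) + 1 := by omega
    rw [h1, ln_succ, ln_succ, ih, mul_assoc, add_smul, one_smul]
    congr 2
    rw [add_assoc, add_comm (eT i : Fin d → ZMod l)]

lemma ln_succ' (U : Ed d l → G) (i : Fin d) (k : ℕ) (x : Fin d → ZMod l) :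
    ln U i (k + 1) x = ln U i k x * U (x + k • eT i, i) := by
  rw [ln_add, ln_succ, ln_zero, mul_one]

lemma ln_gt (γ : (Fin d → ZMod l) → G) (U : Ed d l → G) (i : Fin d) (k : ℕ)
    (x : Fin d → ZMod l) : ln (gt γ U) i k x = γ x * ln U i k x * (γ (x + k • eT i))⁻¹ := by
  induction k generalizing x with
  | zero => rw [ln_zero, ln_zero, zero_smul, add_zero]; group
  | succ k ih =>
    rw [ln_succ, ln_succ, ih]
    unfold gt
    simp only
    have h1 : x + (k + 1) • eT i = x + eT i + k • (eT i : Fin d → ZMod l) := by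
      rw [add_smul, one_smul, add_assoc, add_comm (eT i : Fin d → ZMod l)]
    rw [h1]
    group

lemma rect_gt (γ : (Fin d → ZMod l) → G) (U : Ed d l → G) (x : Fin d → ZMod l) (i j : Fin d)
    (R T : ℕ) : rect (gt γ U) x i j R T = γ x * rect U x i j R T * (γ x)⁻¹ := by
  unfold rect
  rw [ln_gt, ln_gt, ln_gt, ln_gt]
  have h1 : x + T • eT j + R • eT i = x + R • eT i + T • (eT j : Fin d → ZMod l) := by abel
  rw [h1]
  group

lemma rect_swap (U : Ed d l → G) (x : Fin d → ZMod l) (i j : Fin d) (R T : ℕ) :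
    rect U x i j R T = (rect U x j i T R)⁻¹ := by
  unfold rect
  group

/-- the discrete Stokes formula -/
lemma stokes (a : Fin d → St d l → ℝ) (x : St d l) (i j : Fin d) (R T : ℕ) :
    ∑ r ∈ Finset.range R, ∑ s ∈ Finset.range T, d1 a i j (x + r • eT i + s • eT j) =
      (∑ s ∈ Finset.range T, a j (x + R • eT i + s • eT j) -
        ∑ s ∈ Finset.range T, a j (x + s • eT j)) -
      (∑ r ∈ Finset.range R, a i (x + T • eT j + r • eT i) -
        ∑ r ∈ Finset.range R, a i (x + r • eT i)) := by
  have h1 : ∀ r s : ℕ, d1 a i j (x + r • eT i + s • eT j) =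
      (a j (x + (r + 1) • eT i + s • eT j) - a j (x + r • eT i + s • eT j)) -
      (a i (x + r • eT i + (s + 1) • eT j) - a i (x + r • eT i + s • eT j)) := by
    intro r s
    unfold d1 Dp
    simp only [Pi.sub_apply]
    have e1 : x + r • eT i + s • eT j + eT i = x + (r + 1) • eT i + s • (eT j : St d l) := by
      rw [add_smul, one_smul]; abel
    have e2 : x + r • eT i + s • eT j + eT j = x + r • eT i + (s + 1) • (eT j : St d l) := by
      rw [add_smul s, one_smul]; abel
    rw [e1, e2]
  simp only [h1, Finset.sum_sub_distrib]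
  congr 1
  · rw [← Finset.sum_sub_distrib, ← Finset.sum_sub_distrib, ]
    have h2 : ∑ r ∈ Finset.range R, (∑ s ∈ Finset.range T, a j (x + (r + 1) • eT i + s • eT j) -
        ∑ s ∈ Finset.range T, a j (x + r • eT i + s • eT j)) =
        ∑ s ∈ Finset.range T, a j (x + R • eT i + s • eT j) -
        ∑ s ∈ Finset.range T, a j (x + 0 • eT i + s • eT j) :=
      Finset.sum_range_sub (fun r => ∑ s ∈ Finset.range T, a j (x + r • eT i + s • eT j)) R
    rw [h2, zero_smul, add_zero, Finset.sum_sub_distrib]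
  · rw [← Finset.sum_sub_distrib, ← Finset.sum_sub_distrib]
    refine Finset.sum_congr rfl fun r _ => ?_
    rw [← Finset.sum_sub_distrib]
    have h2 : ∑ s ∈ Finset.range T, (a i (x + r • eT i + (s + 1) • eT j) -
        a i (x + r • eT i + s • eT j)) = a i (x + r • eT i + T • eT j) -
        a i (x + r • eT i + 0 • eT j) :=
      Finset.sum_range_sub (fun s => a i (x + r • eT i + s • eT j)) T
    rw [h2, zero_smul, add_zero]
    congr 2
    abel

end alg

section dev

variable {G : Type*} [Group G] [TopologicalSpace G] [IsTopologicalGroup G] [CompactSpace G]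
  [SecondCountableTopology G] [MeasurableSpace G] [BorelSpace G] {N n : ℕ} {L : LD G N n}
  {d l : ℕ} [NeZero l]

lemma dv_ln {U : Ed d l → G} {i : Fin d} {D : ℝ} {k : ℕ} {x : Fin d → ZMod l}
    (h : ∀ s < k, dv L (U (x + s • eT i, i)) ≤ D) : dv L (ln U i k x) ≤ k * D := by
  induction k generalizing x with
  | zero => rw [ln_zero, dv_one]; simp
  | succ k ih =>
    rw [ln_succ]
    refine (dv_mul _ _).trans ?_
    have h1 := h 0 (Nat.succ_pos _)
    rw [zero_smul, add_zero] at h1
    have h2 := ih (x := x + eT i) fun s hs => by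
      have := h (s + 1) (by omega)
      rw [add_smul, one_smul, add_comm (s • (eT i : Fin d → ZMod l)), ← add_assoc] at this
      exact this
    push_cast
    linarith

lemma fi_ln (a : Fin n) {U : Ed d l → G} {i : Fin d} {D : ℝ} (hD : 0 ≤ D) {k : ℕ}
    {x : Fin d → ZMod l} (h : ∀ s < k, dv L (U (x + s • eT i, i)) ≤ D) :
    |fi L a (ln U i k x) - ∑ s ∈ Finset.range k, fi L a (U (x + s • eT i, i))| ≤ (k * D) ^ 2 := by
  induction k generalizing x with
  | zero => rw [ln_zero, fi_one]; simp
  | succ k ih =>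
    have h1 := h 0 (Nat.succ_pos _)
    rw [zero_smul, add_zero] at h1
    have h2 : ∀ s < k, dv L (U (x + eT i + s • eT i, i)) ≤ D := fun s hs => by
      have := h (s + 1) (by omega)
      rw [add_smul, one_smul, add_comm (s • (eT i : Fin d → ZMod l)), ← add_assoc] at this
      exact this
    have h3 := ih h2
    have h4 := dv_ln h2
    have h5 := fi_mul (L := L) a (U (x, i)) (ln U i k (x + eT i))
    rw [ln_succ, Finset.sum_range_succ']
    have h6 : ∑ s ∈ Finset.range k, fi L a (U (x + (s + 1) • eT i, i)) =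
        ∑ s ∈ Finset.range k, fi L a (U (x + eT i + s • eT i, i)) := by
      refine Finset.sum_congr rfl fun s _ => ?_
      rw [add_smul, one_smul, add_comm (s • (eT i : Fin d → ZMod l)), ← add_assoc]
    rw [h6, zero_smul, add_zero]
    have h7 : dv L (U (x, i)) * dv L (ln U i k (x + eT i)) ≤ D * (k * D) :=
      mul_le_mul h1 h4 (dv_nonneg _) hD
    have h8 : ((k + 1 : ℕ) : ℝ) = k + 1 := by push_cast; ring
    have hk : (0 : ℝ) ≤ k := Nat.cast_nonneg k
    rw [h8]
    rw [abs_le] at h3 h5 ⊢
    constructor <;> nlinarith [h3.1, h3.2, h5.1, h5.2, h7, sq_nonneg D, mul_nonneg hk (sq_nonneg D)]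

lemma wv_nsmul {x : St d l} {i : Fin d} {r : ℕ} (h : wv x i + r < l) :
    wv (x + r • eT i) = fun i' => wv x i' + if i' = i then r else 0 := by
  induction r with
  | zero => rw [zero_smul, add_zero]; funext i'; simp
  | succ r ih =>
    have h1 := ih (by omega)
    have h2 : x + (r + 1) • eT i = x + r • eT i + (eT i : St d l) := by
      rw [add_smul, one_smul, add_assoc]
    have h3 : wv (x + r • eT i) i + 1 < l := by
      rw [h1]; simp only [if_true]; omega
    rw [h2, wv_add h3, h1]
    funext i'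
    simp only [Pi.add_apply]
    by_cases hi : i' = i
    · subst hi
      simp only [es_same, if_true]; omega
    · simp only [es_ne hi, if_neg hi]

lemma wv_nsmul_le {x : St d l} {i : Fin d} {r M : ℕ} (h : wv x i + r < l)
    (hM : ∀ i', wv x i' + r < M) (i' : Fin d) : wv (x + r • eT i) i' < M := by
  rw [wv_nsmul h]
  simp only
  split_ifs
  · exact hM _
  · have := hM i'; omega

lemma wv_two {x : St d l} {i j : Fin d} {q r s M : ℕ} (hM : ∀ i', wv x i' + q + 1 < M)
    (hMl : M < l) (hij : i ≠ j) (hr : r ≤ q) (hs : s ≤ q) (i' : Fin d) :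
    wv (x + r • eT i + s • eT j) i' + 1 < M := by
  have h1 : wv (x + r • eT i) = fun i' => wv x i' + if i' = i then r else 0 :=
    wv_nsmul (by have := hM i; omega)
  have h2 : wv (x + r • eT i) j + s < l := by
    rw [h1]; simp only [if_neg hij.symm]
    have := hM j; omega
  rw [wv_nsmul h2, h1]
  simp only
  have := hM i'
  by_cases hi : i' = i
  · subst hi
    simp only [if_true, if_neg hij]; omega
  · by_cases hj : i' = j
    · subst hj; simp only [if_true, if_neg hi]; omega
    · simp only [if_neg hi, if_neg hj]; omega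

/-- the loop around a square to first order -/
theorem rect_est {x : St d l} {i j : Fin d} {q M : ℕ} (hM : ∀ i', wv x i' + q + 1 < M)
    (hMl : M < l) (hij : i ≠ j) (U : Ed d l → G) :
    (∀ a, |fi L a (rect (gt (Pc U) U) x i j q q) -
      ∑ r ∈ Finset.range q, ∑ s ∈ Finset.range q, Fz L U a i j (x + r • eT i + s • eT j)| ≤
        16 * (q * (d * M * sB L M U)) ^ 2) ∧
    dv L (rect U x i j q q) ≤ 4 * (q * (d * M * sB L M U)) := by
  obtain ⟨D, hD⟩ : ∃ D, D = d * M * sB L M U := ⟨_, rfl⟩
  have hs0 := sB_nonneg (L := L) M U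
  have hD0 : 0 ≤ D := by rw [hD]; positivity
  obtain ⟨V, hV⟩ : ∃ V, V = gt (Pc U) U := ⟨_, rfl⟩
  have hVt : ∀ z k, V (z, k) = tlT U z k := fun z k => by rw [hV]; rfl
  have hlink : ∀ (r s : ℕ) (k : Fin d), r ≤ q → s ≤ q →
      dv L (V (x + r • eT i + s • eT j, k)) ≤ D := by
    intro r s k hr hs
    rw [hVt, hD]
    refine dv_tlT U (fun i' => ?_) ?_
    · have := wv_two hM hMl hij hr hs i'; omega
    · have := wv_two hM hMl hij hr hs k; omega
  have l1 : ∀ s < q, dv L (V (x + s • eT i, i)) ≤ D := fun s hs => by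
    have := hlink s 0 i hs.le (Nat.zero_le _)
    rwa [zero_smul, add_zero] at this
  have l2 : ∀ s < q, dv L (V (x + q • eT i + s • eT j, j)) ≤ D := fun s hs =>
    hlink q s j le_rfl hs.le
  have l3 : ∀ s < q, dv L (V (x + q • eT j + s • eT i, i)) ≤ D := fun s hs => by
    have := hlink s q i hs.le le_rfl
    rwa [add_right_comm] at this
  have l4 : ∀ s < q, dv L (V (x + s • eT j, j)) ≤ D := fun s hs => by
    have := hlink 0 s j (Nat.zero_le _) hs.le
    rwa [zero_smul, add_zero] at this
  rw [← hD, ← hV]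
  have hdv : dv L (rect U x i j q q) = dv L (rect V x i j q q) := by
    rw [hV, rect_gt, dv_conj]
  have d1' := dv_ln l1
  have d2' := dv_ln l2
  have d3' := dv_ln l3
  have d4' := dv_ln l4
  have hqD : 0 ≤ (q : ℝ) * D := by positivity
  constructor
  · intro a
    have f1 := fi_ln a hD0 l1
    have f2 := fi_ln a hD0 l2
    have f3 := fi_ln a hD0 l3
    have f4 := fi_ln a hD0 l4
    have p := fi_plq (L := L) a d1' d2' d3' d4'
    have st := stokes (at' L U a) x i j q q
    have c : |∑ r ∈ Finset.range q, ∑ s ∈ Finset.range q,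
        Fz L U a i j (x + r • eT i + s • eT j) -
        ∑ r ∈ Finset.range q, ∑ s ∈ Finset.range q, d1 (at' L U a) i j
          (x + r • eT i + s • eT j)| ≤ 6 * (q * D) ^ 2 := by
      rw [← Finset.sum_sub_distrib]
      refine (Finset.abs_sum_le_sum_abs _ _).trans ?_
      calc _ ≤ ∑ _r ∈ Finset.range q, (q : ℝ) * (6 * D ^ 2) := by
            refine Finset.sum_le_sum fun r hr => ?_
            rw [← Finset.sum_sub_distrib]
            refine (Finset.abs_sum_le_sum_abs _ _).trans ?_
            calc _ ≤ ∑ _s ∈ Finset.range q, 6 * D ^ 2 := by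
                  refine Finset.sum_le_sum fun s hs => ?_
                  rw [hD]
                  exact Fz_closed (fun i' => wv_two hM hMl hij (Finset.mem_range.1 hr).le
                    (Finset.mem_range.1 hs).le i') hMl a i j
              _ = _ := by simp
        _ = _ := by rw [Finset.sum_const, Finset.card_range, nsmul_eq_mul]; ring
    rw [st] at c
    have e1 : ∀ (z : St d l) (k : Fin d), fi L a (V (z, k)) = at' L U a k z := fun z k => by
      rw [hVt]; rfl
    simp only [e1] at f1 f2 f3 f4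
    unfold rect
    rw [abs_le] at f1 f2 f3 f4 p c ⊢
    constructor <;> nlinarith [f1.1, f1.2, f2.1, f2.2, f3.1, f3.2, f4.1, f4.2, p.1, p.2, c.1, c.2]
  · rw [hdv]
    unfold rect
    have m1 := dv_mul (L := L) (ln V i q x * ln V j q (x + q • eT i) * (ln V i q (x + q • eT j))⁻¹)
      (ln V j q x)⁻¹
    have m2 := dv_mul (L := L) (ln V i q x * ln V j q (x + q • eT i)) (ln V i q (x + q • eT j))⁻¹
    have m3 := dv_mul (L := L) (ln V i q x) (ln V j q (x + q • eT i))
    rw [dv_inv] at m1 m2
    linarith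

/-- the square of the deviation of the loop -/
theorem rect_dv {x : St d l} {i j : Fin d} {q M : ℕ} (hM : ∀ i', wv x i' + q + 1 < M)
    (hMl : M < l) (hij : i ≠ j) {C : ℝ} (hC : 0 < C)
    (hcar : ∀ g : G, dv L g ^ 2 ≤ ∑ a, fi L a g ^ 2 + C * dv L g ^ 4) (U : Ed d l → G) :
    dv L (rect U x i j q q) ^ 2 ≤ 2 * ∑ a, (∑ r ∈ Finset.range q, ∑ s ∈ Finset.range q,
      Fz L U a i j (x + r • eT i + s • eT j)) ^ 2 +
        (512 * n + 256 * C) * (q * (d * M * sB L M U)) ^ 4 := by
  obtain ⟨h1, h2⟩ := rect_est (L := L) hM hMl hij U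
  obtain ⟨E, hE⟩ : ∃ E, E = q * (d * M * sB L M U) := ⟨_, rfl⟩
  rw [← hE] at h1 h2 ⊢
  have h3 := hcar (rect (gt (Pc U) U) x i j q q)
  have h4 : dv L (rect (gt (Pc U) U) x i j q q) = dv L (rect U x i j q q) := by
    rw [rect_gt, dv_conj]
  rw [h4] at h3
  have h5 : dv L (rect U x i j q q) ^ 4 ≤ (4 * E) ^ 4 := pow_le_pow_left₀ (dv_nonneg _) h2 4
  have h6 : ∀ a, fi L a (rect (gt (Pc U) U) x i j q q) ^ 2 ≤
      2 * (∑ r ∈ Finset.range q, ∑ s ∈ Finset.range q,
        Fz L U a i j (x + r • eT i + s • eT j)) ^ 2 + 512 * E ^ 4 := by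
    intro a
    obtain ⟨y, hy⟩ : ∃ y, y = fi L a (rect (gt (Pc U) U) x i j q q) := ⟨_, rfl⟩
    obtain ⟨z, hz⟩ : ∃ z, z = ∑ r ∈ Finset.range q, ∑ s ∈ Finset.range q,
        Fz L U a i j (x + r • eT i + s • eT j) := ⟨_, rfl⟩
    have h7 := h1 a
    rw [← hy, ← hz] at h7
    rw [← hy, ← hz]
    have h8 : (y - z) ^ 2 ≤ (16 * E ^ 2) ^ 2 := by
      rw [← sq_abs]; exact pow_le_pow_left₀ (abs_nonneg _) h7 2
    nlinarith [sq_nonneg (y - 2 * z), sq_nonneg (y - z - z)]
  have h7 : ∑ a, fi L a (rect (gt (Pc U) U) x i j q q) ^ 2 ≤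
      2 * ∑ a, (∑ r ∈ Finset.range q, ∑ s ∈ Finset.range q,
        Fz L U a i j (x + r • eT i + s • eT j)) ^ 2 + n * (512 * E ^ 4) := by
    refine (Finset.sum_le_sum fun a _ => h6 a).trans (le_of_eq ?_)
    rw [Finset.sum_add_distrib, ← Finset.mul_sum]
    simp
  nlinarith [mul_le_mul_of_nonneg_left h5 hC.le]

end dev

end

end Pool.Agent.TH618.YM
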