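import Mathlib
import Pool.Agent.W793.YM.Char
import Pool.Agent.TH618.YM.Loop

/-!
# Reflection positivity for Wilson loops
-/

open MeasureTheory Matrix Filter
open scoped Matrix.Norms.Frobenius ContDiff Topology
open Pool.Agent.H906R3.YM hiding Pl
open Pool.Agent.W793.YM

namespace Pool.Agent.TH618.YM

set_option linter.unusedSectionVars false
set_option linter.unusedVariables false

noncomputable section

section alg

variable {d m : ℕ} [NeZero m] {G : Type*} [Group G] [TopologicalSpace G] [IsTopologicalGroup G]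
  [CompactSpace G] [SecondCountableTopology G] [MeasurableSpace G] [BorelSpace G]
  {hm : 2 ≤ m} {τ i : Fin d}

lemma nsmul_same {l : ℕ} (x : Fin d → ZMod l) (s : ℕ) :
    (x + s • eT τ : Fin d → ZMod l) τ = x τ + s := by
  simp [eT]

lemma nsmul_ne {l : ℕ} (hi : i ≠ τ) (x : Fin d → ZMod l) (s : ℕ) :
    (x + s • eT i : Fin d → ZMod l) τ = x τ := by
  simp [eT, hi.symm]

lemma ln_tU_ne (hi : i ≠ τ) (U : Ed d (2 * m) → G) (k : ℕ) (x : Fin d → ZMod (2 * m)) :
    ln ((TR hm τ).tU U) i k x = ln U i k (rA τ x) := by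
  induction k generalizing x with
  | zero => rfl
  | succ k ih => rw [ln_succ, ln_succ, ih, tU_ne _ _ hi, rA_add hi]

lemma ln_tU_same (U : Ed d (2 * m) → G) (k : ℕ) (x : Fin d → ZMod (2 * m)) :
    ln ((TR hm τ).tU U) τ k x = (ln U τ k (rA τ x - k • eT τ))⁻¹ := by
  induction k generalizing x with
  | zero => rw [ln_zero, ln_zero, inv_one]
  | succ k ih =>
    rw [ln_succ, ih, tU_i0, rA_eq', ← _root_.mul_inv_rev]
    have h1 : rA τ x - (k + 1) • eT τ = rB τ x - k • (eT τ : Fin d → ZMod (2 * m)) := by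
      rw [rA_eq, add_smul, one_smul]; abel
    rw [h1, ln_succ']
    congr 2
    rw [sub_add_cancel]

lemma ln_fix_ne (hi : i ≠ τ) (U : Ed d (2 * m) → G) (k : ℕ) (x : Fin d → ZMod (2 * m)) :
    ln (fix τ U) i k x = ln U i k x := by
  induction k generalizing x with
  | zero => rfl
  | succ k ih => rw [ln_succ, ln_succ, ih, fix_ne _ _ hi]

lemma ln_fix_same (U : Ed d (2 * m) → G) (k : ℕ) (x : Fin d → ZMod (2 * m))
    (h : ∀ s < k, ¬((x + s • eT τ : Fin d → ZMod (2 * m)) τ = 0 ∨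
      (x + s • eT τ : Fin d → ZMod (2 * m)) τ = (m : ZMod (2 * m)))) :
    ln (fix τ U) τ k x = ln U τ k x := by
  induction k generalizing x with
  | zero => rfl
  | succ k ih =>
    have h0 := h 0 (Nat.succ_pos _)
    rw [zero_smul, add_zero] at h0
    rw [ln_succ, ln_succ, fix_i0 _ _ h0, ih _ fun s hs => ?_]
    have := h (s + 1) (by omega)
    have e : x + (s + 1) • eT τ = x + eT τ + s • (eT τ : Fin d → ZMod (2 * m)) := by
      rw [add_smul, one_smul]; abel
    rwa [e] at this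

lemma cast_not {k : ℕ} (h1 : 1 ≤ k) (h2 : k < m) (hm : 2 ≤ m) :
    ¬((k : ZMod (2 * m)) = 0 ∨ (k : ZMod (2 * m)) = (m : ZMod (2 * m))) := by
  rw [eq_zero_iff, eq_m_iff hm, val_nat (by omega)]
  omega

lemma cast_not' {k : ℕ} (h1 : m + 1 ≤ k) (h2 : k < 2 * m) (hm : 2 ≤ m) :
    ¬((k : ZMod (2 * m)) = 0 ∨ (k : ZMod (2 * m)) = (m : ZMod (2 * m))) := by
  rw [eq_zero_iff, eq_m_iff hm, val_nat (by omega)]
  omega

/-- a straight line through the plane of reflection -/
lemma ln_cross (hm : 2 ≤ m) (U : Ed d (2 * m) → G) {z : Fin d → ZMod (2 * m)} (hz : z τ = 1)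
    {T1 T2 : ℕ} (h1 : T1 + 1 ≤ m) (h2 : T2 + 1 ≤ m) :
    ln (fix τ U) τ (T1 + 1 + T2) (z - (T1 + 1) • eT τ) =
      (ln ((TR hm τ).tU U) τ T1 z)⁻¹ * ln U τ T2 z := by
  rw [ln_add, ln_succ', sub_add_cancel]
  have e0 : (T1 + 1) • (eT τ : Fin d → ZMod (2 * m)) = T1 • eT τ + eT τ := by
    rw [add_smul, one_smul]
  have e1 : z - (T1 + 1) • eT τ + T1 • eT τ = z - (eT τ : Fin d → ZMod (2 * m)) := by
    rw [e0]; abel
  rw [e1, fix_i0' U _ (Or.inl (by
    have : (z - eT τ : Fin d → ZMod (2 * m)) τ = z τ - 1 := by simp [eT]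
    rw [this, hz, sub_self])), mul_one]
  have e2 : rA τ z = z - eT τ := by
    funext k
    unfold rA eT
    by_cases hk : k = τ
    · subst hk; simp [hz]
    · simp [hk]
  congr 1
  · rw [ln_tU_same, inv_inv, e2, ln_fix_same]
    · congr 1
      rw [e0]; abel
    · intro s hs
      have e3 : (z - (T1 + 1) • eT τ + s • eT τ : Fin d → ZMod (2 * m)) τ =
          ((2 * m - T1 + s : ℕ) : ZMod (2 * m)) := by
        rw [nsmul_same]
        have : (z - (T1 + 1) • eT τ : Fin d → ZMod (2 * m)) τ = z τ - ((T1 + 1 : ℕ) : ZMod (2 * m)) := by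
          simp [eT]
        have e4 : ((2 * m - T1 + s : ℕ) : ZMod (2 * m)) = -(T1 : ZMod (2 * m)) + s := by
          rw [Nat.cast_add, Nat.cast_sub (by omega), ZMod.natCast_self, zero_sub]
        rw [this, hz, e4]
        push_cast; ring
      rw [e3]
      exact cast_not' (by omega) (by omega) hm
  · refine ln_fix_same _ _ _ fun s hs => ?_
    have e3 : (z + s • eT τ : Fin d → ZMod (2 * m)) τ = ((1 + s : ℕ) : ZMod (2 * m)) := by
      rw [nsmul_same, hz]; push_cast; ring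
    rw [e3]
    exact cast_not (by omega) (by omega) hm

/-- the upper part of the loop -/
def up (τ i : Fin d) (R : ℕ) (x : Fin d → ZMod (2 * m)) (T : ℕ) (U : Ed d (2 * m) → G) : G :=
  ln U τ T x * ln U i R (x + T • eT τ) * (ln U τ T (x + R • eT i))⁻¹

lemma rect_fix (hm : 2 ≤ m) (hi : i ≠ τ) (U : Ed d (2 * m) → G) {x : Fin d → ZMod (2 * m)}
    (hx : x τ = 1) (R : ℕ) {T1 T2 : ℕ} (h1 : T1 + 1 ≤ m) (h2 : T2 + 1 ≤ m) :
    ∃ g : G, rect (fix τ U) (x - (T1 + 1) • eT τ) τ i (T1 + 1 + T2) R =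
      g⁻¹ * (up τ i R x T2 U * (up τ i R x T1 ((TR hm τ).tU U))⁻¹) * g := by
  refine ⟨ln ((TR hm τ).tU U) τ T1 x, ?_⟩
  unfold rect up
  have hx' : (x + R • eT i : Fin d → ZMod (2 * m)) τ = 1 := by rw [nsmul_ne hi, hx]
  have e1 : x - (T1 + 1) • eT τ + R • eT i = x + R • eT i - (T1 + 1) • (eT τ : Fin d → ZMod (2 * m)) := by
    abel
  have e2 : x - (T1 + 1) • eT τ + (T1 + 1 + T2) • eT τ = x + T2 • (eT τ : Fin d → ZMod (2 * m)) := by
    rw [add_smul (T1 + 1) T2]; abel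
  have e3 : rA τ (x + T1 • eT τ) = x - (T1 + 1) • eT τ := by
    funext k
    unfold rA eT
    by_cases hk : k = τ
    · subst hk; simp [hx]
    · simp [hk]
  rw [e1, ln_cross hm U hx h1 h2, ln_cross hm U hx' h1 h2, e2, ln_fix_ne hi, ln_fix_ne hi,
    ln_tU_ne hi, e3]
  group

end alg

variable {G : Type*} [Group G] [TopologicalSpace G] [IsTopologicalGroup G] [CompactSpace G]
  [SecondCountableTopology G] [MeasurableSpace G] [BorelSpace G] (μ : Measure G)
  [IsProbabilityMeasure μ] [μ.IsMulLeftInvariant] [μ.IsMulRightInvariant] [μ.IsInvInvariant]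
  {N n : ℕ} {L : LD G N n}

section ln

variable {d l : ℕ}

lemma ln_cont (i : Fin d) (k : ℕ) (x : Fin d → ZMod l) :
    Continuous fun U : Ed d l → G => ln U i k x := by
  induction k generalizing x with
  | zero => exact continuous_const
  | succ k ih => exact (continuous_apply _).mul (ih _)

lemma rect_cont (x : Fin d → ZMod l) (i j : Fin d) (R T : ℕ) :
    Continuous fun U : Ed d l → G => rect U x i j R T :=
  (((ln_cont _ _ _).mul (ln_cont _ _ _)).mul (ln_cont _ _ _).inv).mul (ln_cont _ _ _).inv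

lemma ln_tr (z : Fin d → ZMod l) (U : Ed d l → G) (i : Fin d) (k : ℕ) (x : Fin d → ZMod l) :
    ln (tr z U) i k x = ln U i k (x + z) := by
  induction k generalizing x with
  | zero => rfl
  | succ k ih =>
    rw [ln_succ, ln_succ, ih, add_right_comm]
    rfl

lemma rect_tr (z : Fin d → ZMod l) (U : Ed d l → G) (x : Fin d → ZMod l) (i j : Fin d)
    (R T : ℕ) : rect (tr z U) x i j R T = rect U (x + z) i j R T := by
  unfold rect
  rw [ln_tr, ln_tr, ln_tr, ln_tr, add_right_comm x (R • eT i) z, add_right_comm x (T • eT j) z]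

variable (L) in
/-- the trace -/
def rt (g : G) : ℝ := (trace (L.rho g)).re

lemma rt_cont : Continuous (rt L) := Complex.continuous_re.comp L.cont.matrix_trace

lemma rt_conj (h g : G) : rt L (h * g * h⁻¹) = rt L g := by
  have h1 := we_conj (L := L) h g
  rw [we_tr, we_tr] at h1
  unfold rt
  linarith

lemma rt_conj' (h g : G) : rt L (h⁻¹ * g * h) = rt L g := by
  have := rt_conj (L := L) h⁻¹ g
  rwa [inv_inv] at this

lemma rt_inv (g : G) : rt L g⁻¹ = rt L g := by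
  have h1 := we_inv (L := L) g
  rw [we_tr, we_tr] at h1
  unfold rt
  linarith

lemma rt_we (g : G) : rt L g = N - we L g := by
  rw [we_tr]; unfold rt; ring

lemma rt_le (g : G) : rt L g ≤ N := by
  rw [rt_we]; have := we_nonneg (L := L) g; linarith

lemma rt_mul (g h : G) : rt L (g * h⁻¹) = ∑ c, co c (L.rho g) * co c (L.rho h) := by
  unfold rt
  rw [sum_co_mul, map_mul, L.rho_inv]

end ln

section rp

variable {d m : ℕ} [NeZero m] {τ i : Fin d}

lemma ln_dep_same (hm : 2 ≤ m) {U U' : Ed d (2 * m) → G}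
    (h : ∀ e, (TR hm τ).R e → U e = U' e) {z : Fin d → ZMod (2 * m)} (hz : z τ = 1) {T : ℕ}
    (hT : T + 1 ≤ m) : ln U τ T z = ln U' τ T z := by
  have key : ∀ (k a : ℕ) (z : Fin d → ZMod (2 * m)), z τ = (a : ZMod (2 * m)) → 1 ≤ a →
      a + k ≤ m → ln U τ k z = ln U' τ k z := by
    intro k
    induction k with
    | zero => intro a z _ _ _; rfl
    | succ k ih =>
      intro a z hz ha hak
      rw [ln_succ, ln_succ, ih (a + 1) (z + eT τ) (by
        rw [add_same, hz]; push_cast; ring) (by omega) (by omega)]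
      congr 1
      refine h _ ?_
      show if τ = τ then H2 m (z τ) else _
      rw [if_pos rfl, hz]
      unfold H2
      rw [val_nat (by omega)]
      omega
  exact key T 1 z (by rw [hz]; simp) le_rfl (by omega)

lemma ln_dep_ne (hm : 2 ≤ m) (hi : i ≠ τ) {U U' : Ed d (2 * m) → G}
    (h : ∀ e, (TR hm τ).R e → U e = U' e) {z : Fin d → ZMod (2 * m)} (hz : H1 m (z τ)) (k : ℕ) :
    ln U i k z = ln U' i k z := by
  induction k generalizing z with
  | zero => rfl
  | succ k ih =>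
    rw [ln_succ, ln_succ, ih (z := z + eT i) (by rw [add_ne z hi]; exact hz)]
    congr 1
    refine h _ ?_
    show if i = τ then _ else H1 m (z τ)
    rw [if_neg hi]; exact hz

lemma up_dep (hm : 2 ≤ m) (hi : i ≠ τ) {x : Fin d → ZMod (2 * m)} (hx : x τ = 1) (R : ℕ) {T : ℕ}
    (hT : T + 1 ≤ m) : Dep (TR hm τ).R fun U : Ed d (2 * m) → G => up τ i R x T U := by
  intro U U' h
  show up τ i R x T U = up τ i R x T U'
  unfold up
  rw [ln_dep_same hm h hx hT, ln_dep_same hm h (z := x + R • eT i) (by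
    rw [nsmul_ne hi, hx]) hT, ln_dep_ne hm hi h (z := x + T • eT τ) (by
    rw [nsmul_same, hx]
    have : (1 + (T : ZMod (2 * m))) = ((1 + T : ℕ) : ZMod (2 * m)) := by push_cast; ring
    rw [this]
    exact H1_nat (by omega) (by omega) hm)]

lemma up_cont (x : Fin d → ZMod (2 * m)) (R T : ℕ) :
    Continuous fun U : Ed d (2 * m) → G => up τ i R x T U :=
  ((ln_cont _ _ _).mul (ln_cont _ _ _)).mul (ln_cont _ _ _).inv

/-- the coordinates of the upper part of the loop, with the weight -/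
def uc (L : LD G N n) (β : ℝ) (τ i : Fin d) (R : ℕ) (T : ℕ) (c : Fin N × Fin N × Bool)
    (U : Ed d (2 * m) → G) : ℝ :=
  co c (L.rho (up τ i R (eT τ) T U)) * (wR L β m τ).1 U

lemma uc_cont (β : ℝ) (R T : ℕ) (c : Fin N × Fin N × Bool) :
    Continuous (uc (m := m) L β τ i R T c) :=
  ((co c).continuous.comp (L.cont.comp (up_cont _ _ _))).mul (Sm_cont _)

lemma uc_dep (hm : 2 ≤ m) (hi : i ≠ τ) (β : ℝ) (R : ℕ) {T : ℕ} (hT : T + 1 ≤ m)
    (c : Fin N × Fin N × Bool) : Dep (TR hm τ).R (uc (m := m) L β τ i R T c) := by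
  intro U U' h
  unfold uc
  have h1 := up_dep (G := G) hm hi (x := eT τ) (by simp [eT]) R hT U U' h
  simp only at h1
  rw [h1, wR_dep (L := L) hm β τ U U' h]

/-- the expectation of the rectangular loop, with reflection positivity -/
theorem loop_rp (hm : 2 ≤ m) (hi : i ≠ τ) (β : ℝ) : ∃ c : ℝ, 0 < c ∧ ∀ (R T1 T2 : ℕ),
    T1 + 1 ≤ m → T2 + 1 ≤ m →
    Zt μ L β (fun U : Ed d (2 * m) → G => rt L (rect U 0 τ i (T1 + 1 + T2) R)) =
      c * ∑ k, (TR hm τ).B μ L β (uc L β τ i R T2 k) (uc L β τ i R T1 k) := by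
  obtain ⟨c, hc, hred⟩ := Zt_red μ (L := L) hm τ β
  refine ⟨c, hc, fun R T1 T2 h1 h2 => ?_⟩
  have e1 : Zt μ L β (fun U : Ed d (2 * m) → G => rt L (rect U 0 τ i (T1 + 1 + T2) R)) =
      Zt μ L β (fun U : Ed d (2 * m) → G =>
        rt L (rect U (eT τ - (T1 + 1) • eT τ) τ i (T1 + 1 + T2) R)) := by
    rw [← Zt_tr μ β (eT τ - (T1 + 1) • eT τ) (fun U : Ed d (2 * m) → G =>
      rt L (rect U 0 τ i (T1 + 1 + T2) R))]
    simp only [rect_tr, zero_add]
  have hF : Continuous fun U : Ed d (2 * m) → G =>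
      rt L (rect U (eT τ - (T1 + 1) • eT τ) τ i (T1 + 1 + T2) R) :=
    rt_cont.comp (rect_cont _ _ _ _ _)
  have hg : GI fun U : Ed d (2 * m) → G =>
      rt L (rect U (eT τ - (T1 + 1) • eT τ) τ i (T1 + 1 + T2) R) := fun γ U => by
    show rt L (rect (gt γ U) _ _ _ _ _) = _
    rw [rect_gt, rt_conj]
  rw [e1, hred _ hF hg]
  congr 1
  have hi2 : ∀ k ∈ (Finset.univ : Finset (Fin N × Fin N × Bool)), Integrable
      (fun U : Ed d (2 * m) → G => uc L β τ i R T2 k U * uc L β τ i R T1 k ((TR hm τ).tU U) *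
        Real.exp (β * (TR hm τ).ker L U)) (ME μ (Ed d (2 * m))) := fun k _ =>
    integrable_cont μ (((uc_cont β R T2 k).mul ((uc_cont β R T1 k).comp (TR hm τ).tU_cont)).mul
      (Real.continuous_exp.comp (continuous_const.mul (TR hm τ).ker_cont)))
  unfold Refl.Ew Refl.B
  rw [← integral_finsetSum _ hi2]
  refine integral_congr_ae (Filter.Eventually.of_forall fun U => ?_)
  simp only
  obtain ⟨g, hg⟩ := rect_fix hm hi U (x := eT τ) (by simp [eT]) R h1 h2
  rw [hg, rt_conj', rt_mul, Finset.sum_mul]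
  refine Finset.sum_congr rfl fun k _ => ?_
  unfold uc
  ring

/-- **Reflection positivity for rectangular loops.** -/
theorem loop_cs (hm : 2 ≤ m) (hi : i ≠ τ) {β : ℝ} (hβ : 0 ≤ β) (R : ℕ) {T1 T2 : ℕ}
    (h1 : T1 + 1 ≤ m) (h2 : T2 + 1 ≤ m) :
    EX μ L β (fun U : Ed d (2 * m) → G => rt L (rect U 0 τ i (T1 + 1 + T2) R)) ^ 2 ≤
      EX μ L β (fun U : Ed d (2 * m) → G => rt L (rect U 0 τ i (2 * T1 + 1) R)) *
        EX μ L β (fun U : Ed d (2 * m) → G => rt L (rect U 0 τ i (2 * T2 + 1) R)) ∧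
    0 ≤ EX μ L β (fun U : Ed d (2 * m) → G => rt L (rect U 0 τ i (2 * T1 + 1) R)) := by
  obtain ⟨c, hc, h⟩ := loop_rp μ (L := L) hm hi β
  obtain ⟨S, hS⟩ : ∃ S : ℕ → ℕ → ℝ, S = fun T T' =>
    ∑ k, (TR hm τ).B μ L β (uc L β τ i R T k) (uc L β τ i R T' k) := ⟨_, rfl⟩
  have e1 := h R T1 T2 h1 h2
  have e2 := h R T1 T1 h1 h1
  have e3 := h R T2 T2 h2 h2
  have a1 : T1 + 1 + T1 = 2 * T1 + 1 := by omega
  have a2 : T2 + 1 + T2 = 2 * T2 + 1 := by omega
  rw [a1] at e2
  rw [a2] at e3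
  have n1 : 0 ≤ S T1 T1 := by
    rw [hS]
    exact Finset.sum_nonneg fun k _ => (TR hm τ).B_self μ hβ (uc_cont β R T1 k)
      (uc_dep hm hi β R h1 k)
  have cs : S T2 T1 ^ 2 ≤ S T2 T2 * S T1 T1 := by
    refine Pool.Agent.H906R3.YM.sq_le_of_forall fun t => ?_
    rw [hS]
    simp only
    rw [Finset.mul_sum, Finset.mul_sum, ← Finset.sum_add_distrib, ← Finset.sum_add_distrib]
    exact Finset.sum_nonneg fun k _ => (TR hm τ).B_quad μ hβ (uc_cont β R T2 k)
      (uc_dep hm hi β R h2 k) (uc_cont β R T1 k) (uc_dep hm hi β R h1 k) t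
  have hZ := Zt_pos μ (L := L) (d := d) (l := 2 * m) β
  have f1 : Zt μ L β (fun U : Ed d (2 * m) → G => rt L (rect U 0 τ i (T1 + 1 + T2) R)) =
      c * S T2 T1 := by rw [e1, hS]
  have f2 : Zt μ L β (fun U : Ed d (2 * m) → G => rt L (rect U 0 τ i (2 * T1 + 1) R)) =
      c * S T1 T1 := by rw [e2, hS]
  have f3 : Zt μ L β (fun U : Ed d (2 * m) → G => rt L (rect U 0 τ i (2 * T2 + 1) R)) =
      c * S T2 T2 := by rw [e3, hS]
  unfold EX
  rw [f1, f2, f3]
  constructor
  · rw [div_pow, div_mul_div_comm, pow_two (Zt μ L β _)]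
    refine div_le_div_of_nonneg_right ?_ (by positivity)
    calc (c * S T2 T1) ^ 2 = c ^ 2 * S T2 T1 ^ 2 := by ring
      _ ≤ c ^ 2 * (S T2 T2 * S T1 T1) := mul_le_mul_of_nonneg_left cs (by positivity)
      _ = _ := by ring
  · exact div_nonneg (mul_nonneg hc.le n1) hZ.le

end rp

end

end Pool.Agent.TH618.YM
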