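import Mathlib
import Pool.Agent.W793.YM.Lat2
import Pool.Agent.W793.YM.Rebase

/-!
# The energy of the current around a square
-/

open Pool.Agent.H906R3.YM hiding Pl
open Pool.Agent.W793.YM

namespace Pool.Agent.TH618.YM

set_option linter.unusedSectionVars false
set_option linter.unusedVariables false

noncomputable section

variable {d l n : ℕ} [NeZero l]

/-! ### the walk -/

lemma lap_Dm (i : Fin d) (f : St d l → ℝ) : lap (Dm i f) = Dm i (lap f) := by
  unfold lap
  rw [Dm_sum]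
  refine Finset.sum_congr rfl fun k _ => ?_
  rw [Dp_Dm, Dm_comm]

lemma Pl_Dm (i : Fin d) (f : St d l → ℝ) : Pl (Dm i f) = Dm i (Pl f) := by
  unfold Pl
  rw [Dm_sub, Dm_smul, lap_Dm]

lemma Plk_Dm (k : ℕ) (i : Fin d) (f : St d l → ℝ) : Plk k (Dm i f) = Dm i (Plk k f) := by
  induction k with
  | zero => rfl
  | succ k ih => rw [Plk_succ, Plk_succ, ih, Pl_Dm]

lemma Plk_zero_fun (k : ℕ) : Plk k (0 : St d l → ℝ) = 0 := by
  have := Plk_smul k (0 : ℝ) (0 : St d l → ℝ)
  rwa [zero_smul, zero_smul] at this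

lemma Plk_sum {ι : Type*} (k : ℕ) (s : Finset ι) (f : ι → St d l → ℝ) :
    Plk k (∑ i ∈ s, f i) = ∑ i ∈ s, Plk k (f i) := by
  classical
  induction s using Finset.induction_on with
  | empty => rw [Finset.sum_empty, Finset.sum_empty, Plk_zero_fun]
  | insert a s ha ih => rw [Finset.sum_insert ha, Finset.sum_insert ha, Plk_add, ih]

lemma uK_Dm (K : ℕ) (i : Fin d) (f : St d l → ℝ) : uK K (Dm i f) = Dm i (uK K f) := by
  unfold uK
  rw [Dm_smul, Dm_sum]
  simp only [Plk_Dm]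

lemma uK_zero_fun (K : ℕ) : uK K (0 : St d l → ℝ) = 0 := by
  have := uK_smul K (0 : ℝ) (0 : St d l → ℝ)
  rwa [zero_smul, zero_smul] at this

lemma uK_sum {ι : Type*} (K : ℕ) (s : Finset ι) (f : ι → St d l → ℝ) :
    uK K (∑ i ∈ s, f i) = ∑ i ∈ s, uK K (f i) := by
  classical
  induction s using Finset.induction_on with
  | empty => rw [Finset.sum_empty, Finset.sum_empty, uK_zero_fun]
  | insert a s ha ih => rw [Finset.sum_insert ha, Finset.sum_insert ha, uK_add, ih]

lemma ds2_uK (K : ℕ) (g : Fm d l) (k : Fin d) :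
    ds2 (fun j k => uK K (g j k)) k = uK K (ds2 g k) := by
  unfold ds2
  rw [uK_sum]
  exact Finset.sum_congr rfl fun j _ => (uK_Dm _ _ _).symm

lemma ds2_Plk (K : ℕ) (g : Fm d l) (k : Fin d) :
    ds2 (fun j k => Plk K (g j k)) k = Plk K (ds2 g k) := by
  unfold ds2
  rw [Plk_sum]
  exact Finset.sum_congr rfl fun j _ => (Plk_Dm _ _ _).symm

lemma Pl_bd (hd : 0 < d) {f : St d l → ℝ} {B : ℝ} (h : ∀ x, |f x| ≤ B) (x : St d l) :
    |Pl f x| ≤ B := by
  have hd0 : (0 : ℝ) < d := by exact_mod_cast hd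
  rw [Pl_apply hd]
  have h1 : |∑ i, (f (x + eT i) + f (x - eT i))| ≤ d * (2 * B) := by
    refine (Finset.abs_sum_le_sum_abs _ _).trans ?_
    calc _ ≤ ∑ _i : Fin d, 2 * B := by
          refine Finset.sum_le_sum fun i _ => ?_
          have h2 := abs_add_le (f (x + eT i)) (f (x - eT i))
          have h3 := h (x + eT i)
          have h4 := h (x - eT i)
          linarith
      _ = _ := by simp
  refine (abs_add_le _ _).trans ?_
  rw [abs_mul, abs_mul, abs_of_pos (by norm_num : (0 : ℝ) < 1 / 2),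
    abs_of_pos (by positivity : (0 : ℝ) < 1 / (4 * d))]
  have h2 := h x
  have h3 : 1 / (4 * (d : ℝ)) * |∑ i, (f (x + eT i) + f (x - eT i))| ≤
      1 / (4 * d) * (d * (2 * B)) := mul_le_mul_of_nonneg_left h1 (by positivity)
  have h4 : 1 / (4 * (d : ℝ)) * (d * (2 * B)) = B / 2 := by field_simp; norm_num
  linarith

lemma Plk_bd (hd : 0 < d) {f : St d l → ℝ} {B : ℝ} (h : ∀ x, |f x| ≤ B) (k : ℕ) (x : St d l) :
    |Plk k f x| ≤ B := by
  induction k generalizing x with
  | zero => exact h x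
  | succ k ih => rw [Plk_succ]; exact Pl_bd hd ih x

lemma ip2_bd {f g : St d l → ℝ} {B : ℝ} (h : ∀ x, |g x| ≤ B) : |ip2 f g| ≤ (∑ x, |f x|) * B := by
  unfold ip2
  refine (Finset.abs_sum_le_sum_abs _ _).trans ?_
  rw [Finset.sum_mul]
  refine Finset.sum_le_sum fun x _ => ?_
  rw [abs_mul]
  exact mul_le_mul_of_nonneg_left (h x) (abs_nonneg _)

/-! ### the variance -/

/-- the energy of an exact form -/
lemma energy (K : ℕ) {g : Fm d l} (hg : Asy g) :
    ipF (d1 (ds2 fun j k => uK K (g j k))) (d1 (ds2 fun j k => uK K (g j k))) =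
      ∑ k, (ip2 (ds2 g k) (uK K (ds2 g k)) - ip2 (Plk K (ds2 g k)) (uK K (ds2 g k))) := by
  obtain ⟨u, hu⟩ : ∃ u : Fm d l, u = fun j k => uK K (g j k) := ⟨_, rfl⟩
  have hua : Asy u := fun j k => by rw [hu]; simp only; rw [hg j k, uK_neg]
  have hPa : Asy (fun j k => Plk K (g j k)) := fun j k => by
    show Plk K (g j k) = -Plk K (g k j)
    rw [hg j k, Plk_neg]
  rw [← hu]
  have h1 : d1 (ds2 u) = g - (fun j k => Plk K (g j k)) - cx u := by
    funext j k
    show d1 (ds2 u) j k = g j k - Plk K (g j k) - (lap (u j k) - d1 (ds2 u) j k)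
    have h2 : lap (u j k) = g j k - Plk K (g j k) := by rw [hu]; exact lap_uK K _
    rw [h2]; abel
  have h2 : ipF (d1 (ds2 u)) (d1 (ds2 u)) = ipF g (d1 (ds2 u)) -
      ipF (fun j k => Plk K (g j k)) (d1 (ds2 u)) := by
    have h3 : ∀ W : Fm d l, ipF (d1 (ds2 u)) W = ipF g W - ipF (fun j k => Plk K (g j k)) W -
        ipF (cx u) W := fun W => by rw [h1, ipF_sub_left, ipF_sub_left]
    rw [h3, cx_orth hua, sub_zero]
  rw [h2, ipF_ds hg, ipF_ds hPa, ← Finset.sum_sub_distrib]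
  refine Finset.sum_congr rfl fun k _ => ?_
  rw [ds2_Plk, hu, ds2_uK]

/-- the energy of a current -/
lemma energy_le (hd : 0 < d) (K : ℕ) {J : St d l → ℝ} {s : ℕ → ℝ}
    (hs : ∀ k < K, ∀ x, |Plk k J x| ≤ s k) :
    ip2 J (uK K J) - ip2 (Plk K J) (uK K J) ≤ (∑ x, |J x|) * ∑ k ∈ Finset.range K, s k := by
  have hd0 : (1 : ℝ) ≤ d := by exact_mod_cast hd
  obtain ⟨S, hS⟩ : ∃ S, S = ∑ k ∈ Finset.range K, s k := ⟨_, rfl⟩
  have hs0 : ∀ k < K, 0 ≤ s k := fun k hk => (abs_nonneg _).trans (hs k hk 0)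
  have hS0 : 0 ≤ S := by
    rw [hS]; exact Finset.sum_nonneg fun k hk => hs0 k (Finset.mem_range.1 hk)
  have h1 : ∀ x, |uK K J x| ≤ 1 / (4 * d) * S := by
    intro x
    unfold uK
    rw [Pi.smul_apply, Finset.sum_apply, smul_eq_mul, abs_mul,
      abs_of_pos (by positivity : (0 : ℝ) < 1 / (4 * d)), hS]
    refine mul_le_mul_of_nonneg_left ?_ (by positivity)
    exact (Finset.abs_sum_le_sum_abs _ _).trans
      (Finset.sum_le_sum fun k hk => hs k (Finset.mem_range.1 hk) x)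
  have h2 := ip2_bd (f := J) h1
  have h3 := ip2_bd (f := Plk K J) h1
  have h4 := Plk_l1 hd K J
  have h5 : 1 / (4 * (d : ℝ)) * S ≤ 1 / 2 * S := by
    refine mul_le_mul_of_nonneg_right ?_ hS0
    rw [div_le_div_iff₀ (by positivity) (by norm_num)]
    linarith
  have h6 : 0 ≤ ∑ x, |J x| := Finset.sum_nonneg fun x _ => abs_nonneg _
  have h7 : (∑ x, |Plk K J x|) * (1 / (4 * d) * S) ≤ (∑ x, |J x|) * (1 / 2 * S) :=
    mul_le_mul h4 h5 (by positivity) h6
  have h8 : (∑ x, |J x|) * (1 / (4 * d) * S) ≤ (∑ x, |J x|) * (1 / 2 * S) :=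
    mul_le_mul_of_nonneg_left h5 h6
  rw [abs_le] at h2 h3
  rw [← hS]
  nlinarith [h2.2, h3.1]

/-- the sum of the powers `-3/2` -/
lemma tail_sum {a : ℕ} (ha : 1 ≤ a) (K : ℕ) :
    ∑ k ∈ Finset.Ico a K, 1 / (Real.sqrt k ^ 3) ≤ 6 / Real.sqrt a := by
  have hterm : ∀ k : ℕ, 1 ≤ k → 1 / (Real.sqrt k ^ 3) ≤
      6 / Real.sqrt k - 6 / Real.sqrt ((k + 1 : ℕ) : ℝ) := by
    intro k hk
    have hk1 : (1 : ℝ) ≤ k := by exact_mod_cast hk
    obtain ⟨u, hu⟩ : ∃ u, u = Real.sqrt k := ⟨_, rfl⟩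
    obtain ⟨v, hv⟩ : ∃ v, v = Real.sqrt ((k + 1 : ℕ) : ℝ) := ⟨_, rfl⟩
    have hu2 : u ^ 2 = k := by rw [hu]; exact Real.sq_sqrt (by linarith)
    have hv2 : v ^ 2 = k + 1 := by rw [hv]; rw [Real.sq_sqrt (by positivity)]; push_cast; ring
    have hu1 : 1 ≤ u := by rw [hu, Real.one_le_sqrt]; exact hk1
    have huv : u ≤ v := by rw [hu, hv]; exact Real.sqrt_le_sqrt (by push_cast; linarith)
    have hv0 : 0 < v := by linarith
    rw [← hu, ← hv]
    have h2 : v ^ 2 ≤ 2 * u ^ 2 := by rw [hu2, hv2]; linarith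
    have h3 : v ≤ 3 / 2 * u := by
      have h4 : v ^ 2 ≤ (3 / 2 * u) ^ 2 := by nlinarith
      exact (abs_le_of_sq_le_sq' h4 (by linarith)).2
    have h5 : 6 / u - 6 / v = 6 / (u * v * (u + v)) := by
      have h6 : (v - u) * (u + v) = 1 := by nlinarith
      have h7 : u + v ≠ 0 := by positivity
      have h8 : v - u = 1 / (u + v) := by field_simp; linarith
      have : 6 / u - 6 / v = 6 * (v - u) / (u * v) := by field_simp
      rw [this, h8]
      field_simp
    rw [h5, div_le_div_iff₀ (by positivity) (by positivity)]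
    have h9 : u * v * (u + v) ≤ u * (3 / 2 * u) * (u + 3 / 2 * u) := by gcongr
    nlinarith [pow_pos (show 0 < u by linarith) 3]
  rcases le_or_gt a K with h | h
  · obtain ⟨t, rfl⟩ := Nat.exists_eq_add_of_le h
    have key : ∀ t : ℕ, ∑ k ∈ Finset.Ico a (a + t), 1 / (Real.sqrt k ^ 3) ≤
        6 / Real.sqrt a - 6 / Real.sqrt ((a + t : ℕ) : ℝ) := by
      intro t
      induction t with
      | zero => simp
      | succ t ih =>
        rw [← add_assoc, Finset.sum_Ico_succ_top (by omega)]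
        have := hterm (a + t) (by omega)
        linarith
    have h1 := key t
    have h2 : 0 ≤ 6 / Real.sqrt ((a + t : ℕ) : ℝ) := by positivity
    linarith
  · rw [Finset.Ico_eq_empty (by omega), Finset.sum_empty]
    positivity

/-- the energy of a bounded current of total mass at most `2 p ^ 3` -/
lemma current_le (hd : 3 ≤ d) {K p : ℕ} (hp : 1 ≤ p) (hKl : K ≤ l) {J : St d l → ℝ}
    (h1 : ∑ x, |J x| ≤ 2 * (p : ℝ) ^ 3) (h2 : ∀ x, |J x| ≤ 2) :
    ip2 J (uK K J) - ip2 (Plk K J) (uK K J) ≤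
      (4 + 24 * (2 + 2 * Real.sqrt (2 * d)) ^ d) * (p : ℝ) ^ 5 := by
  have hp1 : (1 : ℝ) ≤ p := by exact_mod_cast hp
  obtain ⟨c, hc⟩ : ∃ c : ℝ, c = (2 + 2 * Real.sqrt (2 * d)) ^ d := ⟨_, rfl⟩
  have hc0 : 0 ≤ c := by rw [hc]; positivity
  rw [← hc]
  obtain ⟨s, hs⟩ : ∃ s : ℕ → ℝ, s = fun k => if k < p ^ 2 then 2 else
    c * (2 * (p : ℝ) ^ 3) * (1 / Real.sqrt k ^ 3) := ⟨_, rfl⟩
  have hb : ∀ k < K, ∀ x, |Plk k J x| ≤ s k := by
    intro k hk x
    rw [hs]
    simp only
    split_ifs with hkp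
    · exact Plk_bd (by omega) h2 k x
    · have hk1 : 1 ≤ k := by
        have : 1 ≤ p ^ 2 := Nat.one_le_pow _ _ hp
        omega
      have h3 := Plk_sup (by omega) hk1 (by omega) J x
      have hsk : 1 ≤ Real.sqrt k := by
        rw [Real.one_le_sqrt]; exact_mod_cast hk1
      refine h3.trans ?_
      rw [div_pow, ← hc]
      have h4 : c / Real.sqrt k ^ d ≤ c / Real.sqrt k ^ 3 :=
        div_le_div_of_nonneg_left hc0 (by positivity) (pow_le_pow_right₀ hsk hd)
      calc c / Real.sqrt k ^ d * ∑ y, |J y| ≤ c / Real.sqrt k ^ 3 * (2 * (p : ℝ) ^ 3) :=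
            mul_le_mul h4 h1 (Finset.sum_nonneg fun _ _ => abs_nonneg _) (by positivity)
        _ = _ := by ring
  have h3 := energy_le (by omega) K hb
  have h4 : ∑ k ∈ Finset.range K, s k ≤ (2 + 12 * c) * (p : ℝ) ^ 2 := by
    have h5 : ∀ k, s k ≤ (if k < p ^ 2 then 2 else 0) + (if p ^ 2 ≤ k then
        c * (2 * (p : ℝ) ^ 3) * (1 / Real.sqrt k ^ 3) else 0) := by
      intro k
      rw [hs]
      simp only
      by_cases hkp : k < p ^ 2
      · rw [if_pos hkp, if_pos hkp, if_neg (by omega), add_zero]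
      · rw [if_neg hkp, if_neg hkp, if_pos (by omega), zero_add]
    have h6 : ∑ k ∈ Finset.range K, (if k < p ^ 2 then (2 : ℝ) else 0) ≤ 2 * (p : ℝ) ^ 2 := by
      rw [← Finset.sum_filter, Finset.sum_const, nsmul_eq_mul]
      have h7 : ((Finset.range K).filter fun k => k < p ^ 2).card ≤ p ^ 2 := by
        calc _ ≤ (Finset.range (p ^ 2)).card := Finset.card_le_card fun k hk => by
              rw [Finset.mem_filter] at hk
              exact Finset.mem_range.2 hk.2
          _ = _ := Finset.card_range _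
      have h8 : (((Finset.range K).filter fun k => k < p ^ 2).card : ℝ) ≤ (p : ℝ) ^ 2 := by
        exact_mod_cast h7
      linarith
    have h7 : ∑ k ∈ Finset.range K, (if p ^ 2 ≤ k then
        c * (2 * (p : ℝ) ^ 3) * (1 / Real.sqrt k ^ 3) else 0) ≤ 12 * c * (p : ℝ) ^ 2 := by
      rw [← Finset.sum_filter]
      have h8 : (Finset.range K).filter (fun k => p ^ 2 ≤ k) = Finset.Ico (p ^ 2) K := by
        ext k
        simp only [Finset.mem_filter, Finset.mem_range, Finset.mem_Ico]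
        exact and_comm
      rw [h8, ← Finset.mul_sum]
      have h9 := tail_sum (a := p ^ 2) (Nat.one_le_pow _ _ hp) K
      have h10 : Real.sqrt ((p ^ 2 : ℕ) : ℝ) = p := by
        push_cast; exact Real.sqrt_sq (by linarith)
      rw [h10] at h9
      calc _ ≤ c * (2 * (p : ℝ) ^ 3) * (6 / p) := mul_le_mul_of_nonneg_left h9 (by positivity)
        _ = _ := by field_simp; ring
    calc ∑ k ∈ Finset.range K, s k ≤ _ := Finset.sum_le_sum fun k _ => h5 k
      _ = _ := Finset.sum_add_distrib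
      _ ≤ _ := by linarith
  refine h3.trans ?_
  have h5 : 0 ≤ ∑ k ∈ Finset.range K, s k := Finset.sum_nonneg fun k hk =>
    (abs_nonneg _).trans (hb k (Finset.mem_range.1 hk) 0)
  calc (∑ x, |J x|) * ∑ k ∈ Finset.range K, s k ≤ (2 * (p : ℝ) ^ 3) * ((2 + 12 * c) * (p : ℝ) ^ 2) :=
        mul_le_mul h1 h4 h5 (by positivity)
    _ = _ := by ring

/-! ### the square -/

/-- the indicator of the square, with multiplicity -/
def sqI (x : St d l) (i j : Fin d) (q : ℕ) : St d l → ℝ := fun z =>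
  ∑ r ∈ Finset.range q, ∑ s ∈ Finset.range q, if z = x + r • eT i + s • eT j then 1 else 0

/-- the indicator of a segment, with multiplicity -/
def sgI (x : St d l) (j : Fin d) (q : ℕ) : St d l → ℝ := fun z =>
  ∑ s ∈ Finset.range q, if z = x + s • eT j then 1 else 0

lemma sqI_swap (x : St d l) (i j : Fin d) (q : ℕ) : sqI x i j q = sqI x j i q := by
  funext z
  unfold sqI
  rw [Finset.sum_comm]
  refine Finset.sum_congr rfl fun s _ => Finset.sum_congr rfl fun r _ => ?_
  rw [add_right_comm]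

lemma sqI_nonneg (x : St d l) (i j : Fin d) (q : ℕ) (z : St d l) : 0 ≤ sqI x i j q z := by
  unfold sqI
  refine Finset.sum_nonneg fun r _ => Finset.sum_nonneg fun s _ => ?_
  split_ifs <;> norm_num

lemma ip2_sqI (x : St d l) (i j : Fin d) (q : ℕ) (F : St d l → ℝ) : ip2 (sqI x i j q) F =
    ∑ r ∈ Finset.range q, ∑ s ∈ Finset.range q, F (x + r • eT i + s • eT j) := by
  unfold ip2 sqI
  simp only [Finset.sum_mul, ite_mul, one_mul, zero_mul]
  rw [Finset.sum_comm]
  refine Finset.sum_congr rfl fun r _ => ?_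
  rw [Finset.sum_comm]
  refine Finset.sum_congr rfl fun s _ => ?_
  rw [Finset.sum_ite_eq' Finset.univ]
  simp

lemma sum_sqI (x : St d l) (i j : Fin d) (q : ℕ) : ∑ z, |sqI x i j q z| = (q : ℝ) ^ 2 := by
  have h1 : ∑ z, |sqI x i j q z| = ip2 (sqI x i j q) (fun _ => 1) := by
    unfold ip2
    refine Finset.sum_congr rfl fun z _ => ?_
    rw [abs_of_nonneg (sqI_nonneg _ _ _ _ _), mul_one]
  rw [h1, ip2_sqI]
  simp [pow_two]

lemma sgI_nonneg (x : St d l) (j : Fin d) (q : ℕ) (z : St d l) : 0 ≤ sgI x j q z := by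
  unfold sgI
  refine Finset.sum_nonneg fun s _ => ?_
  split_ifs <;> norm_num

lemma sum_sgI (x : St d l) (j : Fin d) (q : ℕ) : ∑ z, sgI x j q z = q := by
  unfold sgI
  rw [Finset.sum_comm]
  simp

lemma sgI_le (x : St d l) (j : Fin d) {q : ℕ} (hq : q ≤ l) (z : St d l) : sgI x j q z ≤ 1 := by
  unfold sgI
  rw [← Finset.sum_filter, Finset.sum_const, nsmul_eq_mul, mul_one]
  have h1 : ((Finset.range q).filter fun s : ℕ => z = x + s • eT j).card ≤ 1 := by
    rw [Finset.card_le_one]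
    intro a ha b hb
    rw [Finset.mem_filter, Finset.mem_range] at ha hb
    have h2 : x + a • eT j = x + b • (eT j : St d l) := by rw [← ha.2, ← hb.2]
    have h3 := congrFun (add_left_cancel h2) j
    simp only [Pi.smul_apply, eT, Pi.single_eq_same, nsmul_eq_mul, mul_one] at h3
    rw [ZMod.natCast_eq_natCast_iff'] at h3
    rwa [Nat.mod_eq_of_lt (by omega), Nat.mod_eq_of_lt (by omega)] at h3
  exact_mod_cast h1

lemma Dm_sqI (x : St d l) (i j : Fin d) (q : ℕ) :
    Dm i (sqI x i j q) = sgI (x + q • eT i) j q - sgI x j q := by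
  funext z
  rw [Pi.sub_apply]
  have h1 : sqI x i j q (z - eT i) = ∑ r ∈ Finset.range q, sgI (x + (r + 1) • eT i) j q z := by
    unfold sqI sgI
    refine Finset.sum_congr rfl fun r _ => Finset.sum_congr rfl fun s _ => ?_
    have h2 : (z - eT i = x + r • eT i + s • (eT j : St d l)) ↔
        (z = x + (r + 1) • eT i + s • (eT j : St d l)) := by
      rw [sub_eq_iff_eq_add, add_smul, one_smul]
      have : x + r • eT i + s • eT j + eT i = x + (r • eT i + eT i) + s • (eT j : St d l) := by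
        abel
      rw [this]
    simp only [h2]
  have h2 : sqI x i j q z = ∑ r ∈ Finset.range q, sgI (x + r • eT i) j q z := rfl
  unfold Dm
  rw [h1, h2, ← Finset.sum_sub_distrib]
  have h3 := Finset.sum_range_sub (fun r : ℕ => sgI (x + r • (eT i : St d l)) j q z) q
  rw [h3, zero_smul, add_zero]

lemma Dm_sqI_sup (x : St d l) (i j : Fin d) {q : ℕ} (hq : q ≤ l) (z : St d l) :
    |Dm i (sqI x i j q) z| ≤ 2 := by
  rw [Dm_sqI, Pi.sub_apply, abs_le]
  have h1 := sgI_le (x + q • eT i) j hq z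
  have h2 := sgI_le x j hq z
  have h3 := sgI_nonneg (x + q • eT i) j q z
  have h4 := sgI_nonneg x j q z
  constructor <;> linarith

lemma Dm_sqI_l1 (x : St d l) (i j : Fin d) (q : ℕ) :
    ∑ z, |Dm i (sqI x i j q) z| ≤ 2 * (q : ℝ) := by
  rw [Dm_sqI]
  have h1 : ∀ z : St d l, |(sgI (x + q • eT i) j q - sgI x j q : St d l → ℝ) z| ≤
      sgI (x + q • eT i) j q z + sgI x j q z := fun z => by
    rw [Pi.sub_apply]
    refine (abs_sub _ _).trans ?_
    rw [abs_of_nonneg (sgI_nonneg _ _ _ _), abs_of_nonneg (sgI_nonneg _ _ _ _)]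
  refine (Finset.sum_le_sum fun z _ => h1 z).trans (le_of_eq ?_)
  rw [Finset.sum_add_distrib, sum_sgI, sum_sgI]; ring

/-- the two form of the square -/
def sq2 (x : St d l) (i j : Fin d) (q : ℕ) : Fm d l := fun j' k' =>
  (if j' = i ∧ k' = j then sqI x i j q else 0) - (if j' = j ∧ k' = i then sqI x i j q else 0)

lemma sq2_asy (x : St d l) (i j : Fin d) (q : ℕ) : Asy (sq2 x i j q) := by
  intro j' k'
  unfold sq2
  by_cases h1 : j' = i ∧ k' = j <;> by_cases h2 : j' = j ∧ k' = i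
  · rw [if_pos h1, if_pos h2, if_pos ⟨h2.2, h2.1⟩, if_pos ⟨h1.2, h1.1⟩]; abel
  · rw [if_pos h1, if_neg h2, if_neg (fun h => h2 ⟨h.2, h.1⟩), if_pos ⟨h1.2, h1.1⟩]; abel
  · rw [if_neg h1, if_pos h2, if_pos ⟨h2.2, h2.1⟩, if_neg (fun h => h1 ⟨h.2, h.1⟩)]; abel
  · rw [if_neg h1, if_neg h2, if_neg (fun h => h2 ⟨h.2, h.1⟩), if_neg (fun h => h1 ⟨h.2, h.1⟩)]
    abel

lemma Dm_zero_fun (i : Fin d) : Dm i (0 : St d l → ℝ) = 0 := by
  funext x; simp [Dm]

lemma ds2_sq2 {x : St d l} {i j : Fin d} (hij : i ≠ j) (q : ℕ) (k : Fin d) :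
    ds2 (sq2 x i j q) k = (if k = j then Dm i (sqI x i j q) else 0) +
      (if k = i then Dm j (-sqI x i j q) else 0) := by
  unfold ds2 sq2
  have h1 : ∀ j', Dm j' ((if j' = i ∧ k = j then sqI x i j q else 0) -
      (if j' = j ∧ k = i then sqI x i j q else 0)) =
      (if j' = i then (if k = j then Dm i (sqI x i j q) else 0) else 0) +
      (if j' = j then (if k = i then Dm j (-sqI x i j q) else 0) else 0) := by
    intro j'
    rw [Dm_sub]
    by_cases h1 : j' = i
    · subst h1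
      have h2 : ¬(j' = j) := hij
      by_cases h3 : k = j
      · simp [h3, h2, Dm_zero_fun]
      · simp [h3, h2, Dm_zero_fun]
    · by_cases h2 : j' = j
      · subst h2
        by_cases h3 : k = i
        · simp [h1, h3, Dm_zero_fun, Dm_neg]
        · simp [h1, h3, Dm_zero_fun]
      · simp [h1, h2, Dm_zero_fun]
  rw [Finset.sum_congr rfl fun j' _ => h1 j', Finset.sum_add_distrib, Finset.sum_ite_eq',
    Finset.sum_ite_eq']
  simp

/-- the energy of the square -/
theorem square_energy (hd : 3 ≤ d) : ∀ (K p : ℕ), 1 ≤ p → K ≤ l → p ^ 3 ≤ l →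
    ∀ (x : St d l) (i j : Fin d), i ≠ j →
    ipF (d1 (ds2 fun j' k' => uK K (sq2 x i j (p ^ 3) j' k')))
      (d1 (ds2 fun j' k' => uK K (sq2 x i j (p ^ 3) j' k'))) ≤
      d * ((4 + 24 * (2 + 2 * Real.sqrt (2 * d)) ^ d) * (p : ℝ) ^ 5) := by
  intro K p hp hKl hpl x i j hij
  rw [energy K (sq2_asy _ _ _ _)]
  have hc : ((p ^ 3 : ℕ) : ℝ) = (p : ℝ) ^ 3 := by push_cast; ring
  calc _ ≤ ∑ _k : Fin d, (4 + 24 * (2 + 2 * Real.sqrt (2 * d)) ^ d) * (p : ℝ) ^ 5 := by
        refine Finset.sum_le_sum fun k _ => ?_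
        refine current_le hd hp hKl ?_ ?_
        · rw [ds2_sq2 hij]
          by_cases hkj : k = j
          · have hki : ¬(k = i) := fun h => hij (h.symm.trans hkj)
            rw [if_pos hkj, if_neg hki, add_zero, ← hc]
            exact Dm_sqI_l1 _ _ _ _
          · by_cases hki : k = i
            · rw [if_neg hkj, if_pos hki, zero_add, Dm_neg, sqI_swap, ← hc]
              refine le_trans (le_of_eq ?_) (Dm_sqI_l1 x j i (p ^ 3))
              exact Finset.sum_congr rfl fun z _ => by rw [Pi.neg_apply, abs_neg]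
            · rw [if_neg hkj, if_neg hki, add_zero]
              simp
        · intro z
          rw [ds2_sq2 hij]
          by_cases hkj : k = j
          · have hki : ¬(k = i) := fun h => hij (h.symm.trans hkj)
            rw [if_pos hkj, if_neg hki, add_zero]
            exact Dm_sqI_sup _ _ _ hpl _
          · by_cases hki : k = i
            · rw [if_neg hkj, if_pos hki, zero_add, Dm_neg, sqI_swap, Pi.neg_apply, abs_neg]
              exact Dm_sqI_sup _ _ _ hpl _
            · rw [if_neg hkj, if_neg hki, add_zero]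
              simp
    _ = _ := by simp

end

end Pool.Agent.TH618.YM
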