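import Mathlib
import Pool.Agent.W793.YM.Lat2
import Pool.Agent.W793.YM.Rebase
import Pool.Agent.TH618.YM.Form

/-!
# The energy of the current around a rectangle
-/

open Pool.Agent.H906R3.YM hiding Pl
open Pool.Agent.W793.YM

namespace Pool.Agent.TH618.YM

set_option linter.unusedSectionVars false
set_option linter.unusedVariables false

noncomputable section

variable {d l n : ℕ} [NeZero l]

/-! ### Fourier analysis -/

/-- the Fourier transform -/
def fh (f : St d l → ℝ) (ξ : St d l) : ℂ := ∑ x, (f x : ℂ) * ch ξ x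

lemma ch_sub (ξ x y : St d l) : ch ξ (x - y) = ch ξ x * (starRingEnd ℂ) (ch ξ y) := by
  unfold ch
  rw [map_prod, ← Finset.prod_mul_distrib]
  refine Finset.prod_congr rfl fun i _ => ?_
  rw [Pi.sub_apply, mul_sub, sub_eq_add_neg, chi_add, ← chi_neg]

lemma ip2_Plk_eq (hd : 0 < d) (k : ℕ) (f g : St d l → ℝ) : ((ip2 g (Plk k f) : ℝ) : ℂ) =
    (1 / (l : ℂ) ^ d) * ∑ ξ : St d l, ((lm ξ ^ k : ℝ) : ℂ) *
      (fh g ξ * (starRingEnd ℂ) (fh f ξ)) := by
  unfold ip2
  push_cast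
  have h1 : ∀ x : St d l, (g x : ℂ) * ((Plk k f x : ℝ) : ℂ) = (1 / (l : ℂ) ^ d) *
      ∑ ξ : St d l, ((lm ξ ^ k : ℝ) : ℂ) * ((g x : ℂ) * ch ξ x *
        (starRingEnd ℂ) (fh f ξ)) := by
    intro x
    rw [Plk_eq hd, ← mul_assoc, mul_comm (g x : ℂ), mul_assoc, Finset.mul_sum]
    congr 1
    refine Finset.sum_congr rfl fun ξ _ => ?_
    have h2 : ∑ y, (f y : ℂ) * ch ξ (x - y) = ch ξ x * (starRingEnd ℂ) (fh f ξ) := by
      unfold fh
      rw [map_sum, Finset.mul_sum]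
      refine Finset.sum_congr rfl fun y _ => ?_
      rw [ch_sub, map_mul, Complex.conj_ofReal]
      ring
    rw [h2]; ring
  simp only [h1]
  rw [← Finset.mul_sum, Finset.sum_comm]
  congr 1
  refine Finset.sum_congr rfl fun ξ _ => ?_
  rw [← Finset.mul_sum, ← Finset.sum_mul]
  push_cast
  rfl

lemma Plk_symm (hd : 0 < d) (k : ℕ) (f g : St d l → ℝ) :
    ip2 g (Plk k f) = ip2 (Plk k g) f := by
  have h1 := ip2_Plk_eq hd k f g
  have h2 := ip2_Plk_eq hd k g f
  have h3 : ((ip2 f (Plk k g) : ℝ) : ℂ) = ((ip2 g (Plk k f) : ℝ) : ℂ) := by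
    have h4 := congrArg (starRingEnd ℂ) h2
    rw [Complex.conj_ofReal] at h4
    rw [h4, h1, map_mul, map_sum]
    have e1 : (starRingEnd ℂ) (1 / (l : ℂ) ^ d) = 1 / (l : ℂ) ^ d := by
      rw [map_div₀, map_one, map_pow, Complex.conj_natCast]
    rw [e1]
    congr 1
    refine Finset.sum_congr rfl fun ξ _ => ?_
    rw [map_mul, Complex.conj_ofReal, map_mul, Complex.conj_conj]
    ring
  have h5 : ip2 f (Plk k g) = ip2 g (Plk k f) := by exact_mod_cast h3
  rw [← h5, ip2_comm]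

/-- Parseval's formula -/
lemma ip2_Plk_self (hd : 0 < d) (k : ℕ) (f : St d l → ℝ) : ip2 f (Plk k f) =
    (1 / (l : ℝ) ^ d) * ∑ ξ : St d l, lm ξ ^ k * ‖fh f ξ‖ ^ 2 := by
  have h1 := ip2_Plk_eq hd k f f
  have h2 : ((ip2 f (Plk k f) : ℝ) : ℂ) = (((1 / (l : ℝ) ^ d) * ∑ ξ : St d l, lm ξ ^ k *
      ‖fh f ξ‖ ^ 2 : ℝ) : ℂ) := by
    rw [h1]
    push_cast
    congr 1
    refine Finset.sum_congr rfl fun ξ _ => ?_
    rw [Complex.mul_conj, Complex.normSq_eq_norm_sq]
    push_cast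
    rfl
  exact_mod_cast h2

lemma Plk_Plk (a b : ℕ) (f : St d l → ℝ) : Plk a (Plk b f) = Plk (a + b) f := by
  unfold Plk
  rw [← Function.iterate_add_apply]

lemma ip2_Plk_nonneg (hd : 0 < d) (k : ℕ) (f : St d l → ℝ) : 0 ≤ ip2 f (Plk k f) := by
  rw [ip2_Plk_self hd]
  refine mul_nonneg (by positivity) (Finset.sum_nonneg fun ξ _ => ?_)
  exact mul_nonneg (pow_nonneg (lm_nonneg hd ξ) _) (by positivity)

lemma ip2_smul_right (c : ℝ) (f g : St d l → ℝ) : ip2 f (c • g) = c * ip2 f g := by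
  rw [ip2_comm, ip2_smul_left, ip2_comm]

/-- the truncated Green function in a current -/
lemma ip2_uK (hd : 0 < d) (K : ℕ) (f : St d l → ℝ) : ip2 f (uK K f) =
    ∑ k ∈ Finset.range K, (1 / (4 * d) : ℝ) * ip2 f (Plk k f) := by
  unfold uK
  rw [ip2_smul_right, ip2_sum_right, Finset.mul_sum]

lemma ip2_Plk_uK_nonneg (hd : 0 < d) (K : ℕ) (f : St d l → ℝ) : 0 ≤ ip2 (Plk K f) (uK K f) := by
  unfold uK
  rw [ip2_smul_right, ip2_sum_right]
  refine mul_nonneg (by positivity) (Finset.sum_nonneg fun k _ => ?_)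
  rw [← Plk_symm hd, Plk_Plk]
  exact ip2_Plk_nonneg hd _ _

lemma energy_le2 (hd : 0 < d) (K : ℕ) (J : St d l → ℝ) :
    ip2 J (uK K J) - ip2 (Plk K J) (uK K J) ≤
      ∑ k ∈ Finset.range K, (1 / (4 * d) : ℝ) * ip2 J (Plk k J) := by
  have h1 := ip2_Plk_uK_nonneg hd K J
  rw [← ip2_uK hd]
  linarith

/-! ### the segment -/

/-- the sum of the characters over a segment -/
def dk (T : ℕ) (t : ZMod l) : ℂ := ∑ s ∈ Finset.range T, chi (t * (s : ZMod l))

lemma ch_smul_eT (ξ : St d l) (j : Fin d) (s : ℕ) : ch ξ (s • eT j) = chi (ξ j * (s : ZMod l)) := by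
  unfold ch eT
  rw [Finset.prod_eq_single j]
  · rw [Pi.smul_apply, Pi.single_eq_same, nsmul_eq_mul, mul_one]
  · intro k _ hk
    rw [Pi.smul_apply, Pi.single_eq_of_ne hk, smul_zero, mul_zero]
    exact AddChar.map_zero_eq_one _
  · intro h; exact absurd (Finset.mem_univ _) h

lemma fh_sub (f g : St d l → ℝ) (ξ : St d l) : fh (f - g) ξ = fh f ξ - fh g ξ := by
  unfold fh
  rw [← Finset.sum_sub_distrib]
  refine Finset.sum_congr rfl fun x _ => ?_
  rw [Pi.sub_apply]; push_cast; ring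

lemma fh_sgI (x : St d l) (j : Fin d) (T : ℕ) (ξ : St d l) :
    fh (sgI x j T) ξ = ch ξ x * dk T (ξ j) := by
  unfold fh sgI dk
  push_cast
  simp only [Finset.sum_mul]
  rw [Finset.sum_comm, Finset.mul_sum]
  refine Finset.sum_congr rfl fun s _ => ?_
  rw [Finset.sum_eq_single (x + s • eT j)]
  · rw [if_pos rfl, ch_add, ch_smul_eT]; simp
  · intro y _ hy
    rw [if_neg hy]; simp
  · intro h; exact absurd (Finset.mem_univ _) h

lemma norm_chi_sub_one (t : ZMod l) : ‖chi t - 1‖ ^ 2 = 2 * (1 - (chi t).re) := by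
  have h1 := chi_norm t
  rw [← Complex.normSq_eq_norm_sq, Complex.normSq_apply]
  have h2 : (chi t).re * (chi t).re + (chi t).im * (chi t).im = 1 := by
    rw [← Complex.normSq_apply, Complex.normSq_eq_norm_sq, h1]; norm_num
  simp only [Complex.sub_re, Complex.sub_im, Complex.one_re, Complex.one_im, sub_zero]
  linarith

/-- the difference of two parallel segments -/
lemma fh_two (x : St d l) (i j : Fin d) (R T : ℕ) (ξ : St d l) :
    ‖fh (sgI (x + R • eT i) j T - sgI x j T) ξ‖ ^ 2 =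
      2 * (1 - (chi (ξ i * (R : ZMod l))).re) * ‖dk T (ξ j)‖ ^ 2 := by
  rw [fh_sub, fh_sgI, fh_sgI, ch_add, ch_smul_eT]
  have e : ch ξ x * chi (ξ i * (R : ZMod l)) * dk T (ξ j) - ch ξ x * dk T (ξ j) =
      ch ξ x * ((chi (ξ i * (R : ZMod l)) - 1) * dk T (ξ j)) := by ring
  rw [e, norm_mul, ch_norm, one_mul, norm_mul, mul_pow, norm_chi_sub_one]

lemma sum_chi_mul (u : ZMod l) : ∑ t : ZMod l, chi (t * u) = if u = 0 then (l : ℂ) else 0 := by
  unfold chi
  have := AddChar.sum_mulShift (R' := ℂ) u (ZMod.isPrimitive_stdAddChar l)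
  rw [ZMod.card] at this
  rw [this]
  split_ifs <;> simp

/-- the mean of the Fejer kernel -/
lemma sum_dk {T : ℕ} (hT : T ≤ l) : ∑ t : ZMod l, ‖dk T t‖ ^ 2 = (l : ℝ) * T := by
  have h1 : ∀ t : ZMod l, ((‖dk T t‖ ^ 2 : ℝ) : ℂ) =
      ∑ s ∈ Finset.range T, ∑ s' ∈ Finset.range T, chi (t * ((s : ZMod l) - (s' : ZMod l))) := by
    intro t
    rw [← Complex.normSq_eq_norm_sq, ← Complex.mul_conj]
    unfold dk
    rw [map_sum, Finset.sum_mul]
    refine Finset.sum_congr rfl fun s _ => ?_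
    rw [Finset.mul_sum]
    refine Finset.sum_congr rfl fun s' _ => ?_
    rw [← chi_neg, ← chi_add]
    congr 1; ring
  have h2 : ((∑ t : ZMod l, ‖dk T t‖ ^ 2 : ℝ) : ℂ) = (((l : ℝ) * T : ℝ) : ℂ) := by
    push_cast
    have h1' : ∀ t : ZMod l, ((‖dk T t‖ : ℂ)) ^ 2 =
      ∑ s ∈ Finset.range T, ∑ s' ∈ Finset.range T, chi (t * ((s : ZMod l) - (s' : ZMod l))) := by
      intro t; rw [← h1]; push_cast; rfl
    simp only [h1']
    rw [Finset.sum_comm]
    have h3 : ∀ s ∈ Finset.range T, ∑ t : ZMod l, ∑ s' ∈ Finset.range T,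
        chi (t * ((s : ZMod l) - (s' : ZMod l))) = l := by
      intro s hs
      rw [Finset.sum_comm]
      simp only [sum_chi_mul]
      rw [Finset.sum_eq_single s]
      · rw [if_pos (sub_self _)]
      · intro s' hs' hne
        rw [if_neg]
        intro h0
        rw [sub_eq_zero, ZMod.natCast_eq_natCast_iff'] at h0
        rw [Finset.mem_range] at hs hs'
        rw [Nat.mod_eq_of_lt (by omega), Nat.mod_eq_of_lt (by omega)] at h0
        exact hne h0.symm
      · intro h; exact absurd hs h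
    rw [Finset.sum_congr rfl h3]
    simp [mul_comm]
  exact_mod_cast h2

/-- separation of one coordinate -/
lemma sum_split (j : Fin d) (Ψ : ZMod l → ℝ) {Φ : St d l → ℝ}
    (hΦ : ∀ (ξ : St d l) (c : ZMod l), Φ (ξ + (Pi.single j c : St d l)) = Φ ξ) :
    ∑ ξ : St d l, Ψ (ξ j) * Φ ξ = (1 / (l : ℝ)) * (∑ t, Ψ t) * ∑ ξ, Φ ξ := by
  have hl : (l : ℝ) ≠ 0 := by exact_mod_cast NeZero.ne l
  have h1 : ∀ c : ZMod l, ∑ ξ : St d l, Ψ (ξ j) * Φ ξ = ∑ ξ : St d l, Ψ (ξ j + c) * Φ ξ := by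
    intro c
    rw [← Equiv.sum_comp (Equiv.addRight (Pi.single j c : St d l))]
    refine Finset.sum_congr rfl fun ξ _ => ?_
    show Ψ ((ξ + (Pi.single j c : St d l)) j) * Φ (ξ + (Pi.single j c : St d l)) = _
    rw [hΦ, Pi.add_apply, Pi.single_eq_same]
  have h2 : (l : ℝ) * ∑ ξ : St d l, Ψ (ξ j) * Φ ξ = (∑ t, Ψ t) * ∑ ξ, Φ ξ := by
    have h3 : ∑ c : ZMod l, ∑ ξ : St d l, Ψ (ξ j) * Φ ξ =
        ∑ c : ZMod l, ∑ ξ : St d l, Ψ (ξ j + c) * Φ ξ :=
      Finset.sum_congr rfl fun c _ => h1 c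
    rw [Finset.sum_const, Finset.card_univ, ZMod.card, nsmul_eq_mul] at h3
    rw [h3, Finset.sum_comm, Finset.mul_sum]
    refine Finset.sum_congr rfl fun ξ _ => ?_
    rw [← Finset.sum_mul]
    congr 1
    exact Equiv.sum_comp (Equiv.addLeft (ξ j)) Ψ
  calc ∑ ξ : St d l, Ψ (ξ j) * Φ ξ = (1 / (l : ℝ)) * ((l : ℝ) * ∑ ξ : St d l, Ψ (ξ j) * Φ ξ) := by
        field_simp
    _ = _ := by rw [h2]; ring

/-! ### the symbol -/

/-- the symbol of the Laplacian orthogonal to the direction `j` -/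
def sj (j : Fin d) (ξ : St d l) : ℝ := ∑ k, if k = j then 0 else 2 * (1 - (chi (ξ k)).re)

lemma chi_re_le (t : ZMod l) : (chi t).re ≤ 1 := by
  have h := Complex.abs_re_le_norm (chi t)
  rw [chi_norm] at h
  exact (abs_le.1 h).2

lemma neg_le_chi_re (t : ZMod l) : -1 ≤ (chi t).re := by
  have h := Complex.abs_re_le_norm (chi t)
  rw [chi_norm] at h
  exact (abs_le.1 h).1

lemma sj_nonneg (j : Fin d) (ξ : St d l) : 0 ≤ sj j ξ := by
  unfold sj
  refine Finset.sum_nonneg fun k _ => ?_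
  split_ifs
  · exact le_rfl
  · have := chi_re_le (ξ k); linarith

lemma sj_add (j : Fin d) (ξ : St d l) (c : ZMod l) : sj j (ξ + (Pi.single j c : St d l)) = sj j ξ := by
  unfold sj
  refine Finset.sum_congr rfl fun k _ => ?_
  split_ifs with h
  · rfl
  · rw [Pi.add_apply, Pi.single_eq_of_ne h, add_zero]

lemma lm_le_sj (hd : 0 < d) (j : Fin d) (ξ : St d l) : lm ξ ≤ 1 - sj j ξ / (4 * d) := by
  have hd0 : (0 : ℝ) < d := by exact_mod_cast hd
  have h1 : ∑ i, (1 - (chi (ξ i)).re) = d - ∑ i, (chi (ξ i)).re := by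
    rw [Finset.sum_sub_distrib]; simp
  have h2 : sj j ξ ≤ 2 * ∑ i, (1 - (chi (ξ i)).re) := by
    unfold sj
    rw [Finset.mul_sum]
    refine Finset.sum_le_sum fun k _ => ?_
    split_ifs
    · have := chi_re_le (ξ k); linarith
    · exact le_rfl
  have h3 : lm ξ = 1 - (2 * ∑ i, (1 - (chi (ξ i)).re)) / (4 * d) := by
    unfold lm
    rw [h1]
    field_simp
    ring
  rw [h3]
  have h4 : sj j ξ / (4 * d) ≤ (2 * ∑ i, (1 - (chi (ξ i)).re)) / (4 * d) :=
    div_le_div_of_nonneg_right h2 (by positivity)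
  linarith

lemma chi_eq_one {t : ZMod l} (h : (chi t).re = 1) : chi t = 1 := by
  have h1 := chi_norm t
  have h2 : (chi t).re * (chi t).re + (chi t).im * (chi t).im = 1 := by
    rw [← Complex.normSq_apply, Complex.normSq_eq_norm_sq, h1]; norm_num
  rw [h] at h2
  have h3 : (chi t).im = 0 := by nlinarith
  exact Complex.ext (by rw [h]; rfl) (by rw [h3]; rfl)

lemma chi_mul_nat (t : ZMod l) (R : ℕ) : chi (t * (R : ZMod l)) = chi t ^ R := by
  induction R with
  | zero => rw [Nat.cast_zero, mul_zero, pow_zero]; exact AddChar.map_zero_eq_one _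
  | succ R ih =>
    rw [Nat.cast_succ, mul_add, mul_one, chi_add, ih, pow_succ]

/-- the numerator vanishes with the denominator -/
lemma num_zero {i j : Fin d} (hij : i ≠ j) {ξ : St d l} (h : sj j ξ = 0) (R : ℕ) :
    (chi (ξ i * (R : ZMod l))).re = 1 := by
  have h1 : ∀ k ∈ (Finset.univ : Finset (Fin d)),
      0 ≤ (if k = j then 0 else 2 * (1 - (chi (ξ k)).re)) := by
    intro k _
    split_ifs
    · exact le_rfl
    · have := chi_re_le (ξ k); linarith
  have h2 := (Finset.sum_eq_zero_iff_of_nonneg h1).1 h i (Finset.mem_univ i)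
  rw [if_neg hij] at h2
  have h3 : chi (ξ i) = 1 := chi_eq_one (by linarith)
  rw [chi_mul_nat, h3, one_pow]
  rfl

/-- the Coulomb potential of the periodic lattice of `d - 1` dimensions -/
def gl (l : ℕ) [NeZero l] (i j : Fin d) (R : ℕ) : ℝ :=
  (1 / (l : ℝ) ^ d) * ∑ ξ : St d l, (1 - (chi (ξ i * (R : ZMod l))).re) / sj j ξ

lemma gl_nonneg (i j : Fin d) (R : ℕ) : 0 ≤ gl l i j R := by
  unfold gl
  refine mul_nonneg (by positivity) (Finset.sum_nonneg fun ξ _ => ?_)
  have := chi_re_le (ξ i * (R : ZMod l))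
  exact div_nonneg (by linarith) (sj_nonneg j ξ)

/-- the energy of two parallel segments -/
theorem seg_energy (hd : 0 < d) (K : ℕ) (x : St d l) {i j : Fin d} (hij : i ≠ j) (R : ℕ) {T : ℕ}
    (hT : T ≤ l) :
    ∑ k ∈ Finset.range K, (1 / (4 * d) : ℝ) * ip2 (sgI (x + R • eT i) j T - sgI x j T)
      (Plk k (sgI (x + R • eT i) j T - sgI x j T)) ≤ 2 * T * gl l i j R := by
  have hd0 : (0 : ℝ) < d := by exact_mod_cast hd
  have hl : (l : ℝ) ≠ 0 := by exact_mod_cast NeZero.ne l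
  simp only [ip2_Plk_self hd, fh_two]
  have h1 : ∑ k ∈ Finset.range K, (1 / (4 * d) : ℝ) * ((1 / (l : ℝ) ^ d) * ∑ ξ : St d l,
      lm ξ ^ k * (2 * (1 - (chi (ξ i * (R : ZMod l))).re) * ‖dk T (ξ j)‖ ^ 2)) =
      (1 / (l : ℝ) ^ d) * ∑ ξ : St d l, ‖dk T (ξ j)‖ ^ 2 * (2 * (1 - (chi (ξ i * (R : ZMod l))).re) *
        ((1 / (4 * d) : ℝ) * ∑ k ∈ Finset.range K, lm ξ ^ k)) := by
    rw [Finset.mul_sum]
    simp only [Finset.mul_sum]
    rw [Finset.sum_comm]
    refine Finset.sum_congr rfl fun ξ _ => Finset.sum_congr rfl fun k _ => ?_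
    ring
  rw [h1]
  have h2 : ∀ ξ : St d l, 2 * (1 - (chi (ξ i * (R : ZMod l))).re) *
      ((1 / (4 * d) : ℝ) * ∑ k ∈ Finset.range K, lm ξ ^ k) ≤
      2 * ((1 - (chi (ξ i * (R : ZMod l))).re) / sj j ξ) := by
    intro ξ
    rcases (sj_nonneg j ξ).eq_or_lt with h | h
    · rw [num_zero hij h.symm]
      simp
    · have h3 : ∑ k ∈ Finset.range K, lm ξ ^ k ≤ 4 * d / sj j ξ := by
        have h4 : lm ξ ≤ 1 - sj j ξ / (4 * d) := lm_le_sj hd j ξ
        have h5 : 0 < sj j ξ / (4 * d) := by positivity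
        have h6 : lm ξ < 1 := by linarith
        have h7 := mul_neg_geom_sum (lm ξ) K
        have h7' : 0 ≤ lm ξ ^ K := pow_nonneg (lm_nonneg hd ξ) _
        have h70 : 0 ≤ ∑ k ∈ Finset.range K, lm ξ ^ k :=
          Finset.sum_nonneg fun k _ => pow_nonneg (lm_nonneg hd ξ) _
        rw [le_div_iff₀ h]
        have h8 : sj j ξ = 4 * d * (sj j ξ / (4 * d)) := by field_simp
        have h9 : (sj j ξ / (4 * d)) * ∑ k ∈ Finset.range K, lm ξ ^ k ≤ 1 := by
          calc (sj j ξ / (4 * d)) * ∑ k ∈ Finset.range K, lm ξ ^ k ≤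
              (1 - lm ξ) * ∑ k ∈ Finset.range K, lm ξ ^ k :=
                mul_le_mul_of_nonneg_right (by linarith) h70
            _ ≤ 1 := by linarith
        calc (∑ k ∈ Finset.range K, lm ξ ^ k) * sj j ξ =
            4 * d * ((sj j ξ / (4 * d)) * ∑ k ∈ Finset.range K, lm ξ ^ k) := by
              conv_lhs => rw [h8]
              ring
          _ ≤ 4 * d * 1 := mul_le_mul_of_nonneg_left h9 (by positivity)
          _ = _ := mul_one _
      have h9 : 0 ≤ 2 * (1 - (chi (ξ i * (R : ZMod l))).re) := by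
        have := chi_re_le (ξ i * (R : ZMod l)); linarith
      calc 2 * (1 - (chi (ξ i * (R : ZMod l))).re) * ((1 / (4 * d) : ℝ) * ∑ k ∈ Finset.range K, lm ξ ^ k) ≤
          2 * (1 - (chi (ξ i * (R : ZMod l))).re) * ((1 / (4 * d) : ℝ) * (4 * d / sj j ξ)) := by gcongr
        _ = _ := by field_simp
  calc (1 / (l : ℝ) ^ d) * ∑ ξ : St d l, ‖dk T (ξ j)‖ ^ 2 * (2 * (1 - (chi (ξ i * (R : ZMod l))).re) *
        ((1 / (4 * d) : ℝ) * ∑ k ∈ Finset.range K, lm ξ ^ k)) ≤
      (1 / (l : ℝ) ^ d) * ∑ ξ : St d l, ‖dk T (ξ j)‖ ^ 2 *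
        (2 * ((1 - (chi (ξ i * (R : ZMod l))).re) / sj j ξ)) := by
        refine mul_le_mul_of_nonneg_left (Finset.sum_le_sum fun ξ _ => ?_) (by positivity)
        exact mul_le_mul_of_nonneg_left (h2 ξ) (by positivity)
    _ = (1 / (l : ℝ) ^ d) * ((1 / (l : ℝ)) * (l * T) *
        ∑ ξ : St d l, 2 * ((1 - (chi (ξ i * (R : ZMod l))).re) / sj j ξ)) := by
        rw [sum_split j (fun t => ‖dk T t‖ ^ 2)
          (Φ := fun ξ => 2 * ((1 - (chi (ξ i * (R : ZMod l))).re) / sj j ξ)), sum_dk hT]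
        intro ξ c
        rw [sj_add, Pi.add_apply, Pi.single_eq_of_ne hij, add_zero]
    _ = _ := by
        unfold gl
        rw [← Finset.mul_sum]
        field_simp

/-- the crude bound -/
theorem seg_energy2 (hd : 3 ≤ d) {K : ℕ} (hKl : K ≤ l) (x : St d l) {i j : Fin d}
    (hij : i ≠ j) (R : ℕ) {T : ℕ} (hT : T ≤ l) :
    ∑ k ∈ Finset.range K, (1 / (4 * d) : ℝ) * ip2 (sgI (x + R • eT i) j T - sgI x j T)
      (Plk k (sgI (x + R • eT i) j T - sgI x j T)) ≤
        T * (1 + (2 + 2 * Real.sqrt (2 * d)) ^ (d - 1) * ∑ k ∈ Finset.Ico 1 K, 1 / (k : ℝ)) := by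
  have hd0 : (0 : ℝ) < d := by exact_mod_cast (by omega : 0 < d)
  have hd1 : (1 : ℝ) ≤ d := by exact_mod_cast (by omega : 1 ≤ d)
  have hl0 : (0 : ℝ) < l := by
    have : 0 < l := Nat.pos_of_ne_zero (NeZero.ne l)
    exact_mod_cast this
  have hl : (l : ℝ) ≠ 0 := hl0.ne'
  obtain ⟨c0, hc0⟩ : ∃ c0 : ℝ, c0 = (2 + 2 * Real.sqrt (2 * d)) ^ (d - 1) := ⟨_, rfl⟩
  rw [← hc0]
  have hc00 : 0 ≤ c0 := by rw [hc0]; positivity
  -- one term
  have key : ∀ (k : ℕ) (B : ℝ), (1 / (l : ℝ) ^ d) * ∑ ξ : St d l, (1 - sj j ξ / (4 * d)) ^ k ≤ B →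
      ip2 (sgI (x + R • eT i) j T - sgI x j T)
        (Plk k (sgI (x + R • eT i) j T - sgI x j T)) ≤ 4 * T * B := by
    intro k B hB
    rw [ip2_Plk_self (by omega)]
    simp only [fh_two]
    calc (1 / (l : ℝ) ^ d) * ∑ ξ : St d l, lm ξ ^ k * (2 * (1 - (chi (ξ i * (R : ZMod l))).re) *
          ‖dk T (ξ j)‖ ^ 2) ≤ (1 / (l : ℝ) ^ d) * ∑ ξ : St d l, ‖dk T (ξ j)‖ ^ 2 *
            (4 * (1 - sj j ξ / (4 * d)) ^ k) := by
          refine mul_le_mul_of_nonneg_left (Finset.sum_le_sum fun ξ _ => ?_) (by positivity)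
          have h1 := lm_le_sj (by omega) j ξ
          have h2 := lm_nonneg (l := l) (by omega : 0 < d) ξ
          have h3 : lm ξ ^ k ≤ (1 - sj j ξ / (4 * d)) ^ k := pow_le_pow_left₀ h2 h1 k
          have h4 : 2 * (1 - (chi (ξ i * (R : ZMod l))).re) ≤ 4 := by
            have := neg_le_chi_re (ξ i * (R : ZMod l)); linarith
          have h5 : 0 ≤ 2 * (1 - (chi (ξ i * (R : ZMod l))).re) := by
            have := chi_re_le (ξ i * (R : ZMod l)); linarith
          calc lm ξ ^ k * (2 * (1 - (chi (ξ i * (R : ZMod l))).re) * ‖dk T (ξ j)‖ ^ 2) ≤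
              (1 - sj j ξ / (4 * d)) ^ k * (4 * ‖dk T (ξ j)‖ ^ 2) := by
                refine mul_le_mul h3 ?_ (by positivity) ((pow_nonneg h2 k).trans h3)
                exact mul_le_mul_of_nonneg_right h4 (by positivity)
            _ = _ := by ring
      _ = (1 / (l : ℝ) ^ d) * ((1 / (l : ℝ)) * (l * T) *
          ∑ ξ : St d l, 4 * (1 - sj j ξ / (4 * d)) ^ k) := by
          rw [sum_split j (fun t => ‖dk T t‖ ^ 2)
            (Φ := fun ξ => 4 * (1 - sj j ξ / (4 * d)) ^ k), sum_dk hT]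
          intro ξ c
          rw [sj_add]
      _ = 4 * T * ((1 / (l : ℝ) ^ d) * ∑ ξ : St d l, (1 - sj j ξ / (4 * d)) ^ k) := by
          rw [← Finset.mul_sum]
          field_simp
      _ ≤ _ := mul_le_mul_of_nonneg_left hB (by positivity)
  have hbase : ∀ ξ : St d l, 0 ≤ 1 - sj j ξ / (4 * d) := fun ξ =>
    (lm_nonneg (l := l) (by omega : 0 < d) ξ).trans (lm_le_sj (by omega) j ξ)
  have hk0 : (1 / (l : ℝ) ^ d) * ∑ ξ : St d l, (1 - sj j ξ / (4 * d)) ^ 0 ≤ 1 := by
    simp only [pow_zero, Finset.sum_const, Finset.card_univ, Fintype.card_fun, ZMod.card,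
      Fintype.card_fin, nsmul_eq_mul, mul_one]
    push_cast
    rw [one_div, inv_mul_cancel₀ (by positivity)]
  have hk1 : ∀ k : ℕ, 1 ≤ k → k ≤ l →
      (1 / (l : ℝ) ^ d) * ∑ ξ : St d l, (1 - sj j ξ / (4 * d)) ^ k ≤ c0 * (1 / (k : ℝ)) := by
    intro k hk hkl
    have hkR : (1 : ℝ) ≤ k := by exact_mod_cast hk
    obtain ⟨c, hc⟩ : ∃ c : ℝ, c = k / (2 * d) := ⟨_, rfl⟩
    have hcpos : 0 < c := by rw [hc]; positivity
    obtain ⟨S, hS⟩ : ∃ S : ℝ, S = ∑ t : ZMod l, Real.exp (-(c * (1 - (chi t).re))) := ⟨_, rfl⟩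
    have hS0 : 0 ≤ S := by rw [hS]; exact Finset.sum_nonneg fun t _ => (Real.exp_pos _).le
    have e1 : ∀ ξ : St d l, (1 - sj j ξ / (4 * d)) ^ k ≤
        ∏ k', (if k' = j then 1 else Real.exp (-(c * (1 - (chi (ξ k')).re)))) := by
      intro ξ
      have h1 : 1 - sj j ξ / (4 * d) ≤ Real.exp (-(sj j ξ / (4 * d))) := by
        have := Real.add_one_le_exp (-(sj j ξ / (4 * d)))
        linarith
      refine (pow_le_pow_left₀ (hbase ξ) h1 k).trans (le_of_eq ?_)
      rw [← Real.exp_nat_mul]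
      have h2 : ∀ k' : Fin d, (if k' = j then 1 else Real.exp (-(c * (1 - (chi (ξ k')).re)))) =
          Real.exp (-(c * (if k' = j then 0 else (1 - (chi (ξ k')).re)))) := by
        intro k'
        split_ifs <;> simp
      simp only [h2]
      rw [← Real.exp_sum]
      congr 1
      rw [Finset.sum_neg_distrib, ← Finset.mul_sum, hc]
      unfold sj
      have h3 : ∑ k' : Fin d, (if k' = j then 0 else 2 * (1 - (chi (ξ k')).re)) =
          2 * ∑ k' : Fin d, (if k' = j then 0 else (1 - (chi (ξ k')).re)) := by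
        rw [Finset.mul_sum]
        refine Finset.sum_congr rfl fun k' _ => ?_
        split_ifs <;> simp
      rw [h3]
      field_simp
      ring
    have e2 : ∑ ξ : St d l, ∏ k', (if k' = j then 1 else
        Real.exp (-(c * (1 - (chi (ξ k')).re)))) = l * S ^ (d - 1) := by
      have e3 := Finset.prod_univ_sum (fun _ : Fin d => (Finset.univ : Finset (ZMod l)))
        (fun k' t => if k' = j then 1 else Real.exp (-(c * (1 - (chi t).re))))
      rw [Fintype.piFinset_univ] at e3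
      rw [← e3, ← Finset.mul_prod_erase _ _ (Finset.mem_univ j)]
      congr 1
      · simp
      · have e4 : ∀ k' ∈ Finset.univ.erase j, ∑ t : ZMod l, (if k' = j then 1 else
            Real.exp (-(c * (1 - (chi t).re)))) = S := by
          intro k' hk'
          rw [hS]
          refine Finset.sum_congr rfl fun t _ => ?_
          rw [if_neg (Finset.ne_of_mem_erase hk')]
        rw [Finset.prod_congr rfl e4, Finset.prod_const, Finset.card_erase_of_mem
          (Finset.mem_univ j), Finset.card_univ, Fintype.card_fin]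
    have e5 := sum_one (l := l) hcpos
    rw [← hS] at e5
    have e6 : 2 / (l : ℝ) + 2 / Real.sqrt c ≤ (2 + 2 * Real.sqrt (2 * d)) / Real.sqrt k := by
      have f1 : 2 / Real.sqrt c = 2 * Real.sqrt (2 * d) / Real.sqrt k := by
        rw [hc, Real.sqrt_div (by linarith)]
        field_simp
      have f2 : 2 / (l : ℝ) ≤ 2 / Real.sqrt k := by
        refine div_le_div_of_nonneg_left (by norm_num) (Real.sqrt_pos.2 (by linarith)) ?_
        have g1 : Real.sqrt k ≤ k := by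
          rw [Real.sqrt_le_left (by linarith)]
          nlinarith
        have g2 : (k : ℝ) ≤ l := by exact_mod_cast hkl
        linarith
      rw [f1, add_div]
      linarith
    have hsk : 1 ≤ Real.sqrt k := by rw [Real.one_le_sqrt]; exact hkR
    calc (1 / (l : ℝ) ^ d) * ∑ ξ : St d l, (1 - sj j ξ / (4 * d)) ^ k ≤
        (1 / (l : ℝ) ^ d) * (l * S ^ (d - 1)) := by
          rw [← e2]
          exact mul_le_mul_of_nonneg_left (Finset.sum_le_sum fun ξ _ => e1 ξ) (by positivity)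
      _ = ((1 / l : ℝ) * S) ^ (d - 1) := by
          rw [mul_pow]
          obtain ⟨e, rfl⟩ : ∃ e, d = e + 1 := ⟨d - 1, by omega⟩
          rw [Nat.add_sub_cancel, pow_succ, div_pow, one_pow]
          field_simp
      _ ≤ ((2 + 2 * Real.sqrt (2 * d)) / Real.sqrt k) ^ (d - 1) :=
          pow_le_pow_left₀ (by positivity) (e5.trans e6) _
      _ = c0 * (1 / Real.sqrt k ^ (d - 1)) := by rw [div_pow, hc0]; ring
      _ ≤ c0 * (1 / (k : ℝ)) := by
          refine mul_le_mul_of_nonneg_left ?_ hc00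
          refine one_div_le_one_div_of_le (by linarith) ?_
          calc (k : ℝ) = Real.sqrt k ^ 2 := (Real.sq_sqrt (by linarith)).symm
            _ ≤ Real.sqrt k ^ (d - 1) := pow_le_pow_right₀ hsk (by omega)
  have hT0 : (0 : ℝ) ≤ T := Nat.cast_nonneg _
  have hone : ∀ y : ℝ, 0 ≤ y → (1 / (4 * d) : ℝ) * (4 * T * y) ≤ T * y := by
    intro y hy
    have : (1 / (4 * d) : ℝ) * (4 * T * y) = (1 / d) * (T * y) := by field_simp
    rw [this]
    have h1 : 1 / (d : ℝ) ≤ 1 := by rw [div_le_one hd0]; exact hd1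
    calc (1 / (d : ℝ)) * (T * y) ≤ 1 * (T * y) :=
          mul_le_mul_of_nonneg_right h1 (mul_nonneg hT0 hy)
      _ = _ := one_mul _
  rcases Nat.eq_zero_or_pos K with hK | hK
  · subst hK
    simp only [Finset.range_zero, Finset.sum_empty]
    positivity
  · rw [Finset.range_eq_Ico, Finset.sum_eq_sum_Ico_succ_bot hK]
    have t0 := key 0 1 hk0
    have t1 : ∀ k ∈ Finset.Ico (0 + 1) K, (1 / (4 * d) : ℝ) *
        ip2 (sgI (x + R • eT i) j T - sgI x j T)
          (Plk k (sgI (x + R • eT i) j T - sgI x j T)) ≤ T * (c0 * (1 / (k : ℝ))) := by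
      intro k hk
      rw [Finset.mem_Ico] at hk
      have h1 := key k _ (hk1 k (by omega) (by omega))
      refine (mul_le_mul_of_nonneg_left h1 (by positivity)).trans ?_
      exact hone _ (by positivity)
    have t2 := Finset.sum_le_sum t1
    have t5 : ∑ k ∈ Finset.Ico (0 + 1) K, (T : ℝ) * (c0 * (1 / (k : ℝ))) =
        T * (c0 * ∑ k ∈ Finset.Ico (0 + 1) K, 1 / (k : ℝ)) := by
      rw [Finset.mul_sum, Finset.mul_sum]
    rw [t5] at t2
    have t3 : (1 / (4 * d) : ℝ) * ip2 (sgI (x + R • eT i) j T - sgI x j T)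
          (Plk 0 (sgI (x + R • eT i) j T - sgI x j T)) ≤ T * 1 := by
      refine (mul_le_mul_of_nonneg_left t0 (by positivity)).trans ?_
      exact hone _ zero_le_one
    have t4 : (0 + 1 : ℕ) = 1 := rfl
    rw [t4] at t2 ⊢
    calc _ ≤ T * 1 + T * (c0 * ∑ k ∈ Finset.Ico 1 K, 1 / (k : ℝ)) := add_le_add t3 t2
      _ = _ := by ring

/-! ### the rectangle -/

/-- the indicator of the rectangle, with multiplicity -/
def rcI (x : St d l) (i j : Fin d) (R T : ℕ) : St d l → ℝ := fun z =>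
  ∑ r ∈ Finset.range R, ∑ s ∈ Finset.range T, if z = x + r • eT i + s • eT j then 1 else 0

lemma rcI_swap (x : St d l) (i j : Fin d) (R T : ℕ) : rcI x i j R T = rcI x j i T R := by
  funext z
  unfold rcI
  rw [Finset.sum_comm]
  refine Finset.sum_congr rfl fun s _ => Finset.sum_congr rfl fun r _ => ?_
  rw [add_right_comm]

lemma rcI_nonneg (x : St d l) (i j : Fin d) (R T : ℕ) (z : St d l) : 0 ≤ rcI x i j R T z := by
  unfold rcI
  refine Finset.sum_nonneg fun r _ => Finset.sum_nonneg fun s _ => ?_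
  split_ifs <;> norm_num

lemma ip2_rcI (x : St d l) (i j : Fin d) (R T : ℕ) (F : St d l → ℝ) :
    ip2 (rcI x i j R T) F =
      ∑ r ∈ Finset.range R, ∑ s ∈ Finset.range T, F (x + r • eT i + s • eT j) := by
  unfold ip2 rcI
  simp only [Finset.sum_mul, ite_mul, one_mul, zero_mul]
  rw [Finset.sum_comm]
  refine Finset.sum_congr rfl fun r _ => ?_
  rw [Finset.sum_comm]
  refine Finset.sum_congr rfl fun s _ => ?_
  rw [Finset.sum_ite_eq' Finset.univ]
  simp

lemma sum_rcI (x : St d l) (i j : Fin d) (R T : ℕ) :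
    ∑ z, |rcI x i j R T z| = (R : ℝ) * T := by
  have h1 : ∑ z, |rcI x i j R T z| = ip2 (rcI x i j R T) (fun _ => 1) := by
    unfold ip2
    refine Finset.sum_congr rfl fun z _ => ?_
    rw [abs_of_nonneg (rcI_nonneg _ _ _ _ _ _), mul_one]
  rw [h1, ip2_rcI]
  simp

lemma Dm_rcI (x : St d l) (i j : Fin d) (R T : ℕ) :
    Dm i (rcI x i j R T) = sgI (x + R • eT i) j T - sgI x j T := by
  funext z
  rw [Pi.sub_apply]
  have h1 : rcI x i j R T (z - eT i) =
      ∑ r ∈ Finset.range R, sgI (x + (r + 1) • eT i) j T z := by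
    unfold rcI sgI
    refine Finset.sum_congr rfl fun r _ => Finset.sum_congr rfl fun s _ => ?_
    have h2 : (z - eT i = x + r • eT i + s • (eT j : St d l)) ↔
        (z = x + (r + 1) • eT i + s • (eT j : St d l)) := by
      rw [sub_eq_iff_eq_add, add_smul, one_smul]
      have : x + r • eT i + s • eT j + eT i = x + (r • eT i + eT i) + s • (eT j : St d l) := by
        abel
      rw [this]
    simp only [h2]
  have h2 : rcI x i j R T z = ∑ r ∈ Finset.range R, sgI (x + r • eT i) j T z := rfl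
  unfold Dm
  rw [h1, h2, ← Finset.sum_sub_distrib]
  have h3 := Finset.sum_range_sub (fun r : ℕ => sgI (x + r • (eT i : St d l)) j T z) R
  rw [h3, zero_smul, add_zero]

/-- the two form of the rectangle -/
def rc2 (x : St d l) (i j : Fin d) (R T : ℕ) : Fm d l := fun j' k' =>
  (if j' = i ∧ k' = j then rcI x i j R T else 0) - (if j' = j ∧ k' = i then rcI x i j R T else 0)

lemma rc2_asy (x : St d l) (i j : Fin d) (R T : ℕ) : Asy (rc2 x i j R T) := by
  intro j' k'
  unfold rc2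
  by_cases h1 : j' = i ∧ k' = j <;> by_cases h2 : j' = j ∧ k' = i
  · rw [if_pos h1, if_pos h2, if_pos ⟨h2.2, h2.1⟩, if_pos ⟨h1.2, h1.1⟩]; abel
  · rw [if_pos h1, if_neg h2, if_neg (fun h => h2 ⟨h.2, h.1⟩), if_pos ⟨h1.2, h1.1⟩]; abel
  · rw [if_neg h1, if_pos h2, if_pos ⟨h2.2, h2.1⟩, if_neg (fun h => h1 ⟨h.2, h.1⟩)]; abel
  · rw [if_neg h1, if_neg h2, if_neg (fun h => h2 ⟨h.2, h.1⟩), if_neg (fun h => h1 ⟨h.2, h.1⟩)]
    abel

lemma ds2_rc2 {x : St d l} {i j : Fin d} (hij : i ≠ j) (R T : ℕ) (k : Fin d) :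
    ds2 (rc2 x i j R T) k = (if k = j then Dm i (rcI x i j R T) else 0) +
      (if k = i then Dm j (-rcI x i j R T) else 0) := by
  unfold ds2 rc2
  have h1 : ∀ j', Dm j' ((if j' = i ∧ k = j then rcI x i j R T else 0) -
      (if j' = j ∧ k = i then rcI x i j R T else 0)) =
      (if j' = i then (if k = j then Dm i (rcI x i j R T) else 0) else 0) +
      (if j' = j then (if k = i then Dm j (-rcI x i j R T) else 0) else 0) := by
    intro j'
    rw [Dm_sub]
    by_cases h1 : j' = i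
    · subst h1
      have h2 : ¬(j' = j) := hij
      by_cases h3 : k = j
      · simp [h3, h2, Dm_zero_fun]
      · simp [h3, h2, Dm_zero_fun]
    · by_cases h2 : j' = j
      · subst h2
        by_cases h3 : k = i
        · simp [h1, h3, Dm_zero_fun, Dm_neg]
        · simp [h1, h3, Dm_zero_fun]
      · simp [h1, h2, Dm_zero_fun]
  rw [Finset.sum_congr rfl fun j' _ => h1 j', Finset.sum_add_distrib, Finset.sum_ite_eq',
    Finset.sum_ite_eq']
  simp

/-- the crude factor -/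
def crd (d K : ℕ) : ℝ :=
  1 + (2 + 2 * Real.sqrt (2 * d)) ^ (d - 1) * ∑ k ∈ Finset.Ico 1 K, 1 / (k : ℝ)

/-- the energy of the rectangle -/
theorem rect_energy (hd : 3 ≤ d) {K : ℕ} (hKl : K ≤ l) (x : St d l) {i j : Fin d} (hij : i ≠ j)
    {R T : ℕ} (hR : R ≤ l) (hT : T ≤ l) :
    ipF (d1 (ds2 fun j' k' => uK K (rc2 x i j R T j' k')))
      (d1 (ds2 fun j' k' => uK K (rc2 x i j R T j' k'))) ≤
      T * min (2 * gl l i j R) (crd d K) + R * crd d K := by
  have hd0 : 0 < d := by omega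
  rw [energy K (rc2_asy _ _ _ _ _)]
  have hz : ∀ J : St d l → ℝ, J = 0 →
      ip2 J (uK K J) - ip2 (Plk K J) (uK K J) = 0 := by
    intro J hJ
    rw [hJ, uK_zero_fun, Plk_zero_fun]
    simp
  have hk : ∀ k : Fin d, ip2 (ds2 (rc2 x i j R T) k) (uK K (ds2 (rc2 x i j R T) k)) -
      ip2 (Plk K (ds2 (rc2 x i j R T) k)) (uK K (ds2 (rc2 x i j R T) k)) ≤
      (if k = j then T * min (2 * gl l i j R) (crd d K) else 0) +
        (if k = i then R * crd d K else 0) := by
    intro k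
    rw [ds2_rc2 hij]
    by_cases hkj : k = j
    · have hki : ¬(k = i) := fun h => hij (h.symm.trans hkj)
      rw [if_pos hkj, if_neg hki, add_zero, if_pos hkj, if_neg hki, add_zero, Dm_rcI]
      have h1 := (energy_le2 hd0 K _).trans (seg_energy hd0 K x hij R hT)
      have h2 := (energy_le2 hd0 K _).trans (seg_energy2 hd hKl x hij R hT)
      rw [mul_min_of_nonneg _ _ (Nat.cast_nonneg T)]
      refine le_min (h1.trans (le_of_eq (by ring))) h2
    · by_cases hki : k = i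
      · rw [if_neg hkj, if_pos hki, zero_add, if_neg hkj, if_pos hki, zero_add, Dm_neg, rcI_swap,
          Dm_rcI]
        have h1 := (energy_le2 hd0 K (sgI (x + T • eT j) i R - sgI x i R)).trans
          (seg_energy2 hd hKl x hij.symm T hR)
        have h2 : ∀ J : St d l → ℝ, ip2 (-J) (uK K (-J)) - ip2 (Plk K (-J)) (uK K (-J)) =
            ip2 J (uK K J) - ip2 (Plk K J) (uK K J) := by
          intro J
          rw [uK_neg, Plk_neg, ip2_neg_left, ip2_neg_left, ip2_comm J, ip2_neg_left,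
            ip2_comm (Plk K J), ip2_neg_left, neg_neg, neg_neg, ip2_comm (uK K J) J,
            ip2_comm (uK K J) (Plk K J)]
        rw [h2]
        exact h1
      · rw [if_neg hkj, if_neg hki, add_zero, if_neg hkj, if_neg hki, add_zero, hz 0 rfl]
  refine (Finset.sum_le_sum fun k _ => hk k).trans (le_of_eq ?_)
  rw [Finset.sum_add_distrib]
  simp

end

end Pool.Agent.TH618.YM
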