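import Mathlib
import Pool.Agent.TH618.YM.Form2

/-!
# The infinite volume limit of the Coulomb potential
-/

open MeasureTheory Filter
open scoped Topology
open Pool.Agent.H906R3.YM hiding Pl
open Pool.Agent.W793.YM

namespace Pool.Agent.TH618.YM

set_option linter.unusedSectionVars false
set_option linter.unusedVariables false

noncomputable section

/-! ### Riemann sums -/

section riemann

variable {d : ℕ}

/-- the cell of a number -/
def cell (l : ℕ) [NeZero l] (u : ℝ) : Fin l := Fin.ofNat l ⌊(l : ℝ) * u⌋₊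

lemma cell_meas (l : ℕ) [NeZero l] : Measurable (cell l) := by
  unfold cell
  have h1 : Measurable fun u : ℝ => ⌊(l : ℝ) * u⌋₊ :=
    Nat.measurable_floor.comp (measurable_const.mul measurable_id)
  exact (measurable_from_top (f := fun k : ℕ => Fin.ofNat l k)).comp h1

lemma cell_val {l : ℕ} [NeZero l] {u : ℝ} (h0 : 0 ≤ u) (h1 : u < 1) :
    ((cell l u : Fin l) : ℕ) = ⌊(l : ℝ) * u⌋₊ := by
  have hl : (0 : ℝ) < l := by
    have : 0 < l := Nat.pos_of_ne_zero (NeZero.ne l)
    exact_mod_cast this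
  unfold cell
  rw [Fin.val_ofNat]
  refine Nat.mod_eq_of_lt ?_
  rw [Nat.floor_lt (by positivity)]
  nlinarith

/-- the uniform measure of `[0, 1)` -/
def nu1 : Measure ℝ := volume.restrict (Set.Ico 0 1)

instance : IsProbabilityMeasure nu1 := ⟨by
  unfold nu1
  rw [Measure.restrict_apply_univ, Real.volume_Ico]; simp⟩

lemma cell_map (l : ℕ) [NeZero l] (t : Fin l) : (nu1.map (cell l)).real {t} = 1 / (l : ℝ) := by
  have hl : (0 : ℝ) < l := by
    have : 0 < l := Nat.pos_of_ne_zero (NeZero.ne l)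
    exact_mod_cast this
  rw [map_measureReal_apply (cell_meas l) (measurableSet_singleton t)]
  unfold nu1
  rw [measureReal_restrict_apply (cell_meas l (measurableSet_singleton t))]
  have h1 : cell l ⁻¹' {t} ∩ Set.Ico 0 1 = Set.Ico ((t : ℕ) / (l : ℝ)) (((t : ℕ) + 1) / (l : ℝ)) := by
    ext u
    simp only [Set.mem_inter_iff, Set.mem_preimage, Set.mem_singleton_iff, Set.mem_Ico]
    have ht : (t : ℕ) + 1 ≤ l := t.isLt
    have ht' : ((t : ℕ) : ℝ) + 1 ≤ l := by exact_mod_cast ht
    constructor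
    · rintro ⟨h2, h3, h4⟩
      have h5 := cell_val (l := l) h3 h4
      rw [h2] at h5
      have h6 : 0 ≤ (l : ℝ) * u := by positivity
      have h7 := Nat.floor_le h6
      have h8 := Nat.lt_floor_add_one ((l : ℝ) * u)
      rw [← h5] at h7 h8
      rw [div_le_iff₀ hl, lt_div_iff₀ hl]
      constructor <;> linarith
    · rintro ⟨h2, h3⟩
      rw [div_le_iff₀ hl] at h2
      rw [lt_div_iff₀ hl] at h3
      have h4 : 0 ≤ u := by
        have : (0 : ℝ) ≤ (t : ℕ) := Nat.cast_nonneg _
        by_contra hneg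
        push Not at hneg
        nlinarith
      have h5 : u < 1 := by
        by_contra hge
        push Not at hge
        nlinarith
      refine ⟨?_, h4, h5⟩
      apply Fin.ext
      rw [cell_val h4 h5, Nat.floor_eq_iff (by positivity)]
      constructor <;> linarith
  rw [h1, Real.volume_real_Ico_of_le (by
    refine div_le_div_of_nonneg_right (by linarith) hl.le)]
  field_simp
  ring

/-- the Riemann sum -/
def rs (l : ℕ) (Φ : (Fin d → ℝ) → ℝ) : ℝ :=
  (1 / (l : ℝ) ^ d) * ∑ ξ : Fin d → Fin l, Φ fun i => ((ξ i : ℕ) : ℝ) / l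

lemma rs_eq (l : ℕ) [NeZero l] (Φ : (Fin d → ℝ) → ℝ) :
    rs l Φ = ∫ u, Φ (fun i => ((cell l (u i) : ℕ) : ℝ) / l) ∂(Measure.pi fun _ : Fin d => nu1) := by
  have h1 : (Measure.pi fun _ : Fin d => nu1).map (fun u i => cell l (u i)) =
      Measure.pi fun _ : Fin d => nu1.map (cell l) := by
    have : ∀ i : Fin d, IsProbabilityMeasure (nu1.map (cell l)) := fun _ =>
      Measure.isProbabilityMeasure_map (cell_meas l).aemeasurable
    exact Measure.pi_map_pi fun _ => (cell_meas l).aemeasurable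
  have h2 : ∫ u, Φ (fun i => ((cell l (u i) : ℕ) : ℝ) / l) ∂(Measure.pi fun _ : Fin d => nu1) =
      ∫ ξ, (fun ξ : Fin d → Fin l => Φ fun i => ((ξ i : ℕ) : ℝ) / l) ξ
        ∂((Measure.pi fun _ : Fin d => nu1).map (fun u i => cell l (u i))) := by
    rw [integral_map]
    · exact (measurable_pi_lambda _ fun i => (cell_meas l).comp (measurable_pi_apply i)).aemeasurable
    · exact (measurable_of_finite _).aestronglyMeasurable
  have hp : IsProbabilityMeasure (nu1.map (cell l)) :=
    Measure.isProbabilityMeasure_map (cell_meas l).aemeasurable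
  rw [h2, h1, integral_fintype (Integrable.of_finite)]
  unfold rs
  rw [Finset.mul_sum]
  refine Finset.sum_congr rfl fun ξ _ => ?_
  have h3 : (Measure.pi fun _ : Fin d => nu1.map (cell l)).real {ξ} = 1 / (l : ℝ) ^ d := by
    unfold Measure.real
    rw [Measure.pi_singleton, ENNReal.toReal_prod]
    have h4 : ∀ i : Fin d, ((nu1.map (cell l)) {ξ i}).toReal = 1 / (l : ℝ) := fun i =>
      cell_map l (ξ i)
    simp only [h4, Finset.prod_const, Finset.card_univ, Fintype.card_fin]
    rw [div_pow, one_pow]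
  rw [h3, smul_eq_mul]

/-- convergence of the Riemann sums -/
theorem rs_tendsto {Φ : (Fin d → ℝ) → ℝ} (hm : Measurable Φ) {B : ℝ} (hB : ∀ u, |Φ u| ≤ B)
    (hc : ∀ᵐ u ∂(Measure.pi fun _ : Fin d => nu1), ContinuousAt Φ u) :
    Tendsto (fun l => rs l Φ) atTop
      (𝓝 (∫ u in Set.pi Set.univ (fun _ : Fin d => Set.Icc (0 : ℝ) 1), Φ u)) := by
  have h1 : (Measure.pi fun _ : Fin d => nu1) =
      volume.restrict (Set.pi Set.univ (fun _ : Fin d => Set.Icc (0 : ℝ) 1)) := by
    unfold nu1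
    rw [← Measure.restrict_pi_pi]
    refine Measure.restrict_congr_set ?_
    have h2 := Measure.univ_pi_Ico_ae_eq_Icc (μ := fun _ : Fin d => (volume : Measure ℝ))
      (f := fun _ => 0) (g := fun _ => 1)
    have h3 : Set.Icc (fun _ : Fin d => (0 : ℝ)) (fun _ => 1) =
        Set.pi Set.univ (fun _ : Fin d => Set.Icc (0 : ℝ) 1) := (Set.pi_univ_Icc _ _).symm
    rw [h3] at h2
    exact h2
  rw [← h1]
  have h0 : ∀ᵐ u ∂(Measure.pi fun _ : Fin d => nu1), ∀ i, u i ∈ Set.Ico (0 : ℝ) 1 := by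
    rw [ae_all_iff]
    intro i
    have h3 : ∀ᵐ v ∂nu1, v ∈ Set.Ico (0 : ℝ) 1 := by
      unfold nu1
      exact ae_restrict_mem measurableSet_Ico
    exact (Measure.quasiMeasurePreserving_eval (μ := fun _ : Fin d => nu1) i).ae h3
  have h4 : Tendsto (fun l : ℕ => ∫ u, Φ (fun i => (((cell (l + 1) (u i) : Fin (l + 1)) : ℕ) : ℝ) /
      ((l + 1 : ℕ) : ℝ)) ∂(Measure.pi fun _ : Fin d => nu1)) atTop
      (𝓝 (∫ u, Φ u ∂(Measure.pi fun _ : Fin d => nu1))) := by
    refine tendsto_integral_of_dominated_convergence (fun _ => B) (fun l => ?_)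
      (integrable_const _) (fun l => ?_) ?_
    · refine (hm.comp (measurable_pi_lambda _ fun i => ?_)).aestronglyMeasurable
      have h5 : Measurable fun k : Fin (l + 1) => ((k : ℕ) : ℝ) / ((l + 1 : ℕ) : ℝ) :=
        measurable_of_finite _
      exact h5.comp ((cell_meas (l + 1)).comp (measurable_pi_apply i))
    · refine Filter.Eventually.of_forall fun u => ?_
      rw [Real.norm_eq_abs]; exact hB _
    · filter_upwards [hc, h0] with u hu hu0
      refine hu.tendsto.comp ?_
      rw [tendsto_pi_nhds]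
      intro i
      have h6 : ∀ l : ℕ, (((cell (l + 1) (u i) : Fin (l + 1)) : ℕ) : ℝ) / ((l + 1 : ℕ) : ℝ) =
          (⌊u i * ((l + 1 : ℕ) : ℝ)⌋₊ : ℝ) / ((l + 1 : ℕ) : ℝ) := by
        intro l
        rw [cell_val (hu0 i).1 (hu0 i).2, mul_comm]
      simp only [h6]
      have h7 := (tendsto_nat_floor_mul_div_atTop (R := ℝ) (hu0 i).1)
      have h8 : Tendsto (fun l : ℕ => ((l + 1 : ℕ) : ℝ)) atTop atTop :=
        tendsto_natCast_atTop_atTop.comp (tendsto_add_atTop_nat 1)
      exact h7.comp h8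
  have h5 : ∀ l : ℕ, rs (l + 1) Φ = ∫ u, Φ (fun i => (((cell (l + 1) (u i) : Fin (l + 1)) : ℕ) : ℝ) /
      ((l + 1 : ℕ) : ℝ)) ∂(Measure.pi fun _ : Fin d => nu1) := fun l => rs_eq (l + 1) Φ
  simp only [← h5] at h4
  exact (tendsto_add_atTop_iff_nat 1).1 h4

end riemann

/-! ### the potential -/

variable {d : ℕ}

/-- the integrand -/
def cint (i j : Fin d) (R : ℕ) (u : Fin d → ℝ) : ℝ :=
  (1 - Real.cos (2 * Real.pi * R * u i)) /
    ∑ k, if k = j then 0 else 2 * (1 - Real.cos (2 * Real.pi * u k))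

/-- the Coulomb potential -/
def coul (i j : Fin d) (R : ℕ) : ℝ :=
  ∫ u in Set.pi Set.univ (fun _ : Fin d => Set.Icc (0 : ℝ) 1), cint i j R u

lemma abs_sin_nat_mul_le (R : ℕ) (x : ℝ) : |Real.sin (R * x)| ≤ R * |Real.sin x| := by
  induction R with
  | zero => simp
  | succ R ih =>
    push_cast
    rw [add_mul, one_mul, Real.sin_add]
    refine (abs_add_le _ _).trans ?_
    rw [abs_mul, abs_mul]
    have h1 := Real.abs_cos_le_one x
    have h2 := Real.abs_cos_le_one (R * x)
    have h3 := abs_nonneg (Real.sin x)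
    have h4 := abs_nonneg (Real.sin (R * x))
    nlinarith

lemma one_sub_cos_mul (R : ℕ) (x : ℝ) :
    1 - Real.cos (R * x) ≤ (R : ℝ) ^ 2 * (1 - Real.cos x) := by
  have h1 : ∀ y : ℝ, 1 - Real.cos y = 2 * Real.sin (y / 2) ^ 2 := by
    intro y
    have : y = 2 * (y / 2) := by ring
    conv_lhs => rw [this]
    rw [Real.cos_two_mul, Real.cos_sq']; ring
  rw [h1, h1]
  have h2 : (R : ℝ) * x / 2 = R * (x / 2) := by ring
  rw [h2]
  have h3 := abs_sin_nat_mul_le R (x / 2)
  have h4 : Real.sin (R * (x / 2)) ^ 2 ≤ ((R : ℝ) * |Real.sin (x / 2)|) ^ 2 := by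
    rw [← sq_abs]
    exact pow_le_pow_left₀ (abs_nonneg _) h3 2
  rw [mul_pow, sq_abs] at h4
  linarith

lemma den_nonneg (j : Fin d) (u : Fin d → ℝ) :
    0 ≤ ∑ k, (if k = j then 0 else 2 * (1 - Real.cos (2 * Real.pi * u k))) := by
  refine Finset.sum_nonneg fun k _ => ?_
  split_ifs
  · exact le_rfl
  · have := Real.cos_le_one (2 * Real.pi * u k); linarith

lemma den_ge {i j : Fin d} (hij : i ≠ j) (u : Fin d → ℝ) :
    2 * (1 - Real.cos (2 * Real.pi * u i)) ≤
      ∑ k, (if k = j then 0 else 2 * (1 - Real.cos (2 * Real.pi * u k))) := by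
  have h1 := Finset.single_le_sum (f := fun k =>
    if k = j then 0 else 2 * (1 - Real.cos (2 * Real.pi * u k))) (s := Finset.univ) (fun k _ => by
      split_ifs
      · exact le_rfl
      · have := Real.cos_le_one (2 * Real.pi * u k); linarith) (Finset.mem_univ i)
  simp only [if_neg hij] at h1
  exact h1

lemma cint_nonneg (i j : Fin d) (R : ℕ) (u : Fin d → ℝ) : 0 ≤ cint i j R u := by
  unfold cint
  refine div_nonneg ?_ (den_nonneg j u)
  have := Real.cos_le_one (2 * Real.pi * R * u i); linarith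

lemma cint_le {i j : Fin d} (hij : i ≠ j) (R : ℕ) (u : Fin d → ℝ) :
    cint i j R u ≤ (R : ℝ) ^ 2 / 2 := by
  unfold cint
  have h0 := den_nonneg j u
  have h1 := den_ge hij u
  rcases h0.eq_or_lt with h | h
  · rw [← h, div_zero]; positivity
  · rw [div_le_iff₀ h]
    have h2 := one_sub_cos_mul R (2 * Real.pi * u i)
    have h3 : (R : ℝ) * (2 * Real.pi * u i) = 2 * Real.pi * R * u i := by ring
    rw [h3] at h2
    have h4 : (R : ℝ) ^ 2 * (2 * (1 - Real.cos (2 * Real.pi * u i))) ≤ (R : ℝ) ^ 2 *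
        ∑ k, (if k = j then 0 else 2 * (1 - Real.cos (2 * Real.pi * u k))) :=
      mul_le_mul_of_nonneg_left h1 (by positivity)
    linarith

lemma num_cont (i : Fin d) (R : ℕ) :
    Continuous fun u : Fin d → ℝ => 1 - Real.cos (2 * Real.pi * R * u i) :=
  continuous_const.sub (Real.continuous_cos.comp (continuous_const.mul (continuous_apply i)))

lemma den_cont (j : Fin d) : Continuous fun u : Fin d → ℝ =>
    ∑ k, (if k = j then 0 else 2 * (1 - Real.cos (2 * Real.pi * u k))) := by
  refine continuous_finsetSum _ fun k _ => ?_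
  by_cases h : k = j
  · simp only [h, if_true]; exact continuous_const
  · simp only [h, if_false]
    exact continuous_const.mul (continuous_const.sub
      (Real.continuous_cos.comp (continuous_const.mul (continuous_apply k))))

lemma cint_meas (i j : Fin d) (R : ℕ) : Measurable (cint i j R) :=
  (num_cont i R).measurable.div (den_cont j).measurable

lemma cint_ae {i j : Fin d} (hij : i ≠ j) (R : ℕ) :
    ∀ᵐ u ∂(Measure.pi fun _ : Fin d => nu1), ContinuousAt (cint i j R) u := by
  have h0 : ∀ᵐ u ∂(Measure.pi fun _ : Fin d => nu1), u i ∈ Set.Ioo (0 : ℝ) 1 := by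
    have h3 : ∀ᵐ v ∂nu1, v ∈ Set.Ioo (0 : ℝ) 1 := by
      have h4 : nu1 = volume.restrict (Set.Ioo 0 1) := by
        unfold nu1
        exact Measure.restrict_congr_set Ioo_ae_eq_Ico.symm
      rw [h4]
      exact ae_restrict_mem measurableSet_Ioo
    exact (Measure.quasiMeasurePreserving_eval (μ := fun _ : Fin d => nu1) i).ae h3
  filter_upwards [h0] with u hu
  refine ContinuousAt.div (num_cont i R).continuousAt (den_cont j).continuousAt ?_
  have h1 := den_ge hij u
  have h2 : Real.cos (2 * Real.pi * u i) < 1 := by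
    refine lt_of_le_of_ne (Real.cos_le_one _) fun h => ?_
    rw [Real.cos_eq_one_iff] at h
    obtain ⟨k, hk⟩ := h
    have hpi := Real.pi_pos
    have h3 : (k : ℝ) = u i := by
      have : (k : ℝ) * (2 * Real.pi) = u i * (2 * Real.pi) := by rw [hk]; ring
      exact mul_right_cancel₀ (by positivity) this
    have h4 : (0 : ℝ) < k := by rw [h3]; exact hu.1
    have h5 : (k : ℝ) < 1 := by rw [h3]; exact hu.2
    have h6 : 0 < k := by exact_mod_cast h4
    have h7 : k < 1 := by exact_mod_cast h5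
    omega
  have : 0 < ∑ k, (if k = j then 0 else 2 * (1 - Real.cos (2 * Real.pi * u k))) := by linarith
  exact this.ne'

/-- the residues as numbers -/
def zf (l : ℕ) [NeZero l] : ZMod l ≃ Fin l where
  toFun t := ⟨t.val, ZMod.val_lt t⟩
  invFun k := ((k : ℕ) : ZMod l)
  left_inv t := ZMod.natCast_zmod_val t
  right_inv k := Fin.ext (ZMod.val_natCast_of_lt k.isLt)

lemma chi_mul_re {l : ℕ} [NeZero l] (t : ZMod l) (R : ℕ) :
    (chi (t * (R : ZMod l))).re = Real.cos (2 * Real.pi * R * ((t.val : ℝ) / l)) := by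
  rw [chi_mul_nat]
  have h1 : chi t = Complex.exp (((2 * Real.pi * t.val / l : ℝ) : ℂ) * Complex.I) := by
    have h1 : t = ((t.val : ℤ) : ZMod l) := by simp
    unfold chi
    conv_lhs => rw [h1]
    rw [ZMod.stdAddChar_coe]
    congr 1
    push_cast; ring
  rw [h1, ← Complex.exp_nat_mul]
  have h2 : (R : ℂ) * (((2 * Real.pi * t.val / l : ℝ) : ℂ) * Complex.I) =
      ((2 * Real.pi * R * ((t.val : ℝ) / l) : ℝ) : ℂ) * Complex.I := by
    push_cast; ring
  rw [h2, Complex.exp_ofReal_mul_I_re]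

lemma gl_eq (l : ℕ) [NeZero l] (i j : Fin d) (R : ℕ) : gl l i j R = rs l (cint i j R) := by
  unfold gl rs
  congr 1
  have h1 := Equiv.sum_comp (Equiv.piCongrRight fun _ : Fin d => zf l)
    (fun ξ : Fin d → Fin l => cint i j R fun i => ((ξ i : ℕ) : ℝ) / l)
  rw [← h1]
  refine Finset.sum_congr rfl fun ξ _ => ?_
  have h2 : ∀ k, (((Equiv.piCongrRight fun _ : Fin d => zf l) ξ k : Fin l) : ℕ) = (ξ k).val :=
    fun k => rfl
  unfold cint sj
  simp only [h2]
  rw [chi_mul_re]
  congr 1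
  refine Finset.sum_congr rfl fun k _ => ?_
  split_ifs
  · rfl
  · rw [chi_re]
    congr 3
    ring

lemma gl_le (l : ℕ) [NeZero l] {i j : Fin d} (hij : i ≠ j) (R : ℕ) :
    gl l i j R ≤ (R : ℝ) ^ 2 / 2 := by
  have hl : (l : ℝ) ≠ 0 := by exact_mod_cast NeZero.ne l
  rw [gl_eq]
  unfold rs
  calc (1 / (l : ℝ) ^ d) * ∑ ξ : Fin d → Fin l, cint i j R (fun i => ((ξ i : ℕ) : ℝ) / l) ≤
      (1 / (l : ℝ) ^ d) * ∑ ξ : Fin d → Fin l, (R : ℝ) ^ 2 / 2 := by
        refine mul_le_mul_of_nonneg_left (Finset.sum_le_sum fun ξ _ => cint_le hij R _)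
          (by positivity)
    _ = _ := by
        simp only [Finset.sum_const, Finset.card_univ, Fintype.card_fun, Fintype.card_fin,
          nsmul_eq_mul]
        push_cast
        field_simp

/-- the infinite volume limit of the Coulomb potential -/
theorem gl_tendsto {i j : Fin d} (hij : i ≠ j) (R : ℕ) {s : ℕ → ℕ} (hs : Tendsto s atTop atTop) :
    Tendsto (fun k => gl (2 * (s k + 1)) i j R) atTop (𝓝 (coul i j R)) := by
  have h1 := rs_tendsto (cint_meas i j R) (B := (R : ℝ) ^ 2 / 2) (fun u => by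
    rw [abs_of_nonneg (cint_nonneg i j R u)]; exact cint_le hij R u) (cint_ae hij R)
  have h2 : Tendsto (fun k => 2 * (s k + 1)) atTop atTop := by
    refine tendsto_atTop_mono (fun k => ?_) hs
    show s k ≤ 2 * (s k + 1)
    omega
  have h3 := h1.comp h2
  refine h3.congr fun k => ?_
  exact (gl_eq _ i j R).symm

end

end Pool.Agent.TH618.YM
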