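import Mathlib
import Pool.Agent.W793.SCH.Mom2
import Pool.Agent.TH618.YM.Loop
import Pool.Agent.TH618.YM.Form2

/-!
# The second moment of the flux through a rectangle
-/

open MeasureTheory Matrix Filter
open scoped Matrix.Norms.Frobenius ContDiff Topology
open Pool.Agent.H906R3.YM hiding Pl
open Pool.Agent.W793.YM

namespace Pool.Agent.TH618.YM

set_option linter.unusedSectionVars false
set_option linter.unusedVariables false

noncomputable section

lemma cos_le_quartic (y : ℝ) : Real.cos y ≤ 1 - y ^ 2 / 2 + y ^ 4 / 2 := by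
  rcases le_total |y| 1 with h | h
  · have h1 := Real.cos_bound h
    have h2 : |y| ^ 4 = y ^ 4 := by
      rw [show (4 : ℕ) = 2 * 2 by norm_num, pow_mul, pow_mul, sq_abs]
    rw [h2] at h1
    have h3 := (abs_le.1 h1).2
    have h4 : 0 ≤ y ^ 4 := by positivity
    linarith
  · have h1 : 1 ≤ y ^ 2 := by
      rw [← sq_abs]; nlinarith
    have h2 := Real.cos_le_one y
    nlinarith

lemma sq_le_cos {h : ℝ} (hh : 0 < h) (x : ℝ) :
    x ^ 2 ≤ 2 / h ^ 2 * (1 - Real.cos (h * x)) + h ^ 2 * x ^ 4 := by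
  have h1 := cos_le_quartic (h * x)
  have h2 : h ^ 2 * x ^ 2 ≤ h ^ 2 * (2 / h ^ 2 * (1 - Real.cos (h * x)) + h ^ 2 * x ^ 4) := by
    have e : h ^ 2 * (2 / h ^ 2 * (1 - Real.cos (h * x)) + h ^ 2 * x ^ 4) =
        2 * (1 - Real.cos (h * x)) + (h * x) ^ 4 := by field_simp
    rw [e]
    have e2 : h ^ 2 * x ^ 2 = (h * x) ^ 2 := by ring
    rw [e2]
    linarith
  exact le_of_mul_le_mul_left h2 (by positivity)

variable {G : Type*} [Group G] [TopologicalSpace G] [IsTopologicalGroup G] [CompactSpace G]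
  [SecondCountableTopology G] [MeasurableSpace G] [BorelSpace G] (μ : Measure G)
  [IsProbabilityMeasure μ] [μ.IsMulLeftInvariant] [μ.IsMulRightInvariant] [μ.IsInvInvariant]
  {N n : ℕ} {L : LD G N n} {d l : ℕ} [NeZero l]

/-- the two form of the rectangle, of one colour -/
def rcF (x : St d l) (i j : Fin d) (R T : ℕ) (a0 : Fin n) (h : ℝ) : Fin n → Fm d l := fun a j' k' z =>
  if a = a0 then h * rc2 x i j R T j' k' z else 0

lemma rcF_asy (x : St d l) (i j : Fin d) (R T : ℕ) (a0 : Fin n) (h : ℝ) (a : Fin n) :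
    Asy (rcF x i j R T a0 h a) := by
  intro j' k'
  funext z
  rw [Pi.neg_apply]
  show (if a = a0 then h * rc2 x i j R T j' k' z else 0) =
    -(if a = a0 then h * rc2 x i j R T k' j' z else 0)
  have h1 := congrFun (rc2_asy x i j R T j' k') z
  rw [Pi.neg_apply] at h1
  split_ifs
  · rw [h1]; ring
  · ring

lemma rc2_abs (x : St d l) (i j : Fin d) (R T : ℕ) (j' k' : Fin d) (z : St d l) :
    |rc2 x i j R T j' k' z| ≤ (if j' = i ∧ k' = j then rcI x i j R T z else 0) +
      (if j' = j ∧ k' = i then rcI x i j R T z else 0) := by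
  unfold rc2
  rw [Pi.sub_apply]
  refine (abs_sub _ _).trans (add_le_add ?_ ?_)
  · split_ifs
    · rw [abs_of_nonneg (rcI_nonneg _ _ _ _ _ _)]
    · simp
  · split_ifs
    · rw [abs_of_nonneg (rcI_nonneg _ _ _ _ _ _)]
    · simp

lemma rcF_N1 (x : St d l) (i j : Fin d) (R T : ℕ) (a0 : Fin n) {h : ℝ} (hh : 0 ≤ h) :
    N1 (rcF x i j R T a0 h) ≤ 2 * h * ((R : ℝ) * T) := by
  unfold N1
  have h1 : ∀ a, ∑ j', ∑ k', ∑ z, |rcF x i j R T a0 h a j' k' z| ≤
      if a = a0 then 2 * h * ((R : ℝ) * T) else 0 := by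
    intro a
    unfold rcF
    split_ifs with ha
    · have h2 : ∀ (j' k' : Fin d) (z : St d l), |h * rc2 x i j R T j' k' z| ≤
          (if j' = i then (if k' = j then h * rcI x i j R T z else 0) else 0) +
          (if j' = j then (if k' = i then h * rcI x i j R T z else 0) else 0) := by
        intro j' k' z
        rw [abs_mul, abs_of_nonneg hh]
        have h3 := mul_le_mul_of_nonneg_left (rc2_abs x i j R T j' k' z) hh
        refine h3.trans (le_of_eq ?_)
        rw [mul_add, mul_ite, mul_ite, mul_zero, ite_and, ite_and]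
      refine (Finset.sum_le_sum fun j' _ => Finset.sum_le_sum fun k' _ =>
        Finset.sum_le_sum fun z _ => h2 j' k' z).trans (le_of_eq ?_)
      have h3 : ∑ z, rcI x i j R T z = (R : ℝ) * T := by
        rw [← sum_rcI x i j R T]
        exact Finset.sum_congr rfl fun z _ => (abs_of_nonneg (rcI_nonneg _ _ _ _ _ _)).symm
      simp only [Finset.sum_add_distrib]
      have h4 : ∀ (u v : Fin d), ∑ j' : Fin d, ∑ k' : Fin d, ∑ z : St d l,
          (if j' = u then (if k' = v then h * rcI x i j R T z else 0) else 0) = h * ((R : ℝ) * T) := by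
        intro u v
        have e1 : ∀ j' k' : Fin d, ∑ z : St d l,
            (if j' = u then (if k' = v then h * rcI x i j R T z else 0) else 0) =
            if j' = u then (if k' = v then h * ((R : ℝ) * T) else 0) else 0 := by
          intro j' k'
          split_ifs
          · rw [← Finset.mul_sum, h3]
          · simp
          · simp
        simp only [e1]
        rw [Finset.sum_comm]
        simp
      rw [h4, h4]; ring
    · simp
  refine (Finset.sum_le_sum fun a _ => h1 a).trans (le_of_eq ?_)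
  simp

lemma Fs_rcF (x : St d l) {i j : Fin d} (hij : i ≠ j) (R T : ℕ) (a0 : Fin n) (h : ℝ)
    (U : Ed d l → G) : Fs L (rcF x i j R T a0 h) U = h * ∑ r ∈ Finset.range R,
      ∑ s ∈ Finset.range T, Fz L U a0 i j (x + r • eT i + s • eT j) := by
  unfold Fs
  rw [Finset.sum_eq_single a0]
  · rw [← ip2_rcI]
    have h1 : rcF x i j R T a0 h a0 = h • rc2 x i j R T := by
      funext j' k' z
      unfold rcF
      rw [if_pos rfl]
      rfl
    rw [h1, ipF_smul_left]
    congr 1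
    unfold ipF
    have h2 : ∀ j' k' : Fin d, ip2 (rc2 x i j R T j' k') (Fz L U a0 j' k') =
        (if j' = i then (if k' = j then ip2 (rcI x i j R T) (Fz L U a0 i j) else 0) else 0) +
        (if j' = j then (if k' = i then ip2 (rcI x i j R T) (Fz L U a0 i j) else 0) else 0) := by
      intro j' k'
      unfold rc2
      by_cases a1 : j' = i ∧ k' = j
      · have a2 : ¬(j' = j ∧ k' = i) := fun h' => hij (a1.1.symm.trans h'.1)
        rw [if_pos a1, if_neg a2, sub_zero, if_pos a1.1, if_pos a1.2, a1.1, a1.2, if_neg hij,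
          add_zero]
      · by_cases a2 : j' = j ∧ k' = i
        · rw [if_neg a1, if_pos a2, zero_sub, ip2_neg_left, a2.1, a2.2, if_neg hij.symm, zero_add,
            if_pos rfl, if_pos rfl]
          have h3 : Fz L U a0 j i = -Fz L U a0 i j := Fz_asy U a0 j i
          rw [h3, ip2_comm, ip2_neg_left, neg_neg, ip2_comm]
        · rw [if_neg a1, if_neg a2, sub_zero]
          have h4 : (if j' = i then (if k' = j then ip2 (rcI x i j R T) (Fz L U a0 i j) else 0)
              else 0) = 0 := by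
            split_ifs with b1 b2
            · exact absurd ⟨b1, b2⟩ a1
            · rfl
            · rfl
          have h5 : (if j' = j then (if k' = i then ip2 (rcI x i j R T) (Fz L U a0 i j) else 0)
              else 0) = 0 := by
            split_ifs with b1 b2
            · exact absurd ⟨b1, b2⟩ a2
            · rfl
            · rfl
          rw [h4, h5]
          unfold ip2; simp
    simp only [h2, Finset.sum_add_distrib]
    have h4 : ∀ (u v : Fin d) (c : ℝ), ∑ j' : Fin d, ∑ k' : Fin d,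
        (if j' = u then (if k' = v then c else 0) else 0) = c := by
      intro u v c
      rw [Finset.sum_comm]
      simp
    rw [h4, h4]; ring
  · intro a _ ha
    have h1 : rcF x i j R T a0 h a = 0 := by
      funext j' k' z
      unfold rcF
      rw [if_neg ha]; rfl
    rw [h1]
    unfold ipF ip2
    simp
  · intro h'; exact absurd (Finset.mem_univ _) h'

lemma rcF_vK (K : ℕ) (x : St d l) (i j : Fin d) (R T : ℕ) (a0 : Fin n) (h : ℝ) :
    vK K (rcF x i j R T a0 h) = h ^ 2 *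
      ipF (d1 (ds2 fun j' k' => uK K (rc2 x i j R T j' k')))
        (d1 (ds2 fun j' k' => uK K (rc2 x i j R T j' k'))) := by
  unfold vK
  rw [Finset.sum_eq_single a0]
  · have h1 : AK K (rcF x i j R T a0 h) a0 = h • ds2 fun j' k' => uK K (rc2 x i j R T j' k') := by
      unfold AK uKs
      funext k
      rw [Pi.smul_apply]
      unfold ds2
      rw [Finset.smul_sum]
      refine Finset.sum_congr rfl fun j' _ => ?_
      have h2 : rcF x i j R T a0 h a0 j' k = h • rc2 x i j R T j' k := by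
        funext z
        unfold rcF
        rw [if_pos rfl]; rfl
      show Dm j' (uK K (rcF x i j R T a0 h a0 j' k)) = h • Dm j' (uK K (rc2 x i j R T j' k))
      rw [h2, uK_smul, Dm_smul]
    have h2 : ∀ A : Fin d → St d l → ℝ, d1 (h • A) = h • d1 A := by
      intro A
      funext j' k'
      show d1 (h • A) j' k' = h • d1 A j' k'
      unfold d1
      rw [Pi.smul_apply, Pi.smul_apply, Dp_smul, Dp_smul, smul_sub]
    rw [h1, h2, ipF_smul_left, ipF_comm, ipF_smul_left]
    ring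
  · intro a _ ha
    have h1 : AK K (rcF x i j R T a0 h) a = 0 := by
      unfold AK uKs
      funext k
      unfold ds2
      refine Finset.sum_eq_zero fun j' _ => ?_
      have h2 : rcF x i j R T a0 h a j' k = 0 := by
        funext z
        unfold rcF
        rw [if_neg ha]; rfl
      show Dm j' (uK K (rcF x i j R T a0 h a j' k)) = 0
      rw [h2, uK_zero_fun, Dm_zero_fun]
    have h2 : d1 (0 : Fin d → St d l → ℝ) = 0 := by
      funext j' k' z
      simp [d1, Dp]
    rw [h1, h2]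
    unfold ipF ip2
    simp
  · intro h'; exact absurd (Finset.mem_univ _) h'

lemma rcI_supp {x : St d l} {i j : Fin d} (hij : i ≠ j) {R T q a : ℕ} (hR : R ≤ q) (hT : T ≤ q)
    (hx : ∀ i', wv x i' = a) (hl : a + q ≤ l) : SW a (a + q) (rcI x i j R T) := by
  intro z hz
  unfold rcI at hz
  obtain ⟨r, hr, h1⟩ := Finset.exists_ne_zero_of_sum_ne_zero hz
  obtain ⟨s, hs, h2⟩ := Finset.exists_ne_zero_of_sum_ne_zero h1
  have h3 : z = x + r • eT i + s • eT j := by
    by_contra hne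
    exact h2 (if_neg hne)
  rw [Finset.mem_range] at hr hs
  have h4 : wv (x + r • eT i) = fun i' => wv x i' + if i' = i then r else 0 :=
    wv_nsmul (by rw [hx]; omega)
  have h5 : wv (x + r • eT i) j + s < l := by
    rw [h4]; simp only [if_neg hij.symm]
    rw [hx]; omega
  intro i'
  rw [h3, wv_nsmul h5, h4]
  simp only
  rw [hx]
  by_cases a1 : i' = i
  · have a2 : ¬(i' = j) := fun h => hij (a1.symm.trans h)
    rw [if_pos a1, if_neg a2]; omega
  · rw [if_neg a1]
    split_ifs <;> omega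

lemma rcF_supp {x : St d l} {i j : Fin d} (hij : i ≠ j) {R T q a : ℕ} (hR : R ≤ q) (hT : T ≤ q)
    (hx : ∀ i', wv x i' = a) (hl : a + q ≤ l) (a0 : Fin n) (h : ℝ) (b : Fin n) (j' k' : Fin d) :
    SW a (a + q) (rcF x i j R T a0 h b j' k') := by
  refine (rcI_supp hij hR hT hx hl).congr fun z hz => ?_
  unfold rcF
  split_ifs
  · have h1 := rc2_abs x i j R T j' k' z
    rw [hz, ite_self, ite_self, add_zero] at h1
    have h2 : rc2 x i j R T j' k' z = 0 := abs_eq_zero.1 (le_antisymm h1 (abs_nonneg _))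
    rw [h2, mul_zero]
  · rfl

/-- fourth moment -/
lemma flux4R (e : ℕ) : ∃ C : ℝ, 0 < C ∧ ∀ (b p : ℝ), 1 ≤ b → 1 ≤ p → b ≤ (2 * p) ^ e →
    ∀ (d m : ℕ) [NeZero m], 2 ≤ m → ∀ (x : St d (2 * m)) (i j : Fin d), i ≠ j → ∀ (R T : ℕ)
    (a : Fin n), EX μ L (b ^ 4) (fun U : Ed d (2 * m) → G => (b ^ 2 * ∑ r ∈ Finset.range R,
      ∑ s ∈ Finset.range T, Fz L U a i j (x + r • eT i + s • eT j)) ^ 4) ≤
        C * ((R : ℝ) * T) ^ 4 * p := by
  obtain ⟨C, hC, h⟩ := Pool.Agent.W793.SCH.plaq_moment2 μ (L := L) 2 e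
  refine ⟨4 * C, by positivity, fun b p hb hp hbp d m _ hm x i j hij R T a => ?_⟩
  have hb0 : 0 < b := by linarith
  obtain ⟨I, hI⟩ : ∃ I : Finset (ℕ × ℕ), I = Finset.range R ×ˢ Finset.range T := ⟨_, rfl⟩
  obtain ⟨z, hz⟩ : ∃ z : ℕ × ℕ → St d (2 * m), z = fun t => x + t.1 • eT i + t.2 • eT j :=
    ⟨_, rfl⟩
  have hcard : (I.card : ℝ) = (R : ℝ) * T := by
    rw [hI, Finset.card_product, Finset.card_range, Finset.card_range]; push_cast; ring
  have hpc : ∀ t, Continuous fun U : Ed d (2 * m) → G => (b ^ 4 * we L (plqT U (z t) i j)) ^ 2 :=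
    fun t => (continuous_const.mul (Sm_cont ⟨_, we_mem (L := L) (z t) i j⟩)).pow 2
  have hFz : ∀ (t : ℕ × ℕ), Continuous fun U : Ed d (2 * m) → G => Fz L U a i j (z t) := by
    intro t
    have h1 : (fun U : Ed d (2 * m) → G => Fz L U a i j (z t)) =
        (fiS (L := L) a (SmG_cpl (z t) i j)).1 := by
      funext U; rfl
    rw [h1]; exact Sm_cont _
  have hpt : ∀ U : Ed d (2 * m) → G, (b ^ 2 * ∑ r ∈ Finset.range R,
      ∑ s ∈ Finset.range T, Fz L U a i j (x + r • eT i + s • eT j)) ^ 4 ≤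
      ((R : ℝ) * T) ^ 3 * ∑ t ∈ I, 4 * (b ^ 4 * we L (plqT U (z t) i j)) ^ 2 := by
    intro U
    have e1 : b ^ 2 * ∑ r ∈ Finset.range R,
        ∑ s ∈ Finset.range T, Fz L U a i j (x + r • eT i + s • eT j) =
        ∑ t ∈ I, b ^ 2 * Fz L U a i j (z t) := by
      rw [hI, Finset.sum_product, Finset.mul_sum]
      refine Finset.sum_congr rfl fun r _ => ?_
      rw [Finset.mul_sum, hz]
    rw [e1]
    have e2 : |∑ t ∈ I, b ^ 2 * Fz L U a i j (z t)| ≤ ∑ t ∈ I, b ^ 2 * dv L (plqT U (z t) i j) := by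
      refine (Finset.abs_sum_le_sum_abs _ _).trans (Finset.sum_le_sum fun t _ => ?_)
      rw [abs_mul, abs_of_pos (by positivity : 0 < b ^ 2)]
      refine mul_le_mul_of_nonneg_left ?_ (by positivity)
      unfold Fz
      refine (fi_le _ _).trans ?_
      rw [dv_conj]
    have e3 : (∑ t ∈ I, b ^ 2 * Fz L U a i j (z t)) ^ 4 ≤
        (∑ t ∈ I, b ^ 2 * dv L (plqT U (z t) i j)) ^ 4 := by
      have : (∑ t ∈ I, b ^ 2 * Fz L U a i j (z t)) ^ 4 =
          |∑ t ∈ I, b ^ 2 * Fz L U a i j (z t)| ^ 4 := by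
        rw [show (4 : ℕ) = 2 * 2 by norm_num, pow_mul, pow_mul, sq_abs]
      rw [this]
      exact pow_le_pow_left₀ (abs_nonneg _) e2 4
    have e4 := pow_sum_le_card_mul_sum_pow (s := I) (f := fun t => b ^ 2 * dv L (plqT U (z t) i j))
      (fun t _ => mul_nonneg (by positivity) (dv_nonneg _)) 3
    rw [hcard] at e4
    refine e3.trans (e4.trans (le_of_eq ?_))
    congr 1
    refine Finset.sum_congr rfl fun t _ => ?_
    have h3 := dv_sq (L := L) (plqT U (z t) i j)
    calc (b ^ 2 * dv L (plqT U (z t) i j)) ^ (3 + 1) = b ^ 8 * (dv L (plqT U (z t) i j) ^ 2) ^ 2 := by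
          ring
      _ = _ := by rw [h3]; ring
  have hXc : Continuous fun U : Ed d (2 * m) → G => (b ^ 2 * ∑ r ∈ Finset.range R,
      ∑ s ∈ Finset.range T, Fz L U a i j (x + r • eT i + s • eT j)) ^ 4 := by
    refine (continuous_const.mul (continuous_finsetSum _ fun r _ =>
      continuous_finsetSum _ fun s _ => ?_)).pow 4
    have := hFz (r, s)
    rw [hz] at this
    exact this
  have h1 := EX_mono μ (L := L) (β := b ^ 4) hXc (H := fun U : Ed d (2 * m) → G =>
    ((R : ℝ) * T) ^ 3 * ∑ t ∈ I, 4 * (b ^ 4 * we L (plqT U (z t) i j)) ^ 2)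
    (continuous_const.mul (continuous_finsetSum I fun t _ => continuous_const.mul (hpc t))) hpt
  refine h1.trans ?_
  rw [EX_smul, EX_sum μ I (F := fun t (U : Ed d (2 * m) → G) =>
    4 * (b ^ 4 * we L (plqT U (z t) i j)) ^ 2) fun t _ => continuous_const.mul (hpc t)]
  have h2 : ∀ t ∈ I, EX μ L (b ^ 4) (fun U : Ed d (2 * m) → G =>
      4 * (b ^ 4 * we L (plqT U (z t) i j)) ^ 2) ≤ 4 * (C * p) := by
    intro t _
    rw [EX_smul]
    refine mul_le_mul_of_nonneg_left ?_ (by norm_num)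
    unfold EX
    rw [div_le_iff₀ (Zt_pos μ _)]
    exact h b hb p hp hbp d m hm (z t) i j hij
  have h3 := Finset.sum_le_sum h2
  rw [Finset.sum_const, nsmul_eq_mul, hcard] at h3
  calc ((R : ℝ) * T) ^ 3 * _ ≤ ((R : ℝ) * T) ^ 3 * (((R : ℝ) * T) * (4 * (C * p))) :=
        mul_le_mul_of_nonneg_left h3 (by positivity)
    _ = _ := by ring

/-- **The second moment of the flux through a rectangle.** -/
theorem fluxR (hd : 3 ≤ d) : ∃ C : ℝ, 0 < C ∧ ∀ (b : ℝ) (p : ℕ), 1 ≤ p →
    (p : ℝ) ^ (56 * d + 94) ≤ b → b ≤ (2 * p) ^ (2 * (56 * d + 94)) →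
    ∀ (m : ℕ) [NeZero m], 3 * p ^ 28 + 5 < 2 * m → ∀ (x : St d (2 * m)),
    (∀ i', wv x i' = p ^ 28 + 2) → ∀ (i j : Fin d), i ≠ j → ∀ (R T : ℕ), R ≤ p → T ≤ p →
    ∀ (a : Fin n),
    EX μ L (b ^ 4) (fun U : Ed d (2 * m) → G => (b ^ 2 * ∑ r ∈ Finset.range R,
      ∑ s ∈ Finset.range T, Fz L U a i j (x + r • eT i + s • eT j)) ^ 2) ≤
        T * min (2 * gl (2 * m) i j R) (crd d (p ^ 28)) + R * crd d (p ^ 28) + C := by
  obtain ⟨C1, hC1, h1⟩ := lattice μ (L := L) (n := n) hd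
  obtain ⟨C4, hC4, h4⟩ := flux4R μ (L := L) (2 * (56 * d + 94))
  refine ⟨22 * C1 + C4, by positivity, fun b p hp hb hb' m _ hKm x hx i j hij R T hR hT a => ?_⟩
  obtain ⟨K, hK⟩ : ∃ K, K = p ^ 28 := ⟨_, rfl⟩
  have hp1 : (1 : ℝ) ≤ p := by exact_mod_cast hp
  have hp0 : (0 : ℝ) < p := by linarith
  have hKp : (K : ℝ) = (p : ℝ) ^ 28 := by rw [hK]; push_cast; ring
  have hpK : p ≤ K := by
    rw [hK]; exact Nat.le_self_pow (by norm_num) p
  have hK1 : 1 ≤ K := hp.trans hpK
  have hb1 : 1 ≤ b := le_trans (one_le_pow₀ hp1) hb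
  have hb0 : 0 < b := by linarith
  rw [← hK] at hx hKm ⊢
  have hRp : (R : ℝ) ≤ p := by exact_mod_cast hR
  have hTp : (T : ℝ) ≤ p := by exact_mod_cast hT
  have hR0 : (0 : ℝ) ≤ R := Nat.cast_nonneg _
  have hT0 : (0 : ℝ) ≤ T := Nat.cast_nonneg _
  have hRT : (R : ℝ) * T ≤ (p : ℝ) ^ 2 := by
    rw [pow_two]; exact mul_le_mul hRp hTp hT0 hp0.le
  have hRT0 : 0 ≤ (R : ℝ) * T := mul_nonneg hR0 hT0
  obtain ⟨h, hh⟩ : ∃ h : ℝ, h = 1 / (p : ℝ) ^ 5 := ⟨_, rfl⟩
  have hh0 : 0 < h := by rw [hh]; positivity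
  obtain ⟨f, hf⟩ : ∃ f : Fin n → Fm d (2 * m), f = rcF x i j R T a h := ⟨_, rfl⟩
  obtain ⟨X, hX⟩ : ∃ X : (Ed d (2 * m) → G) → ℝ, X = fun U => b ^ 2 * ∑ r ∈ Finset.range R,
      ∑ s ∈ Finset.range T, Fz L U a i j (x + r • eT i + s • eT j) := ⟨_, rfl⟩
  have hFz : ∀ z : St d (2 * m), Continuous fun U : Ed d (2 * m) → G => Fz L U a i j z := by
    intro z
    have h1 : (fun U : Ed d (2 * m) → G => Fz L U a i j z) =
        (fiS (L := L) a (SmG_cpl z i j)).1 := by
      funext U; rfl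
    rw [h1]; exact Sm_cont _
  have hXc : Continuous X := by
    rw [hX]
    exact continuous_const.mul (continuous_finsetSum _ fun r _ =>
      continuous_finsetSum _ fun s _ => hFz _)
  have hXf : ∀ U, b ^ 2 * Fs L f U = h * X U := by
    intro U
    rw [hf, Fs_rcF x hij, hX]
    ring
  have hE : EX μ L (b ^ 4) (fun U => X U ^ 2) ≤
      2 / h ^ 2 * (1 - EX μ L (b ^ 4) (fun U => Real.cos (h * X U))) +
        h ^ 2 * EX μ L (b ^ 4) (fun U => X U ^ 4) := by
    have c1 : Continuous fun U => Real.cos (h * X U) :=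
      Real.continuous_cos.comp (continuous_const.mul hXc)
    have c2 : Continuous fun U : Ed d (2 * m) → G => (1 : ℝ) - Real.cos (h * X U) :=
      continuous_const.sub c1
    have c3 : Continuous fun U => 2 / h ^ 2 * (1 - Real.cos (h * X U)) :=
      continuous_const.mul c2
    have c4 : Continuous fun U => h ^ 2 * X U ^ 4 := continuous_const.mul (hXc.pow 4)
    have e1 := EX_mono μ (L := L) (β := b ^ 4) (hXc.pow 2) (c3.add c4)
      fun U => sq_le_cos hh0 (X U)
    refine e1.trans (le_of_eq ?_)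
    have e2 := EX_add μ (L := L) (β := b ^ 4) c3 c4
    have e3 := EX_sub μ (L := L) (β := b ^ 4) (F := fun _ => (1 : ℝ)) continuous_const c1
    calc _ = EX μ L (b ^ 4) (fun U => 2 / h ^ 2 * (1 - Real.cos (h * X U))) +
          EX μ L (b ^ 4) (fun U => h ^ 2 * X U ^ 4) := e2
      _ = _ := by rw [EX_smul, EX_smul, e3, EX_one]
  -- the characteristic function
  have hdm : K + p + 2 ≤ 2 * m := by omega
  have hcos := (h1 b hb1 m K hK1 hKm f (fun a' => by rw [hf]; exact rcF_asy _ _ _ _ _ _ _ _)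
    (fun a' j' k' => by
      rw [hf]
      refine (rcF_supp hij hR hT hx (by omega) a h a' j' k').mono le_rfl (by omega))).1
  obtain ⟨V, hV⟩ : ∃ V, V = ipF (d1 (ds2 fun j' k' => uK K (rc2 x i j R T j' k')))
    (d1 (ds2 fun j' k' => uK K (rc2 x i j R T j' k'))) := ⟨_, rfl⟩
  have hVb : V ≤ T * min (2 * gl (2 * m) i j R) (crd d K) + R * crd d K := by
    rw [hV]
    exact rect_energy (l := 2 * m) hd (by omega) x hij (by omega) (by omega)
  have hvf : vK K f = h ^ 2 * V := by rw [hf, rcF_vK, hV]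
  rw [hvf] at hcos
  have hcos2 : (fun U : Ed d (2 * m) → G => Real.cos (b ^ 2 * Fs L f U)) =
      fun U => Real.cos (h * X U) := by
    funext U; rw [hXf]
  rw [hcos2] at hcos
  obtain ⟨E, hEd⟩ : ∃ E, E = C1 * (N1 f / Real.sqrt (Real.sqrt K ^ (d - 2)) +
    (K : ℝ) ^ (2 * d + 3) * (1 + N1 f) ^ 2 / b) := ⟨_, rfl⟩
  rw [← hEd] at hcos
  have hN : N1 f ≤ 2 / (p : ℝ) ^ 3 := by
    rw [hf]
    refine (rcF_N1 x i j R T a hh0.le).trans ?_
    calc 2 * h * ((R : ℝ) * T) ≤ 2 * h * (p : ℝ) ^ 2 :=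
          mul_le_mul_of_nonneg_left hRT (by positivity)
      _ = _ := by rw [hh]; field_simp
  have hN0 : 0 ≤ N1 f := N1_nonneg f
  have hN2 : N1 f ≤ 2 := by
    refine hN.trans ?_
    rw [div_le_iff₀ (by positivity)]
    have : (1 : ℝ) ≤ (p : ℝ) ^ 3 := one_le_pow₀ hp1
    linarith
  have hEb : (p : ℝ) ^ 10 * E ≤ C1 * 11 := by
    rw [hEd]
    have e1 : (p : ℝ) ^ 10 * (N1 f / Real.sqrt (Real.sqrt K ^ (d - 2))) ≤ 2 := by
      have e2 : (p : ℝ) ^ 7 ≤ Real.sqrt (Real.sqrt K ^ (d - 2)) := by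
        have e3 : Real.sqrt K = (p : ℝ) ^ 14 := by
          rw [hKp, show (p : ℝ) ^ 28 = ((p : ℝ) ^ 14) ^ 2 by ring]
          exact Real.sqrt_sq (by positivity)
        rw [e3]
        refine Real.le_sqrt_of_sq_le ?_
        rw [← pow_mul, ← pow_mul]
        exact pow_le_pow_right₀ hp1 (by omega)
      calc (p : ℝ) ^ 10 * (N1 f / Real.sqrt (Real.sqrt K ^ (d - 2))) ≤
          (p : ℝ) ^ 10 * ((2 / (p : ℝ) ^ 3) / (p : ℝ) ^ 7) := by gcongr
        _ = 2 := by field_simp
    have e2 : (p : ℝ) ^ 10 * ((K : ℝ) ^ (2 * d + 3) * (1 + N1 f) ^ 2 / b) ≤ 9 := by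
      rw [mul_div_assoc', div_le_iff₀ hb0]
      have e3 : (1 + N1 f) ^ 2 ≤ 9 := by nlinarith
      have e4 : (p : ℝ) ^ 10 * (K : ℝ) ^ (2 * d + 3) ≤ b := by
        refine le_trans (le_of_eq ?_) hb
        have e5 : 10 + 28 * (2 * d + 3) = 56 * d + 94 := by ring
        rw [hKp, ← pow_mul, ← pow_add, e5]
      calc (p : ℝ) ^ 10 * ((K : ℝ) ^ (2 * d + 3) * (1 + N1 f) ^ 2) =
          ((p : ℝ) ^ 10 * (K : ℝ) ^ (2 * d + 3)) * (1 + N1 f) ^ 2 := by ring
        _ ≤ b * 9 := mul_le_mul e4 e3 (by positivity) hb0.le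
        _ = 9 * b := by ring
    calc _ = C1 * ((p : ℝ) ^ 10 * (N1 f / Real.sqrt (Real.sqrt K ^ (d - 2))) +
          (p : ℝ) ^ 10 * ((K : ℝ) ^ (2 * d + 3) * (1 + N1 f) ^ 2 / b)) := by ring
      _ ≤ C1 * (2 + 9) := mul_le_mul_of_nonneg_left (add_le_add e1 e2) hC1.le
      _ = _ := by ring
  have h5 : 1 - EX μ L (b ^ 4) (fun U => Real.cos (h * X U)) ≤ h ^ 2 * V / 2 + E := by
    have e1 := (abs_le.1 hcos).1
    have e2 := Real.add_one_le_exp (-(h ^ 2 * V / 2))
    linarith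
  have h6 := h4 b p hb1 hp1 hb' d m (by omega) x i j hij R T a
  have h6' : EX μ L (b ^ 4) (fun U => X U ^ 4) ≤ C4 * ((R : ℝ) * T) ^ 4 * p := by
    rw [hX]; exact h6
  have h7 : EX μ L (b ^ 4) (fun U => X U ^ 2) ≤ V + 22 * C1 + C4 := by
    refine hE.trans ?_
    have e1 : 2 / h ^ 2 * (1 - EX μ L (b ^ 4) (fun U => Real.cos (h * X U))) ≤
        2 / h ^ 2 * (h ^ 2 * V / 2 + E) := mul_le_mul_of_nonneg_left h5 (by positivity)
    have e2 : 2 / h ^ 2 * (h ^ 2 * V / 2 + E) = V + 2 * ((p : ℝ) ^ 10 * E) := by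
      rw [hh]; field_simp
    have e3 : h ^ 2 * EX μ L (b ^ 4) (fun U => X U ^ 4) ≤ C4 := by
      calc _ ≤ h ^ 2 * (C4 * ((R : ℝ) * T) ^ 4 * p) :=
            mul_le_mul_of_nonneg_left h6' (by positivity)
        _ ≤ h ^ 2 * (C4 * ((p : ℝ) ^ 2) ^ 4 * p) := by gcongr
        _ = C4 * (1 / p) := by rw [hh]; field_simp
        _ ≤ C4 * 1 := by
            refine mul_le_mul_of_nonneg_left ?_ hC4.le
            rw [div_le_one hp0]; exact hp1
        _ = _ := mul_one _
    linarith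
  rw [hX] at h7
  linarith

end

end Pool.Agent.TH618.YM
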