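import Mathlib
import Pool.Agent.TH618.YM.Loop

/-!
# Rectangular loops in the comb gauge
-/

open MeasureTheory Matrix Filter
open scoped Matrix.Norms.Frobenius ContDiff Topology
open Pool.Agent.H906R3.YM Pool.Agent.W793.YM

namespace Pool.Agent.TH618.YM

set_option linter.unusedSectionVars false
set_option linter.unusedVariables false

noncomputable section

variable {G : Type*} [Group G] [TopologicalSpace G] [IsTopologicalGroup G] [CompactSpace G]
  [SecondCountableTopology G] [MeasurableSpace G] [BorelSpace G] {N n : ℕ} {L : LD G N n}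
  {d l : ℕ} [NeZero l]

/-- the loop around a rectangle to first order -/
theorem rect_estR {x : St d l} {i j : Fin d} {q M : ℕ} (hM : ∀ i', wv x i' + q + 1 < M)
    (hMl : M < l) (hij : i ≠ j) {R T : ℕ} (hR : R ≤ q) (hT : T ≤ q) (U : Ed d l → G) :
    (∀ a, |fi L a (rect (gt (Pc U) U) x i j R T) -
      ∑ r ∈ Finset.range R, ∑ s ∈ Finset.range T, Fz L U a i j (x + r • eT i + s • eT j)| ≤
        16 * (q * (d * M * sB L M U)) ^ 2) ∧
    dv L (rect U x i j R T) ≤ 4 * (q * (d * M * sB L M U)) := by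
  obtain ⟨D, hD⟩ : ∃ D, D = d * M * sB L M U := ⟨_, rfl⟩
  have hs0 := sB_nonneg (L := L) M U
  have hD0 : 0 ≤ D := by rw [hD]; positivity
  obtain ⟨V, hV⟩ : ∃ V, V = gt (Pc U) U := ⟨_, rfl⟩
  have hVt : ∀ z k, V (z, k) = tlT U z k := fun z k => by rw [hV]; rfl
  have hRq : (R : ℝ) ≤ q := by exact_mod_cast hR
  have hTq : (T : ℝ) ≤ q := by exact_mod_cast hT
  have hR0 : (0 : ℝ) ≤ R := Nat.cast_nonneg _
  have hT0 : (0 : ℝ) ≤ T := Nat.cast_nonneg _
  have hRD : R * D ≤ q * D := mul_le_mul_of_nonneg_right hRq hD0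
  have hTD : T * D ≤ q * D := mul_le_mul_of_nonneg_right hTq hD0
  have hRD2 : (R * D) ^ 2 ≤ (q * D) ^ 2 := pow_le_pow_left₀ (by positivity) hRD 2
  have hTD2 : (T * D) ^ 2 ≤ (q * D) ^ 2 := pow_le_pow_left₀ (by positivity) hTD 2
  have hlink : ∀ (r s : ℕ) (k : Fin d), r ≤ q → s ≤ q →
      dv L (V (x + r • eT i + s • eT j, k)) ≤ D := by
    intro r s k hr hs
    rw [hVt, hD]
    refine dv_tlT U (fun i' => ?_) ?_
    · have := wv_two hM hMl hij hr hs i'; omega
    · have := wv_two hM hMl hij hr hs k; omega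
  have l1 : ∀ s < R, dv L (V (x + s • eT i, i)) ≤ D := fun s hs => by
    have := hlink s 0 i (by omega) (Nat.zero_le _)
    rwa [zero_smul, add_zero] at this
  have l2 : ∀ s < T, dv L (V (x + R • eT i + s • eT j, j)) ≤ D := fun s hs =>
    hlink R s j hR (by omega)
  have l3 : ∀ s < R, dv L (V (x + T • eT j + s • eT i, i)) ≤ D := fun s hs => by
    have := hlink s T i (by omega) hT
    rwa [add_right_comm] at this
  have l4 : ∀ s < T, dv L (V (x + s • eT j, j)) ≤ D := fun s hs => by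
    have := hlink 0 s j (Nat.zero_le _) (by omega)
    rwa [zero_smul, add_zero] at this
  rw [← hD, ← hV]
  have hdv : dv L (rect U x i j R T) = dv L (rect V x i j R T) := by
    rw [hV, rect_gt, dv_conj]
  have d1' := (dv_ln l1).trans hRD
  have d2' := (dv_ln l2).trans hTD
  have d3' := (dv_ln l3).trans hRD
  have d4' := (dv_ln l4).trans hTD
  have hqD : 0 ≤ (q : ℝ) * D := by positivity
  constructor
  · intro a
    have f1 := (fi_ln a hD0 l1).trans hRD2
    have f2 := (fi_ln a hD0 l2).trans hTD2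
    have f3 := (fi_ln a hD0 l3).trans hRD2
    have f4 := (fi_ln a hD0 l4).trans hTD2
    have p := fi_plq (L := L) a d1' d2' d3' d4'
    have st := stokes (at' L U a) x i j R T
    have c : |∑ r ∈ Finset.range R, ∑ s ∈ Finset.range T,
        Fz L U a i j (x + r • eT i + s • eT j) -
        ∑ r ∈ Finset.range R, ∑ s ∈ Finset.range T, d1 (at' L U a) i j
          (x + r • eT i + s • eT j)| ≤ 6 * (q * D) ^ 2 := by
      rw [← Finset.sum_sub_distrib]
      refine (Finset.abs_sum_le_sum_abs _ _).trans ?_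
      calc _ ≤ ∑ _r ∈ Finset.range R, (T : ℝ) * (6 * D ^ 2) := by
            refine Finset.sum_le_sum fun r hr => ?_
            rw [← Finset.sum_sub_distrib]
            refine (Finset.abs_sum_le_sum_abs _ _).trans ?_
            calc _ ≤ ∑ _s ∈ Finset.range T, 6 * D ^ 2 := by
                  refine Finset.sum_le_sum fun s hs => ?_
                  rw [hD]
                  exact Fz_closed (fun i' => wv_two hM hMl hij
                    ((Finset.mem_range.1 hr).le.trans hR)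
                    ((Finset.mem_range.1 hs).le.trans hT) i') hMl a i j
              _ = _ := by simp
        _ = 6 * ((R * D) * (T * D)) := by
            rw [Finset.sum_const, Finset.card_range, nsmul_eq_mul]; ring
        _ ≤ 6 * ((q * D) * (q * D)) := by gcongr
        _ = _ := by ring
    rw [st] at c
    have e1 : ∀ (z : St d l) (k : Fin d), fi L a (V (z, k)) = at' L U a k z := fun z k => by
      rw [hVt]; rfl
    simp only [e1] at f1 f2 f3 f4
    unfold rect
    rw [abs_le] at f1 f2 f3 f4 p c ⊢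
    constructor <;> nlinarith [f1.1, f1.2, f2.1, f2.2, f3.1, f3.2, f4.1, f4.2, p.1, p.2, c.1, c.2]
  · rw [hdv]
    unfold rect
    have m1 := dv_mul (L := L) (ln V i R x * ln V j T (x + R • eT i) * (ln V i R (x + T • eT j))⁻¹)
      (ln V j T x)⁻¹
    have m2 := dv_mul (L := L) (ln V i R x * ln V j T (x + R • eT i)) (ln V i R (x + T • eT j))⁻¹
    have m3 := dv_mul (L := L) (ln V i R x) (ln V j T (x + R • eT i))
    rw [dv_inv] at m1 m2
    linarith

/-- the square of the deviation of the loop -/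
theorem rect_dvR {x : St d l} {i j : Fin d} {q M : ℕ} (hM : ∀ i', wv x i' + q + 1 < M)
    (hMl : M < l) (hij : i ≠ j) {C : ℝ} (hC : 0 < C)
    (hcar : ∀ g : G, dv L g ^ 2 ≤ ∑ a, fi L a g ^ 2 + C * dv L g ^ 4) {R T : ℕ} (hR : R ≤ q)
    (hT : T ≤ q) {δ : ℝ} (hδ : 0 < δ) (U : Ed d l → G) :
    dv L (rect U x i j R T) ^ 2 ≤ (1 + δ) * ∑ a, (∑ r ∈ Finset.range R, ∑ s ∈ Finset.range T,
      Fz L U a i j (x + r • eT i + s • eT j)) ^ 2 +
        (256 * n * (1 + 1 / δ) + 256 * C) * (q * (d * M * sB L M U)) ^ 4 := by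
  obtain ⟨h1, h2⟩ := rect_estR (L := L) hM hMl hij hR hT U
  obtain ⟨E, hE⟩ : ∃ E, E = q * (d * M * sB L M U) := ⟨_, rfl⟩
  rw [← hE] at h1 h2 ⊢
  have h3 := hcar (rect (gt (Pc U) U) x i j R T)
  have h4 : dv L (rect (gt (Pc U) U) x i j R T) = dv L (rect U x i j R T) := by
    rw [rect_gt, dv_conj]
  rw [h4] at h3
  have h5 : dv L (rect U x i j R T) ^ 4 ≤ (4 * E) ^ 4 := pow_le_pow_left₀ (dv_nonneg _) h2 4
  have h6 : ∀ a, fi L a (rect (gt (Pc U) U) x i j R T) ^ 2 ≤
      (1 + δ) * (∑ r ∈ Finset.range R, ∑ s ∈ Finset.range T,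
        Fz L U a i j (x + r • eT i + s • eT j)) ^ 2 + 256 * (1 + 1 / δ) * E ^ 4 := by
    intro a
    obtain ⟨y, hy⟩ : ∃ y, y = fi L a (rect (gt (Pc U) U) x i j R T) := ⟨_, rfl⟩
    obtain ⟨z, hz⟩ : ∃ z, z = ∑ r ∈ Finset.range R, ∑ s ∈ Finset.range T,
        Fz L U a i j (x + r • eT i + s • eT j) := ⟨_, rfl⟩
    have h7 := h1 a
    rw [← hy, ← hz] at h7
    rw [← hy, ← hz]
    have h8 : (y - z) ^ 2 ≤ (16 * E ^ 2) ^ 2 := by
      rw [← sq_abs]; exact pow_le_pow_left₀ (abs_nonneg _) h7 2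
    have h9 : y ^ 2 ≤ (1 + δ) * z ^ 2 + (1 + 1 / δ) * (y - z) ^ 2 := by
      have e : (1 + δ) * z ^ 2 + (1 + 1 / δ) * (y - z) ^ 2 - y ^ 2 =
          (δ * z - (y - z)) ^ 2 / δ := by
        field_simp
        ring
      have : 0 ≤ (δ * z - (y - z)) ^ 2 / δ := by positivity
      linarith
    have h10 : (1 + 1 / δ) * (y - z) ^ 2 ≤ (1 + 1 / δ) * (16 * E ^ 2) ^ 2 :=
      mul_le_mul_of_nonneg_left h8 (by positivity)
    calc y ^ 2 ≤ (1 + δ) * z ^ 2 + (1 + 1 / δ) * (16 * E ^ 2) ^ 2 := by linarith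
      _ = _ := by ring
  have h7 : ∑ a, fi L a (rect (gt (Pc U) U) x i j R T) ^ 2 ≤
      (1 + δ) * ∑ a, (∑ r ∈ Finset.range R, ∑ s ∈ Finset.range T,
        Fz L U a i j (x + r • eT i + s • eT j)) ^ 2 + n * (256 * (1 + 1 / δ) * E ^ 4) := by
    refine (Finset.sum_le_sum fun a _ => h6 a).trans (le_of_eq ?_)
    rw [Finset.sum_add_distrib, ← Finset.mul_sum]
    simp
  have h8 := mul_le_mul_of_nonneg_left h5 hC.le
  calc dv L (rect U x i j R T) ^ 2 ≤ _ := h3
    _ ≤ ((1 + δ) * ∑ a, (∑ r ∈ Finset.range R, ∑ s ∈ Finset.range T,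
        Fz L U a i j (x + r • eT i + s • eT j)) ^ 2 + n * (256 * (1 + 1 / δ) * E ^ 4)) +
        C * (4 * E) ^ 4 := add_le_add h7 h8
    _ = _ := by ring

end

end Pool.Agent.TH618.YM
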