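import Mathlib
import Pool.Agent.TH618.YM.RP

/-!
# Reflection positivity for the reflections in hyperplanes through the sites
-/

open MeasureTheory Matrix Filter
open scoped Matrix.Norms.Frobenius ContDiff Topology
open Pool.Agent.H906R3.YM hiding Pl
open Pool.Agent.W793.YM

namespace Pool.Agent.TH618.YM

set_option linter.unusedSectionVars false
set_option linter.unusedVariables false

noncomputable section

section merge

variable {E : Type*} [Fintype E] [DecidableEq E] {G : Type*} [Group G] [TopologicalSpace G]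
  [IsTopologicalGroup G] [CompactSpace G] [SecondCountableTopology G] [MeasurableSpace G]
  [BorelSpace G] (μ : Measure G) [IsProbabilityMeasure μ]

/-- the configuration with prescribed values on `P` -/
def mg (P : E → Prop) [DecidablePred P] (p : {e // P e} → G) (U : E → G) : E → G :=
  fun e => if h : P e then p ⟨e, h⟩ else U e

lemma mg_cont (P : E → Prop) [DecidablePred P] (p : {e // P e} → G) : Continuous (mg P p) := by
  refine continuous_pi fun e => ?_
  unfold mg
  by_cases h : P e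
  · simp only [h, dif_pos]; exact continuous_const
  · simp only [h, dif_neg, not_false_eq_true]; exact continuous_apply e

lemma integral_merge (P : E → Prop) [DecidablePred P] {F : (E → G) → ℝ} (hF : Continuous F) :
    ∫ U, F U ∂(ME μ E) =
      ∫ p, (∫ U, F (mg P p U) ∂(ME μ E)) ∂(Measure.pi fun _ : {e // P e} => μ) := by
  have he := measurePreserving_piEquivPiSubtypeProd (fun _ : E => μ) P
  obtain ⟨φ, hφ⟩ : ∃ φ, φ = MeasurableEquiv.piEquivPiSubtypeProd (fun _ : E => G) P := ⟨_, rfl⟩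
  rw [← hφ] at he
  have hs : MeasurePreserving φ.symm ((Measure.pi fun _ => μ).prod (Measure.pi fun _ => μ))
      (ME μ E) := he.symm φ
  have hval : ∀ z e, φ.symm z e = if h : P e then z.1 ⟨e, h⟩ else z.2 ⟨e, h⟩ := by
    intro z e
    rw [hφ]; rfl
  have hi : Integrable (fun z => F (φ.symm z))
      ((Measure.pi fun _ => μ).prod (Measure.pi fun _ => μ)) :=
    (hs.integrable_comp_emb φ.symm.measurableEmbedding).2 (integrable_cont μ hF)
  rw [← hs.integral_comp φ.symm.measurableEmbedding F, integral_prod _ hi]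
  refine integral_congr_ae (Filter.Eventually.of_forall fun p => ?_)
  simp only
  have h1 : ∀ U, F (mg P p U) = (fun z : ({e // P e} → G) × ({e // ¬P e} → G) =>
      (fun _ => (1 : ℝ)) z.1 * (fun u => F (φ.symm (p, u))) z.2) (φ U) := by
    intro U
    simp only [one_mul]
    congr 1
    funext e
    rw [hval]
    unfold mg
    by_cases h : P e
    · rw [dif_pos h, dif_pos h]
    · rw [dif_neg h, dif_neg h, hφ]; rfl
  simp only [h1]
  rw [he.integral_comp φ.measurableEmbedding
    (fun z : ({e // P e} → G) × ({e // ¬P e} → G) =>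
      (fun _ => (1 : ℝ)) z.1 * (fun u => F (φ.symm (p, u))) z.2)]
  rw [integral_prod_mul (μ := Measure.pi fun _ : {e // P e} => μ)
    (ν := Measure.pi fun _ : {e // ¬P e} => μ) (fun _ => (1 : ℝ))
    (fun u => F (φ.symm (p, u)))]
  simp

variable [μ.IsMulLeftInvariant] [μ.IsMulRightInvariant] [μ.IsInvInvariant]

/-- the form of a reflection with fixed links -/
def SB (T : Refl E) (f g : (E → G) → ℝ) : ℝ := ∫ U, f U * g (T.tU U) ∂(ME μ E)

lemma SB_symm (T : Refl E) (f g : (E → G) → ℝ) : SB μ T f g = SB μ T g f := by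
  unfold SB
  rw [← T.integral μ]
  refine integral_congr_ae (Filter.Eventually.of_forall fun U => ?_)
  simp only
  rw [T.tU_tU]; ring

/-- positivity, the links in `P` being fixed -/
lemma SB_self (T : Refl E) (P : E → Prop) (hP : ∀ (U : E → G) e, P e → T.tU U e = U e)
    (hPth : ∀ e, P (T.th e) ↔ P e)
    {f : (E → G) → ℝ} (hf : Continuous f) (hd : Dep (fun e => P e ∨ T.R e) f) :
    0 ≤ SB μ T f f := by
  classical
  unfold SB
  have hc : Continuous fun U => f U * f (T.tU U) := hf.mul (hf.comp T.tU_cont)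
  rw [integral_merge μ P hc]
  refine integral_nonneg fun p => ?_
  show 0 ≤ ∫ U, f (mg P p U) * f (T.tU (mg P p U)) ∂(ME μ E)
  have h1 : ∀ U : E → G, T.tU (mg P p U) = mg P p (T.tU U) := by
    intro U
    funext e
    by_cases h : P e
    · rw [hP _ _ h]
      unfold mg
      rw [dif_pos h, dif_pos h]
    · have h2 : ¬P (T.th e) := fun h' => h ((hPth e).1 h')
      unfold Refl.tU mg
      rw [dif_neg h, dif_neg h2]
  have hdp : Dep T.R fun U : E → G => f (mg P p U) := by
    intro U U' h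
    refine hd _ _ fun e he => ?_
    unfold mg
    by_cases h' : P e
    · rw [dif_pos h', dif_pos h']
    · rw [dif_neg h', dif_neg h']
      exact h e (he.resolve_left h')
  have h2 : ∀ U : E → G, f (mg P p U) * f (T.tU (mg P p U)) =
      (fun U => f (mg P p U)) U * (fun U => f (mg P p U)) (T.tU U) := by
    intro U
    simp only [h1]
  simp only [h2]
  have h3 := T.sq μ hdp
  rw [h3]
  exact sq_nonneg _

lemma SB_quad (T : Refl E) (P : E → Prop) (hP : ∀ (U : E → G) e, P e → T.tU U e = U e)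
    (hPth : ∀ e, P (T.th e) ↔ P e)
    {f g : (E → G) → ℝ} (hf : Continuous f) (hd : Dep (fun e => P e ∨ T.R e) f)
    (hg : Continuous g) (hdg : Dep (fun e => P e ∨ T.R e) g) (t : ℝ) :
    0 ≤ SB μ T f f + 2 * t * SB μ T f g + t ^ 2 * SB μ T g g := by
  have h1 : Continuous fun U => f U + t * g U := hf.add (continuous_const.mul hg)
  have h2 : Dep (fun e => P e ∨ T.R e) fun U => f U + t * g U := fun U U' h => by
    show f U + t * g U = f U' + t * g U'
    rw [hd U U' h, hdg U U' h]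
  have h3 := SB_self μ T P hP hPth h1 h2
  have hi : ∀ a b : (E → G) → ℝ, Continuous a → Continuous b →
      Integrable (fun U => a U * b (T.tU U)) (ME μ E) := fun a b ha hb =>
    integrable_cont μ (ha.mul (hb.comp T.tU_cont))
  have hlin : ∀ h : (E → G) → ℝ, Continuous h → SB μ T (fun U => f U + t * g U) h =
      SB μ T f h + t * SB μ T g h := by
    intro h hh
    unfold SB
    rw [← integral_const_mul, ← integral_add (hi _ _ hf hh) ((hi _ _ hg hh).const_mul t)]
    refine integral_congr_ae (Filter.Eventually.of_forall fun U => ?_)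
    simp only
    ring
  have h4 : SB μ T (fun U => f U + t * g U) (fun U => f U + t * g U) =
      SB μ T f f + t * SB μ T f g + t * SB μ T g f + t ^ 2 * SB μ T g g := by
    rw [hlin _ h1, SB_symm μ T f, SB_symm μ T g, hlin _ hf, hlin _ hg, SB_symm μ T g f]
    ring
  rw [h4, SB_symm μ T g f] at h3
  linarith

end merge

/-! ### the reflection of the lattice -/

section arith

variable {m : ℕ} [NeZero m]

/-- `v < m` -/
def H3 (m : ℕ) (v : ZMod (2 * m)) : Prop := v.val < m

instance : DecidablePred (H3 m) := fun v => by unfold H3; infer_instance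

lemma val_neg_one_sub (v : ZMod (2 * m)) : (-1 - v).val = 2 * m - 1 - v.val := by
  have h0 := val_lt' v
  have h1 : -1 - v = ((2 * m - 1 - v.val : ℕ) : ZMod (2 * m)) := by
    rw [Nat.cast_sub (by omega), ZMod.natCast_zmod_val, Nat.cast_sub (by omega), ZMod.natCast_self]
    simp
  rw [h1, val_nat (by omega)]

lemma H3_neg (v : ZMod (2 * m)) : H3 m (-1 - v) ↔ ¬H3 m v := by
  have h0 := val_lt' v
  unfold H3
  rw [val_neg_one_sub]
  omega

lemma part2 (hm : 2 ≤ m) (v : ZMod (2 * m)) (f : ℝ) :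
    f = (if H2 m v then f else 0) + (if H2 m (-v) then f else 0) +
      (if v = 0 ∨ v = (m : ZMod (2 * m)) then f else 0) := by
  have h := part hm v f
  have h1 : (if v = 0 ∨ v = (m : ZMod (2 * m)) then f else 0) = (if v = 0 then f else 0) +
      (if v = (m : ZMod (2 * m)) then f else 0) := by
    by_cases h0 : v = 0
    · have h2 : ¬(v = (m : ZMod (2 * m))) := by
        rw [eq_m_iff hm, (eq_zero_iff v).1 h0]; omega
      rw [if_pos (Or.inl h0), if_pos h0, if_neg h2, add_zero]
    · by_cases h2 : v = (m : ZMod (2 * m))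
      · rw [if_pos (Or.inr h2), if_neg h0, if_pos h2, zero_add]
      · rw [if_neg (by tauto), if_neg h0, if_neg h2, add_zero]
  rw [h1]
  linarith

end arith

variable {d m : ℕ} [NeZero m]

/-- reflection of the time links -/
def rC (i0 : Fin d) (x : Fin d → ZMod (2 * m)) : Fin d → ZMod (2 * m) :=
  Function.update x i0 (-1 - x i0)

lemma rC_rC (i0 : Fin d) (x : Fin d → ZMod (2 * m)) : rC i0 (rC i0 x) = x := by
  unfold rC
  funext i
  by_cases h : i = i0
  · subst h; simp
  · simp [h]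

lemma rC_same (i0 : Fin d) (x : Fin d → ZMod (2 * m)) : rC i0 x i0 = -1 - x i0 := by simp [rC]

/-- the reflection of the periodic lattice in a hyperplane through the sites -/
def SR (hm : 2 ≤ m) (i0 : Fin d) : Refl (Ed d (2 * m)) where
  R e := if e.2 = i0 then H3 m (e.1 i0) else H2 m (e.1 i0)
  th e := if e.2 = i0 then (rC i0 e.1, e.2) else (rB i0 e.1, e.2)
  iv e := e.2 = i0
  th_th e := by
    by_cases h : e.2 = i0
    · simp only [h, if_true, rC_rC]
      exact Prod.ext rfl h.symm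
    · simp only [h, if_false, rB_rB]
  th_R e := by
    by_cases h : e.2 = i0
    · simp only [h, if_true, rC_same]
      intro h1 h2
      exact (H3_neg _).1 h2 h1
    · simp only [h, if_false, rB_same]
      exact H2_neg hm
  iv_th e := by
    by_cases h : e.2 = i0
    · simp only [h, if_true]
    · simp only [h, if_false]
  J := ∅
  J_R e he := absurd he (Finset.notMem_empty e)
  J_iv e he := absurd he (Finset.notMem_empty e)

/-- the links in the hyperplanes -/
def PP (i0 : Fin d) (e : Ed d (2 * m)) : Prop :=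
  e.2 ≠ i0 ∧ (e.1 i0 = 0 ∨ e.1 i0 = (m : ZMod (2 * m)))

section alg

variable {G : Type*} [Group G] {hm : 2 ≤ m} {i0 : Fin d}

lemma sU_i0 (U : Ed d (2 * m) → G) (x : Fin d → ZMod (2 * m)) :
    (SR hm i0).tU U (x, i0) = (U (rC i0 x, i0))⁻¹ := by
  unfold Refl.tU SR
  simp

lemma sU_ne (U : Ed d (2 * m) → G) (x : Fin d → ZMod (2 * m)) {k : Fin d} (hk : k ≠ i0) :
    (SR hm i0).tU U (x, k) = U (rB i0 x, k) := by
  unfold Refl.tU SR
  simp [hk]

lemma rC_add {k : Fin d} (hk : k ≠ i0) (x : Fin d → ZMod (2 * m)) :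
    rC i0 (x + eT k) = rC i0 x + eT k := by
  unfold rC eT
  funext i
  by_cases h : i = i0
  · subst h; simp [hk.symm]
  · simp [h]

lemma rB_eq (x : Fin d → ZMod (2 * m)) : rB i0 x = rC i0 x + eT i0 := by
  unfold rB rC eT
  funext i
  by_cases h : i = i0
  · subst h; simp; ring
  · simp [h]

lemma rB_eq' (x : Fin d → ZMod (2 * m)) : rB i0 (x + eT i0) = rC i0 x := by
  unfold rB rC eT
  funext i
  by_cases h : i = i0
  · subst h; simp; ring
  · simp [h]

lemma rB_fix {x : Fin d → ZMod (2 * m)} (h : x i0 = 0 ∨ x i0 = (m : ZMod (2 * m))) :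
    rB i0 x = x := by
  unfold rB
  rcases h with h | h
  · rw [h, neg_zero, ← h, Function.update_eq_self]
  · have h5 : -(m : ZMod (2 * m)) = m := by
      have h6 : ((2 * m : ℕ) : ZMod (2 * m)) = 0 := ZMod.natCast_self _
      push_cast at h6
      linear_combination -h6
    rw [h, h5, ← h, Function.update_eq_self]

lemma PP_fix (U : Ed d (2 * m) → G) (e : Ed d (2 * m)) (h : PP i0 e) :
    (SR hm i0).tU U e = U e := by
  obtain ⟨x, k⟩ := e
  obtain ⟨hk, hx⟩ := h
  rw [sU_ne _ _ hk, rB_fix hx]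

lemma PP_th (e : Ed d (2 * m)) : PP i0 ((SR hm i0).th e) ↔ PP i0 e := by
  obtain ⟨x, k⟩ := e
  have hz : -(m : ZMod (2 * m)) = m := by
    have h6 : ((2 * m : ℕ) : ZMod (2 * m)) = 0 := ZMod.natCast_self _
    push_cast at h6
    linear_combination -h6
  unfold PP SR
  by_cases h : k = i0
  · simp [h]
  · simp only [h, if_false, rB_same]
    constructor
    · rintro ⟨h1, h2⟩
      refine ⟨h1, ?_⟩
      rcases h2 with h2 | h2
      · left; exact neg_eq_zero.1 h2
      · right; rw [← neg_neg (x i0), h2, hz]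
    · rintro ⟨h1, h2⟩
      refine ⟨h1, ?_⟩
      rcases h2 with h2 | h2
      · left; rw [h2, neg_zero]
      · right; rw [h2, hz]

end alg

variable {G : Type*} [Group G] [TopologicalSpace G] [IsTopologicalGroup G] [CompactSpace G]
  [SecondCountableTopology G] [MeasurableSpace G] [BorelSpace G] {N n : ℕ} {L : LD G N n}
  {hm : 2 ≤ m} {i0 : Fin d}

lemma plqT_sA (U : Ed d (2 * m) → G) (x : Fin d → ZMod (2 * m)) {i j : Fin d} (hi : i ≠ i0)
    (hj : j ≠ i0) : plqT ((SR hm i0).tU U) x i j = plqT U (rB i0 x) i j := by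
  unfold plqT
  rw [sU_ne _ _ hi, sU_ne _ _ hi, sU_ne _ _ hj, sU_ne _ _ hj, rB_add hi, rB_add hj]

lemma we_plqT_sB (U : Ed d (2 * m) → G) (x : Fin d → ZMod (2 * m)) {k : Fin d} (hk : k ≠ i0) :
    we L (plqT ((SR hm i0).tU U) x i0 k) = we L (plqT U (rC i0 x) i0 k) := by
  have h1 : plqT ((SR hm i0).tU U) x i0 k =
      (U (rC i0 x, i0))⁻¹ * (plqT U (rC i0 x) i0 k)⁻¹ * U (rC i0 x, i0) := by
    unfold plqT
    rw [sU_ne _ _ hk, sU_ne _ _ hk, sU_i0, sU_i0, rC_add hk, rB_eq', rB_eq]
    group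
  rw [h1, we_conj', we_inv]

lemma aA_sU (U : Ed d (2 * m) → G) (x : Fin d → ZMod (2 * m)) :
    aA L i0 ((SR hm i0).tU U) x = aA L i0 U (rB i0 x) := by
  unfold aA
  refine Finset.sum_congr rfl fun i _ => Finset.sum_congr rfl fun j _ => ?_
  split_ifs with hij
  · rw [plqT_sA _ _ hij.2.1 hij.2.2]
  · rfl

lemma aB_sU (U : Ed d (2 * m) → G) (x : Fin d → ZMod (2 * m)) :
    aB L i0 ((SR hm i0).tU U) x = aB L i0 U (rC i0 x) := by
  unfold aB
  refine Finset.sum_congr rfl fun k _ => ?_
  split_ifs with hk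
  · rw [we_plqT_sB _ _ hk]
  · rfl

variable (L) in
/-- the action of one half, with half of the action of the hyperplanes -/
def sS (i0 : Fin d) (U : Ed d (2 * m) → G) : ℝ :=
  ∑ x, (if H2 m (x i0) then aA L i0 U x else 0) + ∑ x, (if H3 m (x i0) then aB L i0 U x else 0) +
    (1 / 2) * ∑ x, (if x i0 = 0 ∨ x i0 = (m : ZMod (2 * m)) then aA L i0 U x else 0)

/-- the reflection as an equivalence -/
def eC (i0 : Fin d) : (Fin d → ZMod (2 * m)) ≃ (Fin d → ZMod (2 * m)) :=
  ⟨rC i0, rC i0, rC_rC i0, rC_rC i0⟩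

lemma sS_sU (hm : 2 ≤ m) (U : Ed d (2 * m) → G) : sS L i0 ((SR hm i0).tU U) =
    ∑ x, (if H2 m (-x i0) then aA L i0 U x else 0) +
      ∑ x, (if H3 m (x i0) then 0 else aB L i0 U x) +
      (1 / 2) * ∑ x, (if x i0 = 0 ∨ x i0 = (m : ZMod (2 * m)) then aA L i0 U x else 0) := by
  unfold sS
  congr 1
  · congr 1
    · rw [← Equiv.sum_comp (eB (m := m) i0)]
      refine Finset.sum_congr rfl fun x _ => ?_
      have h1 : eB (m := m) i0 x = rB i0 x := rfl
      rw [h1, aA_sU, rB_rB, rB_same]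
    · rw [← Equiv.sum_comp (eC (m := m) i0)]
      refine Finset.sum_congr rfl fun x _ => ?_
      have h1 : eC (m := m) i0 x = rC i0 x := rfl
      rw [h1, aB_sU, rC_rC, rC_same]
      by_cases h : H3 m (x i0)
      · rw [if_pos h, if_neg (fun h' => (H3_neg _).1 h' h)]
      · rw [if_neg h, if_pos ((H3_neg _).2 h)]
  · congr 1
    refine Finset.sum_congr rfl fun x _ => ?_
    split_ifs with h
    · rw [aA_sU, rB_fix h]
    · rfl

lemma act_sS (hm : 2 ≤ m) (U : Ed d (2 * m) → G) :
    act L U = sS L i0 U + sS L i0 ((SR hm i0).tU U) := by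
  rw [act_eq i0, sS_sU]
  unfold sS
  have h1 : ∑ x, aA L i0 U x = ∑ x, (if H2 m (x i0) then aA L i0 U x else 0) +
      ∑ x, (if H2 m (-x i0) then aA L i0 U x else 0) +
      ∑ x, (if x i0 = 0 ∨ x i0 = (m : ZMod (2 * m)) then aA L i0 U x else 0) := by
    rw [← Finset.sum_add_distrib, ← Finset.sum_add_distrib]
    exact Finset.sum_congr rfl fun x _ => part2 hm (x i0) _
  have h2 : ∑ x, aB L i0 U x = ∑ x, (if H3 m (x i0) then aB L i0 U x else 0) +
      ∑ x, (if H3 m (x i0) then 0 else aB L i0 U x) := by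
    rw [← Finset.sum_add_distrib]
    refine Finset.sum_congr rfl fun x _ => ?_
    split_ifs <;> ring
  rw [h1, h2]
  ring

lemma sS_mem (i0 : Fin d) : (sS L i0 : (Ed d (2 * m) → G) → ℝ) ∈ Sm L (Ed d (2 * m)) := by
  unfold sS
  exact Subalgebra.add_mem _ (Subalgebra.add_mem _ (mem_sum _ fun x _ => mem_ite _ (aA_mem i0 x))
    (mem_sum _ fun x _ => mem_ite _ (aB_mem i0 x)))
    (Subalgebra.smul_mem _ (mem_sum _ fun x _ => mem_ite _ (aA_mem i0 x)) (1 / 2 : ℝ))

lemma sS_cont (i0 : Fin d) : Continuous (sS L i0 : (Ed d (2 * m) → G) → ℝ) :=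
  Sm_cont ⟨_, sS_mem (L := L) i0⟩

/-- the links of one half and of the hyperplanes -/
def HQ (i0 : Fin d) (e : Ed d (2 * m)) : Prop :=
  if e.2 = i0 then (e.1 i0).val < m else (e.1 i0).val ≤ m

lemma HQ_le (hm : 2 ≤ m) (i0 : Fin d) (e : Ed d (2 * m)) (h : HQ i0 e) :
    PP i0 e ∨ (SR hm i0).R e := by
  obtain ⟨x, k⟩ := e
  unfold HQ at h
  unfold PP SR
  by_cases hk : k = i0
  · right
    simp only [hk, if_true] at h ⊢
    exact h
  · simp only [hk, if_false] at h ⊢
    unfold H2
    rw [eq_zero_iff, eq_m_iff hm]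
    by_cases h0 : (x i0).val = 0
    · left; exact ⟨hk, Or.inl h0⟩
    · by_cases h1 : (x i0).val = m
      · left; exact ⟨hk, Or.inr h1⟩
      · right; omega

lemma Dep_HQ {α : Type*} (hm : 2 ≤ m) {f : (Ed d (2 * m) → G) → α} (h : Dep (HQ i0) f) :
    Dep (fun e => PP i0 e ∨ (SR hm i0).R e) f :=
  fun U U' hU => h U U' fun e he => hU e (HQ_le hm i0 e he)

lemma sS_dep (hm : 2 ≤ m) : Dep (HQ i0) (sS (m := m) L i0 : (Ed d (2 * m) → G) → ℝ) := by
  intro U U' h
  have h1 : ∀ y k, k ≠ i0 → (y i0).val ≤ m → U (y, k) = U' (y, k) := fun y k hk hy => by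
    refine h _ ?_
    unfold HQ
    rw [if_neg hk]; exact hy
  have h2 : ∀ y, (y i0).val < m → U (y, i0) = U' (y, i0) := fun y hy => by
    refine h _ ?_
    unfold HQ
    rw [if_pos rfl]; exact hy
  unfold sS
  congr 1
  · congr 1
    · refine Finset.sum_congr rfl fun x _ => ?_
      split_ifs with hx
      · exact aA_congr fun y k hk hy => h1 y k hk (by rw [hy]; exact hx.2.le)
      · rfl
    · refine Finset.sum_congr rfl fun x _ => ?_
      split_ifs with hx
      · have hx' : (x i0).val < m := hx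
        refine aB_congr (fun y k hk hy => ?_) (fun y hy => h2 y (by rw [hy]; exact hx'))
        rcases hy with hy | hy
        · exact h1 y k hk (by rw [hy]; exact hx'.le)
        · refine h1 y k hk ?_
          rw [hy, val_add_one']
          split_ifs <;> omega
      · rfl
  · congr 1
    refine Finset.sum_congr rfl fun x _ => ?_
    split_ifs with hx
    · refine aA_congr fun y k hk hy => h1 y k hk ?_
      rw [hy]
      rcases hx with hx | hx
      · rw [(eq_zero_iff _).1 hx]; omega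
      · rw [(eq_m_iff hm _).1 hx]
    · rfl

/-! ### loops -/

section loops

variable {τ i : Fin d}

lemma ln_sU_ne (hi : i ≠ τ) (U : Ed d (2 * m) → G) (k : ℕ) (x : Fin d → ZMod (2 * m)) :
    ln ((SR hm τ).tU U) i k x = ln U i k (rB τ x) := by
  induction k generalizing x with
  | zero => rfl
  | succ k ih => rw [ln_succ, ln_succ, ih, sU_ne _ _ hi, rB_add hi]

lemma ln_sU_same (U : Ed d (2 * m) → G) (k : ℕ) (x : Fin d → ZMod (2 * m)) :
    ln ((SR hm τ).tU U) τ k x = (ln U τ k (rB τ x - k • eT τ))⁻¹ := by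
  induction k generalizing x with
  | zero => rw [ln_zero, ln_zero, inv_one]
  | succ k ih =>
    rw [ln_succ, ih, sU_i0, rB_eq', ← _root_.mul_inv_rev]
    have h1 : rB τ x - (k + 1) • eT τ = rC τ x - k • (eT τ : Fin d → ZMod (2 * m)) := by
      rw [rB_eq, add_smul, one_smul]; abel
    rw [h1, ln_succ']
    congr 2
    rw [sub_add_cancel]

lemma rect_site (hm : 2 ≤ m) (hi : i ≠ τ) (U : Ed d (2 * m) → G) {x : Fin d → ZMod (2 * m)}
    (hx : x τ = 0) (R T1 T2 : ℕ) :
    ∃ g : G, rect U (x - T1 • eT τ) τ i (T1 + T2) R =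
      g⁻¹ * (up τ i R x T2 U * (up τ i R x T1 ((SR hm τ).tU U))⁻¹) * g := by
  refine ⟨ln ((SR hm τ).tU U) τ T1 x, ?_⟩
  unfold rect up
  have hx' : (x + R • eT i : Fin d → ZMod (2 * m)) τ = 0 := by rw [nsmul_ne hi, hx]
  have f1 : rB τ x = x := rB_fix (Or.inl hx)
  have f2 : rB τ (x + R • eT i) = x + R • eT i := rB_fix (Or.inl hx')
  have e1 : x - T1 • eT τ + R • eT i = x + R • eT i - T1 • (eT τ : Fin d → ZMod (2 * m)) := by
    abel
  have e2 : x - T1 • eT τ + (T1 + T2) • eT τ = x + T2 • (eT τ : Fin d → ZMod (2 * m)) := by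
    rw [add_smul T1 T2]; abel
  have e3 : rB τ (x + T1 • eT τ) = x - T1 • eT τ := by
    funext k
    unfold rB eT
    by_cases hk : k = τ
    · subst hk; simp [hx]
    · simp [hk]
  rw [e1, ln_add, ln_add, sub_add_cancel, sub_add_cancel, e2, ln_sU_ne hi, e3, ln_sU_same,
    ln_sU_same, f1, f2]
  group

lemma ln_HQ_same (hm : 2 ≤ m) {U U' : Ed d (2 * m) → G} (h : ∀ e, HQ τ e → U e = U' e)
    {z : Fin d → ZMod (2 * m)} (hz : z τ = 0) {T : ℕ} (hT : T ≤ m) :
    ln U τ T z = ln U' τ T z := by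
  have key : ∀ (k a : ℕ) (z : Fin d → ZMod (2 * m)), z τ = (a : ZMod (2 * m)) →
      a + k ≤ m → ln U τ k z = ln U' τ k z := by
    intro k
    induction k with
    | zero => intro a z _ _; rfl
    | succ k ih =>
      intro a z hz hak
      rw [ln_succ, ln_succ, ih (a + 1) (z + eT τ) (by
        rw [add_same, hz]; push_cast; ring) (by omega)]
      congr 1
      refine h _ ?_
      unfold HQ
      rw [if_pos rfl]
      show (z τ).val < m
      rw [hz, val_nat (by omega)]
      omega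
  exact key T 0 z (by rw [hz]; simp) (by omega)

lemma ln_HQ_ne (hi : i ≠ τ) {U U' : Ed d (2 * m) → G} (h : ∀ e, HQ τ e → U e = U' e)
    {z : Fin d → ZMod (2 * m)} (hz : (z τ).val ≤ m) (k : ℕ) : ln U i k z = ln U' i k z := by
  induction k generalizing z with
  | zero => rfl
  | succ k ih =>
    rw [ln_succ, ln_succ, ih (z := z + eT i) (by rw [add_ne z hi]; exact hz)]
    congr 1
    refine h _ ?_
    unfold HQ
    rw [if_neg hi]; exact hz

lemma up_HQ (hm : 2 ≤ m) (hi : i ≠ τ) {x : Fin d → ZMod (2 * m)} (hx : x τ = 0) (R : ℕ) {T : ℕ}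
    (hT : T ≤ m) : Dep (HQ τ) fun U : Ed d (2 * m) → G => up τ i R x T U := by
  intro U U' h
  show up τ i R x T U = up τ i R x T U'
  unfold up
  rw [ln_HQ_same hm h hx hT, ln_HQ_same hm h (z := x + R • eT i) (by
    rw [nsmul_ne hi, hx]) hT, ln_HQ_ne hi h (z := x + T • eT τ) (by
    rw [nsmul_same, hx, zero_add, val_nat (by omega)]; exact hT)]

/-- the coordinates of the upper part of the loop, with the weight -/
def us (L : LD G N n) (β : ℝ) (τ i : Fin d) (R : ℕ) (T : ℕ) (c : Fin N × Fin N × Bool)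
    (U : Ed d (2 * m) → G) : ℝ :=
  co c (L.rho (up τ i R 0 T U)) * Real.exp (-(β * sS L τ U))

lemma us_cont (β : ℝ) (R T : ℕ) (c : Fin N × Fin N × Bool) :
    Continuous (us (m := m) L β τ i R T c) :=
  ((co c).continuous.comp (L.cont.comp (up_cont _ _ _))).mul
    (Real.continuous_exp.comp (continuous_const.mul (sS_cont τ)).neg)

lemma us_dep (hm : 2 ≤ m) (hi : i ≠ τ) (β : ℝ) (R : ℕ) {T : ℕ} (hT : T ≤ m)
    (c : Fin N × Fin N × Bool) :
    Dep (fun e => PP τ e ∨ (SR hm τ).R e) (us (m := m) L β τ i R T c) := by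
  refine Dep_HQ hm fun U U' h => ?_
  unfold us
  have h1 := up_HQ (G := G) hm hi (x := 0) rfl R hT U U' h
  simp only at h1
  rw [h1, sS_dep (L := L) hm U U' h]

variable (μ : Measure G) [IsProbabilityMeasure μ] [μ.IsMulLeftInvariant]
  [μ.IsMulRightInvariant] [μ.IsInvInvariant]

/-- the expectation of the rectangular loop, with site reflection positivity -/
theorem loop_srp (hm : 2 ≤ m) (hi : i ≠ τ) (β : ℝ) (R T1 T2 : ℕ) :
    Zt μ L β (fun U : Ed d (2 * m) → G => rt L (rect U 0 τ i (T1 + T2) R)) =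
      ∑ k, SB μ (SR hm τ) (us L β τ i R T2 k) (us L β τ i R T1 k) := by
  have e1 : Zt μ L β (fun U : Ed d (2 * m) → G => rt L (rect U 0 τ i (T1 + T2) R)) =
      Zt μ L β (fun U : Ed d (2 * m) → G => rt L (rect U (0 - T1 • eT τ) τ i (T1 + T2) R)) := by
    rw [← Zt_tr μ β (0 - T1 • eT τ) (fun U : Ed d (2 * m) → G =>
      rt L (rect U 0 τ i (T1 + T2) R))]
    simp only [rect_tr, zero_add]
  rw [e1]
  have hi2 : ∀ k ∈ (Finset.univ : Finset (Fin N × Fin N × Bool)), Integrable
      (fun U : Ed d (2 * m) → G => us L β τ i R T2 k U * us L β τ i R T1 k ((SR hm τ).tU U))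
      (ME μ (Ed d (2 * m))) := fun k _ =>
    integrable_cont μ ((us_cont β R T2 k).mul ((us_cont β R T1 k).comp (SR hm τ).tU_cont))
  unfold Zt SB
  rw [← integral_finsetSum _ hi2]
  refine integral_congr_ae (Filter.Eventually.of_forall fun U => ?_)
  simp only
  obtain ⟨g, hg⟩ := rect_site hm hi U (x := 0) rfl R T1 T2
  rw [hg, rt_conj', rt_mul, Finset.sum_mul, act_sS (i0 := τ) hm]
  refine Finset.sum_congr rfl fun k _ => ?_
  unfold us
  have h2 : ∀ a b : ℝ, Real.exp (-(β * (a + b))) =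
      Real.exp (-(β * a)) * Real.exp (-(β * b)) := by
    intro a b
    rw [← Real.exp_add]
    congr 1; ring
  rw [h2]
  ring

/-- **Site reflection positivity for rectangular loops.** -/
theorem loop_ss (hm : 2 ≤ m) (hi : i ≠ τ) (β : ℝ) (R : ℕ) {T1 T2 : ℕ}
    (h1 : T1 ≤ m) (h2 : T2 ≤ m) :
    EX μ L β (fun U : Ed d (2 * m) → G => rt L (rect U 0 τ i (T1 + T2) R)) ^ 2 ≤
      EX μ L β (fun U : Ed d (2 * m) → G => rt L (rect U 0 τ i (2 * T1) R)) *
        EX μ L β (fun U : Ed d (2 * m) → G => rt L (rect U 0 τ i (2 * T2) R)) ∧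
    0 ≤ EX μ L β (fun U : Ed d (2 * m) → G => rt L (rect U 0 τ i (2 * T1) R)) := by
  have h := loop_srp μ (L := L) hm hi β
  obtain ⟨S, hS⟩ : ∃ S : ℕ → ℕ → ℝ, S = fun T T' =>
    ∑ k, SB μ (SR hm τ) (us L β τ i R T k) (us L β τ i R T' k) := ⟨_, rfl⟩
  have e1 := h R T1 T2
  have e2 := h R T1 T1
  have e3 := h R T2 T2
  have a1 : T1 + T1 = 2 * T1 := by omega
  have a2 : T2 + T2 = 2 * T2 := by omega
  rw [a1] at e2
  rw [a2] at e3
  have n1 : 0 ≤ S T1 T1 := by
    rw [hS]
    exact Finset.sum_nonneg fun k _ => SB_self μ (SR hm τ) (PP τ) PP_fix PP_th (us_cont β R T1 k)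
      (us_dep hm hi β R h1 k)
  have cs : S T2 T1 ^ 2 ≤ S T2 T2 * S T1 T1 := by
    refine Pool.Agent.H906R3.YM.sq_le_of_forall fun t => ?_
    rw [hS]
    simp only
    rw [Finset.mul_sum, Finset.mul_sum, ← Finset.sum_add_distrib, ← Finset.sum_add_distrib]
    exact Finset.sum_nonneg fun k _ => SB_quad μ (SR hm τ) (PP τ) PP_fix PP_th (us_cont β R T2 k)
      (us_dep hm hi β R h2 k) (us_cont β R T1 k) (us_dep hm hi β R h1 k) t
  have hZ := Zt_pos μ (L := L) (d := d) (l := 2 * m) β
  have f1 : Zt μ L β (fun U : Ed d (2 * m) → G => rt L (rect U 0 τ i (T1 + T2) R)) =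
      S T2 T1 := by rw [e1, hS]
  have f2 : Zt μ L β (fun U : Ed d (2 * m) → G => rt L (rect U 0 τ i (2 * T1) R)) =
      S T1 T1 := by rw [e2, hS]
  have f3 : Zt μ L β (fun U : Ed d (2 * m) → G => rt L (rect U 0 τ i (2 * T2) R)) =
      S T2 T2 := by rw [e3, hS]
  unfold EX
  rw [f1, f2, f3]
  constructor
  · rw [div_pow, div_mul_div_comm, pow_two (Zt μ L β _)]
    refine div_le_div_of_nonneg_right ?_ (by positivity)
    linarith
  · exact div_nonneg n1 hZ.le

end loops

end

end Pool.Agent.TH618.YM
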