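import Mathlib
import Pool.Agent.TH618.YM.FluxR
import Pool.Agent.TH618.YM.LoopR
import Pool.Agent.TH618.YM.SiteRP

/-!
# Lower bounds for the expectations of rectangular loops
-/

open MeasureTheory Matrix Filter
open scoped Matrix.Norms.Frobenius ContDiff Topology
open Pool.Agent.H906R3.YM hiding Pl
open Pool.Agent.W793.YM

namespace Pool.Agent.TH618.YM

set_option linter.unusedSectionVars false
set_option linter.unusedVariables false

noncomputable section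

variable {G : Type*} [Group G] [TopologicalSpace G] [IsTopologicalGroup G] [CompactSpace G]
  [SecondCountableTopology G] [MeasurableSpace G] [BorelSpace G] (μ : Measure G)
  [IsProbabilityMeasure μ] [μ.IsMulLeftInvariant] [μ.IsMulRightInvariant] [μ.IsInvInvariant]
  {N n : ℕ} {L : LD G N n} {d : ℕ}

lemma crd_nonneg (d K : ℕ) : 0 ≤ crd d K := by
  unfold crd
  have : 0 ≤ ∑ k ∈ Finset.Ico 1 K, 1 / (k : ℝ) := Finset.sum_nonneg fun k _ => by positivity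
  positivity

/-- the energy of the loop around a rectangle -/
theorem rect_weR (hd : 3 ≤ d) {C0 : ℝ} (hC0 : 0 < C0)
    (hcar : ∀ g : G, dv L g ^ 2 ≤ ∑ a, fi L a g ^ 2 + C0 * dv L g ^ 4) :
    ∃ C : ℝ, 0 < C ∧ ∀ (b : ℝ) (p : ℕ), 1 ≤ p →
    (p : ℝ) ^ (56 * d + 94) ≤ b → b ≤ (2 * p) ^ (2 * (56 * d + 94)) →
    ∀ (m : ℕ) [NeZero m], 3 * p ^ 28 + 5 < 2 * m → ∀ (i j : Fin d), i ≠ j →
    ∀ (R T : ℕ), R ≤ p → T ≤ p →
    EX μ L (b ^ 4) (fun U : Ed d (2 * m) → G => we L (rect U 0 i j R T)) ≤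
      n / (2 * b ^ 4) * (1 + 1 / p) *
        (T * min (2 * gl (2 * m) i j R) (crd d (p ^ 28)) + R * crd d (p ^ 28)) + C / b ^ 4 := by
  obtain ⟨C1, hC1, h1⟩ := fluxR μ (L := L) hd
  obtain ⟨C2, hC2, h2⟩ := sB_moment μ (L := L)
  obtain ⟨D, hD⟩ : ∃ D : ℝ, D = (256 * n + 128 * C0) * (d ^ 4 * (C2 * (d ^ 2) ^ 4) *
    8 ^ (4 * d + 4)) := ⟨_, rfl⟩
  have hD0 : 0 ≤ D := by rw [hD]; positivity
  refine ⟨n * C1 + D + 1, by positivity, fun b p hp hb hb' m _ hm i j hij R T hR hT => ?_⟩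
  obtain ⟨K, hK⟩ : ∃ K, K = p ^ 28 := ⟨_, rfl⟩
  have hp1 : (1 : ℝ) ≤ p := by exact_mod_cast hp
  have hp0 : (0 : ℝ) < p := by linarith
  have hKp : (K : ℝ) = (p : ℝ) ^ 28 := by rw [hK]; push_cast; ring
  have hpK : p ≤ K := by
    rw [hK]; exact Nat.le_self_pow (by norm_num) p
  have hK1 : 1 ≤ K := hp.trans hpK
  have hKR1 : (1 : ℝ) ≤ K := by exact_mod_cast hK1
  have hb1 : 1 ≤ b := le_trans (one_le_pow₀ hp1) hb
  have hb0 : 0 < b := by linarith
  obtain ⟨x, hx⟩ : ∃ x : St d (2 * m), x = ct (2 * m) (fun _ => K + 2) := ⟨_, rfl⟩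
  rw [← hK] at hm ⊢
  have hwx : ∀ i', wv x i' = K + 2 := fun i' => by
    rw [hx, wv_ct (fun _ => by omega)]
  obtain ⟨M, hM⟩ : ∃ M, M = 3 * K + 5 := ⟨_, rfl⟩
  have hMl : M < 2 * m := by omega
  have hM8 : (M : ℝ) ≤ 8 * K := by rw [hM]; push_cast; linarith
  have hM0 : (0 : ℝ) ≤ M := Nat.cast_nonneg _
  obtain ⟨Q, hQ⟩ : ∃ Q : ℝ, Q = T * min (2 * gl (2 * m) i j R) (crd d K) + R * crd d K := ⟨_, rfl⟩
  have hQ0 : 0 ≤ Q := by
    rw [hQ]
    have e1 := gl_nonneg (l := 2 * m) i j R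
    have e2 := crd_nonneg d K
    have e3 : 0 ≤ min (2 * gl (2 * m) i j R) (crd d K) := le_min (by positivity) e2
    positivity
  have htr : EX μ L (b ^ 4) (fun U : Ed d (2 * m) → G => we L (rect U 0 i j R T)) =
      EX μ L (b ^ 4) (fun U : Ed d (2 * m) → G => we L (rect U x i j R T)) := by
    rw [← EX_tr μ x (fun U : Ed d (2 * m) → G => we L (rect U 0 i j R T))]
    simp only [rect_tr, zero_add]
  rw [htr, ← hQ]
  obtain ⟨X, hX⟩ : ∃ X : Fin n → (Ed d (2 * m) → G) → ℝ, X = fun a U => b ^ 2 *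
      ∑ r ∈ Finset.range R, ∑ s ∈ Finset.range T, Fz L U a i j (x + r • eT i + s • eT j) :=
    ⟨_, rfl⟩
  have hFz : ∀ (a : Fin n) (z : St d (2 * m)),
      Continuous fun U : Ed d (2 * m) → G => Fz L U a i j z := by
    intro a z
    have h1 : (fun U : Ed d (2 * m) → G => Fz L U a i j z) =
        (fiS (L := L) a (SmG_cpl z i j)).1 := by
      funext U; rfl
    rw [h1]; exact Sm_cont _
  have hXc : ∀ a, Continuous (X a) := by
    intro a
    rw [hX]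
    exact continuous_const.mul (continuous_finsetSum _ fun r _ =>
      continuous_finsetSum _ fun s _ => hFz a _)
  have hX2 : ∀ a, EX μ L (b ^ 4) (fun U => X a U ^ 2) ≤ Q + C1 := by
    intro a
    have := h1 b p hp hb hb' m (by rw [← hK]; exact hm) x (by rw [← hK]; exact hwx) i j hij R T
      hR hT a
    rw [← hK, ← hQ] at this
    rw [hX]; exact this
  obtain ⟨δ, hδ⟩ : ∃ δ : ℝ, δ = 1 / p := ⟨_, rfl⟩
  have hδ0 : 0 < δ := by rw [hδ]; positivity
  have hδ1 : δ ≤ 1 := by rw [hδ, div_le_one hp0]; exact hp1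
  have hδp : 1 + 1 / δ ≤ 2 * p := by rw [hδ, one_div_one_div]; linarith
  -- pointwise
  have hpt : ∀ U : Ed d (2 * m) → G, we L (rect U x i j R T) ≤
      (1 + δ) / (2 * b ^ 4) * ∑ a, X a U ^ 2 +
        (256 * n + 128 * C0) * p * (p * (d * M)) ^ 4 * sB L M U ^ 4 := by
    intro U
    have e1 := rect_dvR (L := L) (x := x) (i := i) (j := j) (q := p) (M := M) (fun i' => by
      rw [hwx, hM]; omega) hMl hij hC0 hcar hR hT hδ0 U
    rw [dv_sq] at e1
    have e2 : ∑ a, X a U ^ 2 = b ^ 4 * ∑ a, (∑ r ∈ Finset.range R, ∑ s ∈ Finset.range T,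
        Fz L U a i j (x + r • eT i + s • eT j)) ^ 2 := by
      rw [Finset.mul_sum, hX]
      exact Finset.sum_congr rfl fun a _ => by ring
    obtain ⟨Z, hZ⟩ : ∃ Z, Z = ∑ a, (∑ r ∈ Finset.range R, ∑ s ∈ Finset.range T,
        Fz L U a i j (x + r • eT i + s • eT j)) ^ 2 := ⟨_, rfl⟩
    rw [← hZ] at e1 e2
    have e2' : (1 + δ) / (2 * b ^ 4) * ∑ a, X a U ^ 2 = (1 + δ) * Z / 2 := by
      rw [e2]; field_simp
    rw [e2']
    have e3 : (p * (d * M * sB L M U)) ^ 4 = (p * (d * M)) ^ 4 * sB L M U ^ 4 := by ring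
    rw [e3] at e1
    obtain ⟨S, hS⟩ : ∃ S, S = ((p : ℝ) * (d * M)) ^ 4 * sB L M U ^ 4 := ⟨_, rfl⟩
    have hS0 : 0 ≤ S := by
      rw [hS]
      have := sB_nonneg (L := L) M U
      positivity
    rw [← hS] at e1
    have e4 : (256 * n * (1 + 1 / δ) + 256 * C0) * S ≤ 2 * ((256 * n + 128 * C0) * p * S) := by
      have e5 : 256 * n * (1 + 1 / δ) ≤ 256 * n * (2 * p) :=
        mul_le_mul_of_nonneg_left hδp (by positivity)
      have e6 : 256 * C0 ≤ 256 * C0 * p := le_mul_of_one_le_right (by positivity) hp1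
      calc _ ≤ (256 * n * (2 * p) + 256 * C0 * p) * S :=
            mul_le_mul_of_nonneg_right (add_le_add e5 e6) hS0
        _ = _ := by ring
    have e7 : (256 * n + 128 * C0) * p * (p * (d * M)) ^ 4 * sB L M U ^ 4 =
        (256 * n + 128 * C0) * p * S := by rw [hS]; ring
    rw [e7]
    linarith
  have c1 : Continuous fun U : Ed d (2 * m) → G => ∑ a, X a U ^ 2 :=
    continuous_finsetSum _ fun a _ => (hXc a).pow 2
  have c2 : Continuous fun U : Ed d (2 * m) → G => (1 + δ) / (2 * b ^ 4) * ∑ a, X a U ^ 2 :=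
    continuous_const.mul c1
  have c3 : Continuous fun U : Ed d (2 * m) → G =>
      (256 * n + 128 * C0) * p * (p * (d * M)) ^ 4 * sB L M U ^ 4 :=
    continuous_const.mul ((sB_cont M).pow 4)
  have c4 : Continuous fun U : Ed d (2 * m) → G => we L (rect U x i j R T) :=
    we_cont.comp (rect_cont _ _ _ _ _)
  have h3 := EX_mono μ (L := L) (β := b ^ 4) c4 (c2.add c3) hpt
  have h4 := EX_add μ (L := L) (β := b ^ 4) c2 c3
  have h5 : EX μ L (b ^ 4) (fun U : Ed d (2 * m) → G => we L (rect U x i j R T)) ≤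
      (1 + δ) / (2 * b ^ 4) * EX μ L (b ^ 4) (fun U : Ed d (2 * m) → G => ∑ a, X a U ^ 2) +
        (256 * n + 128 * C0) * p * (p * (d * M)) ^ 4 *
          EX μ L (b ^ 4) (fun U : Ed d (2 * m) → G => sB L M U ^ 4) := by
    refine h3.trans (le_of_eq ?_)
    rw [← EX_smul, ← EX_smul]
    exact h4
  rw [EX_sum μ Finset.univ (F := fun a (U : Ed d (2 * m) → G) => X a U ^ 2)
    fun a _ => (hXc a).pow 2] at h5
  have h6 : ∑ a, EX μ L (b ^ 4) (fun U : Ed d (2 * m) → G => X a U ^ 2) ≤ n * (Q + C1) := by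
    refine (Finset.sum_le_sum fun a _ => hX2 a).trans (le_of_eq ?_)
    rw [Finset.sum_const, Finset.card_univ, Fintype.card_fin, nsmul_eq_mul]
  have h7 : b ^ 6 * EX μ L (b ^ 4) (fun U : Ed d (2 * m) → G => sB L M U ^ 4) ≤
      C2 * ((M : ℝ) ^ d * d ^ 2) ^ 4 := by
    have := h2 b hb1 d m (by omega) M
    unfold EX
    rw [mul_div_assoc', div_le_iff₀ (Zt_pos μ _)]
    exact this
  obtain ⟨S4, hS4⟩ : ∃ S4, S4 = EX μ L (b ^ 4) (fun U : Ed d (2 * m) → G => sB L M U ^ 4) :=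
    ⟨_, rfl⟩
  rw [← hS4] at h5 h7
  have hS40 : 0 ≤ S4 := by rw [hS4]; exact EX_nonneg μ fun U => by positivity
  have h8 : (256 * n + 128 * C0) * p * (p * (d * M)) ^ 4 * S4 ≤ D / b ^ 4 := by
    rw [le_div_iff₀ (by positivity)]
    have e1 : (p : ℝ) ^ 5 * (M : ℝ) ^ (4 * d + 4) ≤ 8 ^ (4 * d + 4) * b ^ 2 := by
      calc (p : ℝ) ^ 5 * (M : ℝ) ^ (4 * d + 4) ≤ (p : ℝ) ^ 5 * (8 * K) ^ (4 * d + 4) := by gcongr
        _ = 8 ^ (4 * d + 4) * ((p : ℝ) ^ 5 * (K : ℝ) ^ (4 * d + 4)) := by rw [mul_pow]; ring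
        _ ≤ 8 ^ (4 * d + 4) * b ^ 2 := by
            refine mul_le_mul_of_nonneg_left ?_ (by positivity)
            calc (p : ℝ) ^ 5 * (K : ℝ) ^ (4 * d + 4) = (p : ℝ) ^ (112 * d + 117) := by
                  have e5 : 5 + 28 * (4 * d + 4) = 112 * d + 117 := by ring
                  rw [hKp, ← pow_mul, ← pow_add, e5]
              _ ≤ (p : ℝ) ^ ((56 * d + 94) * 2) := pow_le_pow_right₀ hp1 (by omega)
              _ = ((p : ℝ) ^ (56 * d + 94)) ^ 2 := by rw [pow_mul]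
              _ ≤ b ^ 2 := pow_le_pow_left₀ (by positivity) hb 2
    have e2 : b ^ 2 * ((256 * n + 128 * C0) * p * (p * (d * M)) ^ 4 * S4 * b ^ 4) ≤ b ^ 2 * D := by
      calc b ^ 2 * ((256 * n + 128 * C0) * p * (p * (d * M)) ^ 4 * S4 * b ^ 4) =
          (256 * n + 128 * C0) * p * (p * (d * M)) ^ 4 * (b ^ 6 * S4) := by ring
        _ ≤ (256 * n + 128 * C0) * p * (p * (d * M)) ^ 4 * (C2 * ((M : ℝ) ^ d * d ^ 2) ^ 4) :=
            mul_le_mul_of_nonneg_left h7 (by positivity)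
        _ = (256 * n + 128 * C0) * (d ^ 4 * (C2 * (d ^ 2) ^ 4)) *
            ((p : ℝ) ^ 5 * (M : ℝ) ^ (4 * d + 4)) := by
            rw [pow_add (M : ℝ) (4 * d) 4, mul_comm 4 d, pow_mul (M : ℝ) d 4]; ring
        _ ≤ (256 * n + 128 * C0) * (d ^ 4 * (C2 * (d ^ 2) ^ 4)) *
            (8 ^ (4 * d + 4) * b ^ 2) := mul_le_mul_of_nonneg_left e1 (by positivity)
        _ = b ^ 2 * D := by rw [hD]; ring
    exact le_of_mul_le_mul_left e2 (by positivity)
  refine h5.trans ?_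
  have h9 : (1 + δ) / (2 * b ^ 4) *
      ∑ a, EX μ L (b ^ 4) (fun U : Ed d (2 * m) → G => X a U ^ 2) ≤
      (1 + δ) / (2 * b ^ 4) * (n * (Q + C1)) := mul_le_mul_of_nonneg_left h6 (by positivity)
  calc _ ≤ (1 + δ) / (2 * b ^ 4) * (n * (Q + C1)) + D / b ^ 4 := add_le_add h9 h8
    _ = n / (2 * b ^ 4) * (1 + δ) * Q + ((1 + δ) / 2 * (n * C1) + D) / b ^ 4 := by
        field_simp; ring
    _ ≤ n / (2 * b ^ 4) * (1 + δ) * Q + (n * C1 + D + 1) / b ^ 4 := by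
        have e1 : (1 + δ) / 2 * (n * C1) ≤ 1 * (n * C1) :=
          mul_le_mul_of_nonneg_right (by linarith) (by positivity)
        have e2 : ((1 + δ) / 2 * (n * C1) + D) / b ^ 4 ≤ (n * C1 + D + 1) / b ^ 4 :=
          div_le_div_of_nonneg_right (by linarith) (by positivity)
        linarith
    _ = _ := by rw [hδ]

section loops

variable {m : ℕ} [NeZero m]

variable (L) in
/-- the normalised expectation of the loop with the sides `a`, `b` -/
def wR2 (m : ℕ) [NeZero m] (β : ℝ) (i j : Fin d) (a b : ℕ) : ℝ :=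
  EX μ L β (fun U : Ed d (2 * m) → G => rt L (rect U 0 i j a b)) / N

lemma wR2_swap (β : ℝ) (i j : Fin d) (a b : ℕ) :
    wR2 μ L m β i j a b = wR2 μ L m β j i b a := by
  unfold wR2
  congr 2
  funext U
  rw [rect_swap, rt_inv]

lemma wR2_le (hN : 1 ≤ N) (β : ℝ) (i j : Fin d) (a b : ℕ) : wR2 μ L m β i j a b ≤ 1 := by
  unfold wR2
  have hN0 : (0 : ℝ) < N := by exact_mod_cast hN
  rw [div_le_one hN0]
  have h1 := EX_mono μ (L := L) (β := β) (F := fun U : Ed d (2 * m) → G =>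
    rt L (rect U 0 i j a b)) (H := fun _ => (N : ℝ))
    (rt_cont.comp (rect_cont _ _ _ _ _)) continuous_const fun U => rt_le _
  rwa [EX_const] at h1

lemma wR2_zero (hN : 1 ≤ N) (β : ℝ) (i j : Fin d) (b : ℕ) : wR2 μ L m β i j 0 b = 1 := by
  unfold wR2
  have hN0 : (N : ℝ) ≠ 0 := by
    have : (1 : ℝ) ≤ N := by exact_mod_cast hN
    positivity
  have h1 : (fun U : Ed d (2 * m) → G => rt L (rect U 0 i j 0 b)) = fun _ => (N : ℝ) := by
    funext U
    have h2 : rect U 0 i j 0 b = 1 := by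
      unfold rect
      rw [ln_zero, ln_zero, zero_smul, add_zero]
      group
    rw [h2]
    unfold rt
    rw [map_one, trace_one, Fintype.card_fin]
    simp
  rw [h1, EX_const, div_self hN0]

lemma wR2_nonneg (hm : 2 ≤ m) {i j : Fin d} (hij : i ≠ j) {β : ℝ} (hβ : 0 ≤ β) {a : ℕ}
    (ha : a < 2 * m) (b : ℕ) : 0 ≤ wR2 μ L m β i j a b := by
  unfold wR2
  refine div_nonneg ?_ (Nat.cast_nonneg _)
  rcases Nat.even_or_odd' a with ⟨k, hk | hk⟩
  · rw [hk]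
    exact (loop_ss μ (L := L) hm hij.symm β b (T1 := k) (T2 := k) (by omega) (by omega)).2
  · rw [hk]
    exact (loop_cs μ (L := L) hm hij.symm hβ b (T1 := k) (T2 := k) (by omega) (by omega)).2

lemma wR2_cs (hm : 2 ≤ m) {i j : Fin d} (hij : i ≠ j) {β : ℝ} (hβ : 0 ≤ β) {a : ℕ}
    (ha : a + 2 < 2 * m) (b : ℕ) :
    wR2 μ L m β i j (a + 1) b ^ 2 ≤ wR2 μ L m β i j a b * wR2 μ L m β i j (a + 2) b := by
  unfold wR2
  rw [div_pow, div_mul_div_comm, ← pow_two (N : ℝ)]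
  refine div_le_div_of_nonneg_right ?_ (by positivity)
  rcases Nat.even_or_odd' a with ⟨k, hk | hk⟩
  · have h1 := (loop_ss μ (L := L) hm hij.symm β b (T1 := k) (T2 := k + 1)
      (by omega) (by omega)).1
    have e1 : k + (k + 1) = a + 1 := by omega
    have e2 : 2 * (k + 1) = a + 2 := by omega
    rw [e1, ← hk, e2] at h1
    exact h1
  · have h1 := (loop_cs μ (L := L) hm hij.symm hβ b (T1 := k) (T2 := k + 1)
      (by omega) (by omega)).1
    have e1 : k + 1 + (k + 1) = a + 1 := by omega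
    have e2 : 2 * (k + 1) + 1 = a + 2 := by omega
    rw [e1, ← hk, e2] at h1
    exact h1

/-- the lower bound for the loops of sides at most `p` -/
theorem wR2_low (hN : 1 ≤ N) (hd : 3 ≤ d) {C0 : ℝ} (hC0 : 0 < C0)
    (hcar : ∀ g : G, dv L g ^ 2 ≤ ∑ a, fi L a g ^ 2 + C0 * dv L g ^ 4) :
    ∃ C : ℝ, 0 < C ∧ ∀ (b : ℝ) (p : ℕ), 1 ≤ p →
    (p : ℝ) ^ (56 * d + 94) ≤ b → b ≤ (2 * p) ^ (2 * (56 * d + 94)) →
    ∀ (m : ℕ) [NeZero m], 3 * p ^ 28 + 5 < 2 * m → ∀ (i j : Fin d), i ≠ j →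
    ∀ (R T : ℕ), R ≤ p → T ≤ p →
    1 - (n / (2 * N * b ^ 4) * (1 + 1 / p) *
        (T * min (2 * gl (2 * m) i j R) (crd d (p ^ 28)) + R * crd d (p ^ 28)) + C / b ^ 4) ≤
      wR2 μ L m (b ^ 4) i j R T := by
  obtain ⟨C, hC, h⟩ := rect_weR μ (L := L) hd hC0 hcar
  refine ⟨C, hC, fun b p hp hb hb' m _ hm i j hij R T hR hT => ?_⟩
  have h1 := h b p hp hb hb' m hm i j hij R T hR hT
  have hN1 : (1 : ℝ) ≤ N := by exact_mod_cast hN
  have hN0 : (0 : ℝ) < N := by linarith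
  have hp1 : (1 : ℝ) ≤ p := by exact_mod_cast hp
  have hb0 : 0 < b := by
    have : (1 : ℝ) ≤ b := le_trans (one_le_pow₀ hp1) hb
    linarith
  unfold wR2
  rw [le_div_iff₀ hN0]
  have e1 : EX μ L (b ^ 4) (fun U : Ed d (2 * m) → G => rt L (rect U 0 i j R T)) =
      N - EX μ L (b ^ 4) (fun U : Ed d (2 * m) → G => we L (rect U 0 i j R T)) := by
    have := EX_sub μ (L := L) (β := b ^ 4) (F := fun _ : Ed d (2 * m) → G => (N : ℝ))
      (H := fun U : Ed d (2 * m) → G => we L (rect U 0 i j R T)) continuous_const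
      (we_cont.comp (rect_cont _ _ _ _ _))
    rw [EX_const] at this
    rw [← this]
    congr 1
    funext U
    exact rt_we _
  rw [e1]
  obtain ⟨Q, hQ⟩ : ∃ Q : ℝ, Q = T * min (2 * gl (2 * m) i j R) (crd d (p ^ 28)) +
    R * crd d (p ^ 28) := ⟨_, rfl⟩
  rw [← hQ] at h1 ⊢
  have e2 : (1 - (n / (2 * N * b ^ 4) * (1 + 1 / p) * Q + C / b ^ 4)) * N =
      N - (n / (2 * b ^ 4) * (1 + 1 / p) * Q + N * (C / b ^ 4)) := by
    field_simp
  rw [e2]
  have e3 : C / b ^ 4 ≤ N * (C / b ^ 4) := le_mul_of_one_le_left (by positivity) hN1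
  linarith

end loops

end

end Pool.Agent.TH618.YM
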