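import Mathlib
import Pool.Agent.TH618.YM.AreaR
import Pool.Agent.TH618.YM.Coul

/-!
# The static potential in the infinite volume
-/

open MeasureTheory Matrix Filter
open scoped Matrix.Norms.Frobenius ContDiff Topology
open Pool.Agent.H906R3.YM hiding Pl
open Pool.Agent.W793.YM

namespace Pool.Agent.TH618.YM

set_option linter.unusedSectionVars false
set_option linter.unusedVariables false

noncomputable section

/-! ### concave sequences -/

lemma concave_mono {f : ℕ → ℝ} (h0 : f 0 = 0)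
    (hc : ∀ k, f k + f (k + 2) ≤ 2 * f (k + 1)) (k : ℕ) :
    (k : ℝ) * f (k + 1) ≤ (k + 1) * f k := by
  induction k with
  | zero => simp [h0]
  | succ k ih =>
    have h1 := hc k
    push_cast
    have hk : (0 : ℝ) ≤ k := Nat.cast_nonneg k
    have h2 := mul_le_mul_of_nonneg_left h1 (by linarith : (0 : ℝ) ≤ (k : ℝ) + 1)
    have e : k + 1 + 1 = k + 2 := rfl
    rw [e]
    nlinarith

/-- a concave nonnegative sequence grows linearly -/
lemma concave_lim {f : ℕ → ℝ} (h0 : f 0 = 0) (hn : ∀ k, 0 ≤ f k)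
    (hc : ∀ k, f k + f (k + 2) ≤ 2 * f (k + 1)) :
    ∃ s : ℝ, 0 ≤ s ∧ Tendsto (fun k : ℕ => f k / k) atTop (𝓝 s) ∧
      ∀ k : ℕ, 1 ≤ k → s ≤ f k / k := by
  obtain ⟨a, ha⟩ : ∃ a : ℕ → ℝ, a = fun k => f (k + 1) / ((k + 1 : ℕ) : ℝ) := ⟨_, rfl⟩
  have hanti : Antitone a := by
    refine antitone_nat_of_succ_le fun k => ?_
    rw [ha]
    simp only
    rw [div_le_div_iff₀ (by positivity) (by positivity)]
    have h1 := concave_mono h0 hc (k + 1)
    push_cast at h1 ⊢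
    linarith
  have hbdd : BddBelow (Set.range a) := ⟨0, by
    rintro _ ⟨k, rfl⟩
    rw [ha]
    exact div_nonneg (hn _) (Nat.cast_nonneg _)⟩
  have h1 := tendsto_atTop_ciInf hanti hbdd
  refine ⟨⨅ k, a k, le_ciInf fun k => ?_, ?_, fun k hk => ?_⟩
  · rw [ha]
    exact div_nonneg (hn _) (Nat.cast_nonneg _)
  · rw [ha] at h1 ⊢
    exact (tendsto_add_atTop_iff_nat (f := fun k : ℕ => f k / (k : ℝ)) 1).1 h1
  · obtain ⟨e, rfl⟩ : ∃ e, k = e + 1 := ⟨k - 1, by omega⟩
    have h2 := ciInf_le hbdd e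
    rw [ha] at h2 ⊢
    exact h2

lemma pos_of_conv {a : ℕ → ℝ} (h0 : 0 < a 0) (h1 : 0 < a 1)
    (hc : ∀ k, a (k + 1) ^ 2 ≤ a k * a (k + 2)) (k : ℕ) : 0 < a k := by
  have h : ∀ k, 0 < a k ∧ 0 < a (k + 1) := by
    intro k
    induction k with
    | zero => exact ⟨h0, h1⟩
    | succ k ih =>
      refine ⟨ih.2, ?_⟩
      have h2 := hc k
      have h3 : 0 < a (k + 1) ^ 2 := pow_pos ih.2 2
      have h4 : 0 < a k * a (k + 2) := lt_of_lt_of_le h3 h2
      exact (mul_pos_iff_of_pos_left ih.1).1 h4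
  exact (h k).1

lemma log_conc {a b c : ℝ} (ha : 0 < a) (hb : 0 < b) (hc : 0 < c) (h : b ^ 2 ≤ a * c) :
    -Real.log a + -Real.log c ≤ 2 * -Real.log b := by
  have h1 := Real.log_le_log (by positivity) h
  rw [Real.log_mul ha.ne' hc.ne', Real.log_pow] at h1
  push_cast at h1
  linarith

/-- the potential of a double sequence which is logarithmically convex -/
lemma double {w : ℕ → ℕ → ℝ} (h0 : ∀ T, w 0 T = 1) (h0' : ∀ R, w R 0 = 1)
    (hle : ∀ R T, w R T ≤ 1) (hc : ∀ R T, w (R + 1) T ^ 2 ≤ w R T * w (R + 2) T)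
    (hc' : ∀ R T, w R (T + 1) ^ 2 ≤ w R T * w R (T + 2)) (h11 : 0 < w 1 1) :
    (∀ R T, 0 < w R T) ∧ ∃ (P : ℕ → ℝ) (σ : ℝ),
      (∀ R, Tendsto (fun T : ℕ => -Real.log (w R T) / T) atTop (𝓝 (P R))) ∧
      Tendsto (fun R : ℕ => P R / R) atTop (𝓝 σ) ∧ 0 ≤ σ ∧
      (∀ R T : ℕ, 1 ≤ T → P R ≤ -Real.log (w R T) / T) ∧
      ∀ R : ℕ, 1 ≤ R → σ ≤ P R / R := by
  have hR1 : ∀ R, 0 < w R 1 := fun R =>
    pos_of_conv (a := fun R => w R 1) (by rw [h0]; exact one_pos) h11 (fun k => hc k 1) R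
  have hpos : ∀ R T, 0 < w R T := fun R T =>
    pos_of_conv (a := fun T => w R T) (by rw [h0']; exact one_pos) (hR1 R) (fun k => hc' R k) T
  refine ⟨hpos, ?_⟩
  have hlog : ∀ R T, 0 ≤ -Real.log (w R T) := fun R T => by
    have := Real.log_nonpos (hpos R T).le (hle R T)
    linarith
  have h1 : ∀ R, ∃ s : ℝ, 0 ≤ s ∧ Tendsto (fun T : ℕ => -Real.log (w R T) / T) atTop (𝓝 s) ∧
      ∀ T : ℕ, 1 ≤ T → s ≤ -Real.log (w R T) / T := fun R =>
    concave_lim (f := fun T => -Real.log (w R T)) (by rw [h0', Real.log_one, neg_zero])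
      (fun T => hlog R T) fun T => log_conc (hpos _ _) (hpos _ _) (hpos _ _) (hc' R T)
  choose P hP0 hPl hPle using h1
  have hP00 : P 0 = 0 := by
    refine tendsto_nhds_unique (hPl 0) ?_
    simp only [h0, Real.log_one, neg_zero, zero_div]
    exact tendsto_const_nhds
  have hPc : ∀ R, P R + P (R + 2) ≤ 2 * P (R + 1) := by
    intro R
    refine le_of_tendsto_of_tendsto' ((hPl R).add (hPl (R + 2))) ((hPl (R + 1)).const_mul 2)
      fun T => ?_
    rw [← add_div, ← mul_div_assoc]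
    exact div_le_div_of_nonneg_right (log_conc (hpos _ _) (hpos _ _) (hpos _ _) (hc R T))
      (Nat.cast_nonneg _)
  obtain ⟨σ, hσ0, hσl, hσle⟩ := concave_lim hP00 hP0 hPc
  exact ⟨P, σ, hPl, hσl, hσ0, hPle, hσle⟩

/-! ### arithmetic -/

lemma neg_log_le {E : ℝ} (h0 : 0 ≤ E) (h1 : E ≤ 1 / 2) : -Real.log (1 - E) ≤ E + 2 * E ^ 2 := by
  have hpos : 0 < 1 - E := by linarith
  rw [← Real.log_inv]
  have h2 := Real.log_le_sub_one_of_pos (inv_pos.2 hpos)
  have h3 : (1 - E)⁻¹ - 1 ≤ E + 2 * E ^ 2 := by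
    rw [← one_div, sub_le_iff_le_add, div_le_iff₀ hpos]
    nlinarith [sq_nonneg E, mul_nonneg h0 (sq_nonneg E)]
  linarith

/-- the harmonic sum -/
lemma harm (K : ℕ) (hK : 1 ≤ K) : ∑ k ∈ Finset.Ico 1 K, 1 / (k : ℝ) ≤ 1 + Real.log K := by
  have h1 := harmonic_le_one_add_log K
  have h2 : ((harmonic K : ℚ) : ℝ) = ∑ k ∈ Finset.range K, 1 / ((k : ℝ) + 1) := by
    unfold harmonic
    push_cast
    exact Finset.sum_congr rfl fun k _ => (one_div _).symm
  rw [h2] at h1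
  refine le_trans ?_ h1
  rw [Finset.sum_Ico_eq_sum_range]
  calc ∑ k ∈ Finset.range (K - 1), 1 / ((1 + k : ℕ) : ℝ) =
      ∑ k ∈ Finset.range (K - 1), 1 / ((k : ℝ) + 1) := by
        refine Finset.sum_congr rfl fun k _ => ?_
        push_cast; rw [add_comm]
    _ ≤ _ := by
        refine Finset.sum_le_sum_of_subset_of_nonneg ?_ fun k _ _ => by positivity
        intro k hk
        rw [Finset.mem_range] at hk ⊢
        omega

/-- the crude factor at the scale `p`, `p ≤ z ^ 3` -/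
lemma crd_le (d p : ℕ) (hp : 1 ≤ p) {z : ℝ} (hz : 1 ≤ z) (hpz : (p : ℝ) ≤ z ^ 3) :
    crd d (p ^ 28) ≤ (1 + 85 * (2 + 2 * Real.sqrt (2 * d)) ^ (d - 1)) * z := by
  unfold crd
  obtain ⟨c, hc⟩ : ∃ c : ℝ, c = (2 + 2 * Real.sqrt (2 * d)) ^ (d - 1) := ⟨_, rfl⟩
  have hc0 : 0 ≤ c := by rw [hc]; positivity
  rw [← hc]
  have hp1 : (1 : ℝ) ≤ p := by exact_mod_cast hp
  have h1 := harm (p ^ 28) (Nat.one_le_pow _ _ hp)
  have h2 : Real.log ((p ^ 28 : ℕ) : ℝ) ≤ 84 * z := by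
    push_cast
    rw [Real.log_pow]
    have h3 : Real.log p ≤ 3 * z := by
      have h4 := Real.log_le_log (by linarith) hpz
      rw [Real.log_pow] at h4
      have h5 := Real.log_le_sub_one_of_pos (by linarith : 0 < z)
      push_cast at h4
      linarith
    push_cast
    linarith
  have h3 : ∑ k ∈ Finset.Ico 1 (p ^ 28), 1 / (k : ℝ) ≤ 85 * z := by linarith
  have h4 := mul_le_mul_of_nonneg_left h3 hc0
  nlinarith

variable {G : Type*} [Group G] [TopologicalSpace G] [IsTopologicalGroup G] [CompactSpace G]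
  [SecondCountableTopology G] [MeasurableSpace G] [BorelSpace G] (μ : Measure G)
  [IsProbabilityMeasure μ] [μ.IsMulLeftInvariant] [μ.IsMulRightInvariant] [μ.IsInvInvariant]
  {N n : ℕ} {L : LD G N n} {d : ℕ}

/-- **The static potential at weak coupling.** -/
theorem pot_main (hN : 1 ≤ N) (hd : 3 ≤ d) {C0 : ℝ} (hC0 : 0 < C0)
    (hcar : ∀ g : G, dv L g ^ 2 ≤ ∑ a, fi L a g ^ 2 + C0 * dv L g ^ 4) :
    ∃ C β₀ : ℝ, 0 < C ∧ 0 < β₀ ∧ ∀ β : ℝ, β₀ ≤ β → ∀ (i j : Fin d), i ≠ j →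
      ∀ (w : ℕ → ℕ → ℝ) (s : ℕ → ℕ), Tendsto s atTop atTop →
      (∀ R T, Tendsto (fun k => wR2 μ L (s k + 1) β i j R T) atTop (𝓝 (w R T))) →
      (∀ R T, 0 < w R T) ∧ ∃ (P : ℕ → ℝ) (σ : ℝ),
        (∀ R, Tendsto (fun T : ℕ => -Real.log (w R T) / T) atTop (𝓝 (P R))) ∧
        Tendsto (fun R : ℕ => P R / R) atTop (𝓝 σ) ∧
        (∀ R : ℕ, (R : ℝ) ≤ β ^ (1 / (672 * d + 1128) : ℝ) →
          P R ≤ n / (N * β) * coul i j R + C * β ^ (-(1 + 1 / (672 * d + 1128)) : ℝ)) ∧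
        0 ≤ σ ∧ σ ≤ C * β ^ (-(1 + 1 / (672 * d + 1128)) : ℝ) := by
  obtain ⟨C1, hC1, hlow⟩ := wR2_low μ (L := L) hN hd hC0 hcar
  have hN1 : (1 : ℝ) ≤ N := by exact_mod_cast hN
  have hN0 : (0 : ℝ) < N := by linarith
  obtain ⟨c3, hc3⟩ : ∃ c3 : ℝ, c3 = 1 + 85 * (2 + 2 * Real.sqrt (2 * d)) ^ (d - 1) := ⟨_, rfl⟩
  have hc30 : 0 < c3 := by rw [hc3]; positivity
  obtain ⟨κ, hκ⟩ : ∃ κ : ℝ, κ = 1 / (672 * d + 1128) := ⟨_, rfl⟩
  have hκ0 : 0 < κ := by rw [hκ]; positivity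
  rw [← hκ]
  -- constants
  obtain ⟨A, hA⟩ : ∃ A : ℝ, A = n * (1 + 2 * c3) + C1 + 1 := ⟨_, rfl⟩
  have hn0 : (0 : ℝ) ≤ n := Nat.cast_nonneg _
  have hnc : 0 ≤ n * c3 := mul_nonneg hn0 hc30.le
  have hA1 : 1 ≤ A := by
    rw [hA]
    have e : (n : ℝ) * (1 + 2 * c3) = n + 2 * (n * c3) := by ring
    rw [e]; linarith
  obtain ⟨A2, hA2⟩ : ∃ A2 : ℝ, A2 = n + A := ⟨_, rfl⟩
  have hA20 : 1 ≤ A2 := by rw [hA2]; linarith
  obtain ⟨A3, hA3⟩ : ∃ A3 : ℝ, A3 = 2 * n * c3 + C1 + 1 := ⟨_, rfl⟩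
  have hA30 : 1 ≤ A3 := by
    rw [hA3]
    have e : 2 * (n : ℝ) * c3 = 2 * (n * c3) := by ring
    rw [e]; linarith
  have h2pos : 0 < (2 : ℝ) ^ (1 / (3 * κ)) := by positivity
  refine ⟨2 * A + 4 * A2 ^ 2 + 8 * A3, 4 * A2 ^ 2 + 4 * A3 ^ 2 + (2 : ℝ) ^ (1 / (3 * κ)),
    by positivity, by positivity, fun β hβ i j hij w s hs hw => ?_⟩
  have hs2 := sq_nonneg A2
  have hs3 := sq_nonneg A3
  have hβA2 : 4 * A2 ^ 2 ≤ β := by linarith
  have hβA3 : 4 * A3 ^ 2 ≤ β := by linarith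
  have hβ2 : (2 : ℝ) ^ (1 / (3 * κ)) ≤ β := by linarith
  have hβ1 : 1 ≤ β := by
    have : 1 ≤ A2 ^ 2 := one_le_pow₀ hA20
    linarith
  have hβ0 : 0 < β := by linarith
  obtain ⟨z, hz⟩ : ∃ z : ℝ, z = β ^ κ := ⟨_, rfl⟩
  have hz1 : 1 ≤ z := by rw [hz]; exact Real.one_le_rpow hβ1 hκ0.le
  have hz0 : 0 < z := by linarith
  have hzpow : ∀ k : ℕ, z ^ k = β ^ (κ * k) := fun k => by
    rw [hz, ← Real.rpow_natCast, ← Real.rpow_mul hβ0.le]
  have hz3 : 2 ≤ z ^ 3 := by
    have h2 := Real.rpow_le_rpow (by positivity) hβ2 (by positivity : 0 ≤ 3 * κ)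
    rw [← Real.rpow_mul (by norm_num), one_div, inv_mul_cancel₀ (by positivity),
      Real.rpow_one] at h2
    rw [hzpow]
    push_cast
    rw [mul_comm κ]; exact h2
  have hd3 : (3 : ℝ) ≤ d := by exact_mod_cast hd
  have hκs : κ ≤ 1 / 20 := by
    rw [hκ]
    exact div_le_div_of_nonneg_left (by norm_num) (by norm_num) (by linarith)
  have hz20 : z ^ 20 ≤ β := by
    rw [hzpow]
    calc β ^ (κ * (20 : ℕ)) ≤ β ^ (1 : ℝ) := by
          refine Real.rpow_le_rpow_of_exponent_le hβ1 ?_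
          push_cast; linarith
      _ = β := Real.rpow_one _
  have hz10 : (z ^ 10) ^ 2 ≤ β := by rw [← pow_mul]; exact hz20
  -- the scale
  obtain ⟨p, hp⟩ : ∃ p : ℕ, p = ⌊z ^ 3⌋₊ := ⟨_, rfl⟩
  have hpz : (p : ℝ) ≤ z ^ 3 := by rw [hp]; exact Nat.floor_le (by positivity)
  have hzp : z ^ 3 < p + 1 := by rw [hp]; exact Nat.lt_floor_add_one _
  have hp1 : 1 ≤ p := by
    have : (1 : ℝ) < p + 1 := by linarith
    have : 1 < p + 1 := by exact_mod_cast this
    omega
  have hp1R : (1 : ℝ) ≤ p := by exact_mod_cast hp1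
  have hp0 : (0 : ℝ) < p := by linarith
  have hzp2 : z ^ 3 ≤ 2 * p := by linarith
  obtain ⟨b, hb⟩ : ∃ b : ℝ, b = β ^ (1 / 4 : ℝ) := ⟨_, rfl⟩
  have hb4 : b ^ 4 = β := by
    rw [hb, ← Real.rpow_natCast, ← Real.rpow_mul hβ0.le]; norm_num
  have hbz : b = (z ^ 3) ^ (56 * d + 94) := by
    rw [← pow_mul, hzpow, hb]
    congr 1
    rw [hκ]
    push_cast
    field_simp
    ring
  have hbl : (p : ℝ) ^ (56 * d + 94) ≤ b := by
    rw [hbz]; exact pow_le_pow_left₀ hp0.le hpz _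
  have hbu : b ≤ (2 * p) ^ (2 * (56 * d + 94)) := by
    rw [hbz]
    calc (z ^ 3) ^ (56 * d + 94) ≤ (2 * p : ℝ) ^ (56 * d + 94) :=
          pow_le_pow_left₀ (by positivity) hzp2 _
      _ ≤ _ := pow_le_pow_right₀ (by linarith) (by omega)
  obtain ⟨c, hcd⟩ : ∃ c : ℝ, c = crd d (p ^ 28) := ⟨_, rfl⟩
  have hc0 : 0 ≤ c := by rw [hcd]; exact crd_nonneg _ _
  have hcz : c ≤ c3 * z := by rw [hcd, hc3]; exact crd_le d p hp1 hz1 hpz
  -- the limit of the lower bounds
  have hev : ∀ K : ℕ, ∀ᶠ k in atTop, K < s k + 1 := fun K => by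
    filter_upwards [hs.eventually_ge_atTop K] with k hk
    omega
  have hgl := gl_tendsto hij (d := d) (s := s)
  have hlower : ∀ R T : ℕ, R ≤ p → T ≤ p →
      1 - (n / (2 * N * β) * (1 + 1 / p) * (T * min (2 * coul i j R) c + R * c) + C1 / β) ≤
        w R T := by
    intro R T hR hT
    have h1 : Tendsto (fun k => 1 - (n / (2 * N * β) * (1 + 1 / p) *
        (T * min (2 * gl (2 * (s k + 1)) i j R) c + R * c) + C1 / β)) atTop
        (𝓝 (1 - (n / (2 * N * β) * (1 + 1 / p) * (T * min (2 * coul i j R) c + R * c) +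
          C1 / β))) := by
      have h2 : Tendsto (fun k => min (2 * gl (2 * (s k + 1)) i j R) c) atTop
          (𝓝 (min (2 * coul i j R) c)) := ((hgl R hs).const_mul 2).min tendsto_const_nhds
      exact ((((h2.const_mul (T : ℝ)).add_const _).const_mul _).add_const _).const_sub 1
    refine le_of_tendsto_of_tendsto h1 (hw R T) ?_
    filter_upwards [hev (3 * p ^ 28 + 5)] with k hk
    have h3 := hlow b p hp1 hbl hbu (s k + 1) (by omega) i j hij R T hR hT
    rw [hb4, ← hcd] at h3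
    exact h3
  -- properties of the limit
  have w0 : ∀ T, w 0 T = 1 := fun T => by
    refine tendsto_nhds_unique (hw 0 T) ?_
    simp only [wR2_zero μ hN]
    exact tendsto_const_nhds
  have w0' : ∀ R, w R 0 = 1 := fun R => by
    refine tendsto_nhds_unique (hw R 0) ?_
    have : ∀ k, wR2 μ L (s k + 1) β i j R 0 = 1 := fun k => by
      rw [wR2_swap, wR2_zero μ hN]
    simp only [this]
    exact tendsto_const_nhds
  have wle : ∀ R T, w R T ≤ 1 := fun R T =>
    le_of_tendsto' (hw R T) fun k => wR2_le μ hN _ _ _ _ _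
  have wc : ∀ R T, w (R + 1) T ^ 2 ≤ w R T * w (R + 2) T := fun R T => by
    refine le_of_tendsto_of_tendsto ((hw (R + 1) T).pow 2) ((hw R T).mul (hw (R + 2) T)) ?_
    filter_upwards [hev (R + 2)] with k hk
    exact wR2_cs μ (by omega) hij hβ0.le (by omega) T
  have wc' : ∀ R T, w R (T + 1) ^ 2 ≤ w R T * w R (T + 2) := fun R T => by
    refine le_of_tendsto_of_tendsto ((hw R (T + 1)).pow 2) ((hw R T).mul (hw R (T + 2))) ?_
    filter_upwards [hev (T + 2)] with k hk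
    rw [wR2_swap μ β i j R (T + 1), wR2_swap μ β i j R T, wR2_swap μ β i j R (T + 2)]
    exact wR2_cs μ (by omega) hij.symm hβ0.le (by omega) R
  -- the square
  have hpN : ∀ y : ℝ, 0 ≤ y → n / (2 * N * β) * (1 + 1 / p) * y ≤ n / β * y := by
    intro y hy
    refine mul_le_mul_of_nonneg_right ?_ hy
    have h1 : 1 / (p : ℝ) ≤ 1 := by rw [div_le_one hp0]; exact hp1R
    have h2 : n / (2 * N * β) * (1 + 1 / p) ≤ n / (2 * N * β) * 2 :=
      mul_le_mul_of_nonneg_left (by linarith) (by positivity)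
    have h3 : n / (2 * N * β) * 2 = n / (N * β) := by field_simp
    have h4 : (n : ℝ) / (N * β) ≤ n / β :=
      div_le_div_of_nonneg_left hn0 hβ0 (le_mul_of_one_le_left hβ0.le hN1)
    linarith
  have hsquare : ∀ q : ℕ, 1 ≤ q → q ≤ p → 1 - A3 * z * q / β ≤ w q q := by
    intro q hq1 hq
    refine le_trans ?_ (hlower q q hq hq)
    have hq0 : (1 : ℝ) ≤ q := by exact_mod_cast hq1
    have h1 : q * min (2 * coul i j q) c + q * c ≤ 2 * (q * (c3 * z)) := by
      have h2 : (q : ℝ) * min (2 * coul i j q) c ≤ q * c :=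
        mul_le_mul_of_nonneg_left (min_le_right _ _) (by linarith)
      have h3 : (q : ℝ) * c ≤ q * (c3 * z) := mul_le_mul_of_nonneg_left hcz (by linarith)
      linarith
    have h2 : n / (2 * N * β) * (1 + 1 / p) * (q * min (2 * coul i j q) c + q * c) ≤
        n / β * (2 * (q * (c3 * z))) :=
      (mul_le_mul_of_nonneg_left h1 (by positivity)).trans (hpN _ (by positivity))
    have h3 : C1 / β ≤ C1 * (z * q) / β := by
      refine div_le_div_of_nonneg_right ?_ hβ0.le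
      have : 1 ≤ z * q := one_le_mul_of_one_le_of_one_le hz1 hq0
      exact le_mul_of_one_le_right hC1.le this
    have h4 : n / β * (2 * (q * (c3 * z))) + C1 * (z * q) / β ≤ A3 * z * q / β := by
      rw [hA3]
      have : n / β * (2 * (q * (c3 * z))) + C1 * (z * q) / β =
          (2 * n * c3 + C1) * z * q / β := by field_simp
      rw [this]
      refine div_le_div_of_nonneg_right ?_ hβ0.le
      have : (2 * n * c3 + C1 + 1) * z * q = (2 * n * c3 + C1) * z * q + z * q := by ring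
      rw [this]
      have : 0 ≤ z * q := by positivity
      linarith
    linarith
  have hsm3 : ∀ q : ℕ, q ≤ p → A3 * z * q / β ≤ 1 / 2 := by
    intro q hq
    have hqp : (q : ℝ) ≤ p := by exact_mod_cast hq
    rw [div_le_iff₀ hβ0]
    have h1 : z * q ≤ z ^ 10 := by
      calc z * q ≤ z * z ^ 3 := mul_le_mul_of_nonneg_left (hqp.trans hpz) hz0.le
        _ = z ^ 4 := by ring
        _ ≤ z ^ 10 := pow_le_pow_right₀ hz1 (by norm_num)
    have h2 : A3 * (z * q) ≤ A3 * z ^ 10 := mul_le_mul_of_nonneg_left h1 (by linarith)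
    have h3 : (2 * A3) * z ^ 10 ≤ β := by
      have h5 : ((2 * A3) * z ^ 10) ^ 2 ≤ β ^ 2 := by
        calc ((2 * A3) * z ^ 10) ^ 2 = (4 * A3 ^ 2) * (z ^ 10) ^ 2 := by ring
          _ ≤ β * β := mul_le_mul hβA3 hz10 (by positivity) hβ0.le
          _ = β ^ 2 := by ring
      exact (pow_le_pow_iff_left₀ (by positivity) hβ0.le two_ne_zero).1 h5
    linarith
  have h11 : 0 < w 1 1 := by
    have h1 := hsquare 1 le_rfl hp1
    have h2 := hsm3 1 hp1
    linarith
  obtain ⟨hpos, P, σ, hPl, hσl, hσ0, hPle, hσle⟩ := double w0 w0' wle wc wc' h11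
  refine ⟨hpos, P, σ, hPl, hσl, ?_, hσ0, ?_⟩
  · -- the Coulomb bound
    intro R hR
    rw [← hz] at hR
    have hRp : R ≤ p := by
      have h1 : (R : ℝ) ≤ z ^ 3 := hR.trans (by
        calc z = z ^ 1 := (pow_one z).symm
          _ ≤ z ^ 3 := pow_le_pow_right₀ hz1 (by norm_num))
      rw [hp]
      exact Nat.le_floor h1
    have hR0 : (0 : ℝ) ≤ R := Nat.cast_nonneg _
    have h1 := hPle R p hp1
    have h2 := hlower R p hRp le_rfl
    obtain ⟨g, hg⟩ : ∃ g, g = coul i j R := ⟨_, rfl⟩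
    rw [← hg] at h2 ⊢
    have hg0 : 0 ≤ g := by
      rw [hg]
      exact ge_of_tendsto' (hgl R hs) fun k => gl_nonneg _ _ _
    have hg1 : g ≤ z ^ 2 / 2 := by
      rw [hg]
      have h3 : coul i j R ≤ (R : ℝ) ^ 2 / 2 := le_of_tendsto' (hgl R hs) fun k => gl_le _ hij R
      have h4 : (R : ℝ) ^ 2 ≤ z ^ 2 := pow_le_pow_left₀ hR0 hR 2
      linarith
    obtain ⟨E, hE⟩ : ∃ E : ℝ, E = n / (N * β) * p * g + A * z ^ 2 / β := ⟨_, rfl⟩
    have hE0 : 0 ≤ E := by rw [hE]; positivity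
    have hwE : 1 - E ≤ w R p := by
      refine le_trans ?_ h2
      have e1 : p * min (2 * g) c + R * c ≤ p * (2 * g) + z * (c3 * z) := by
        have f1 : (p : ℝ) * min (2 * g) c ≤ p * (2 * g) :=
          mul_le_mul_of_nonneg_left (min_le_left _ _) hp0.le
        have f2 : (R : ℝ) * c ≤ z * (c3 * z) := mul_le_mul hR hcz hc0 hz0.le
        linarith
      have e2 : n / (2 * N * β) * (1 + 1 / p) * (p * min (2 * g) c + R * c) ≤
          n / (2 * N * β) * (1 + 1 / p) * (p * (2 * g) + z * (c3 * z)) :=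
        mul_le_mul_of_nonneg_left e1 (by positivity)
      have e3 : n / (2 * N * β) * (1 + 1 / p) * (p * (2 * g) + z * (c3 * z)) =
          n / (N * β) * p * g + (n / (N * β) * g +
            n / (2 * N * β) * (1 + 1 / p) * (z * (c3 * z))) := by
        field_simp
        ring
      have e4 : n / (N * β) * g ≤ n / β * z ^ 2 := by
        have f1 : (n : ℝ) / (N * β) ≤ n / β :=
          div_le_div_of_nonneg_left hn0 hβ0 (le_mul_of_one_le_left hβ0.le hN1)
        have f2 : g ≤ z ^ 2 := by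
          have := sq_nonneg z
          linarith
        exact mul_le_mul f1 f2 hg0 (by positivity)
      have e5 := hpN (z * (c3 * z)) (by positivity)
      have e6 : C1 / β ≤ C1 * z ^ 2 / β := by
        refine div_le_div_of_nonneg_right ?_ hβ0.le
        exact le_mul_of_one_le_right hC1.le (one_le_pow₀ hz1)
      have e7 : n / β * z ^ 2 + n / β * (z * (c3 * z)) + C1 * z ^ 2 / β ≤ A * z ^ 2 / β := by
        have f1 : n / β * z ^ 2 + n / β * (z * (c3 * z)) + C1 * z ^ 2 / β =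
            (n * (1 + c3) + C1) * z ^ 2 / β := by field_simp
        rw [f1, hA]
        refine div_le_div_of_nonneg_right ?_ hβ0.le
        refine mul_le_mul_of_nonneg_right ?_ (by positivity)
        have e : (n : ℝ) * (1 + 2 * c3) = n * (1 + c3) + n * c3 := by ring
        rw [e]; linarith
      rw [hE]
      linarith
    have hEs : E ≤ A2 * z ^ 5 / β := by
      rw [hE, hA2]
      have f1 : n / (N * β) * p * g ≤ n / β * (z ^ 3 * z ^ 2) := by
        have g1 : (n : ℝ) / (N * β) ≤ n / β :=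
          div_le_div_of_nonneg_left hn0 hβ0 (le_mul_of_one_le_left hβ0.le hN1)
        have g2 : g ≤ z ^ 2 := by
          have := sq_nonneg z
          linarith
        calc n / (N * β) * p * g = n / (N * β) * (p * g) := by ring
          _ ≤ n / β * (z ^ 3 * z ^ 2) :=
              mul_le_mul g1 (mul_le_mul hpz g2 hg0 (by positivity)) (by positivity) (by positivity)
      have f2 : A * z ^ 2 / β ≤ A * z ^ 5 / β := by
        refine div_le_div_of_nonneg_right ?_ hβ0.le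
        exact mul_le_mul_of_nonneg_left (pow_le_pow_right₀ hz1 (by norm_num)) (by linarith)
      calc _ ≤ n / β * (z ^ 3 * z ^ 2) + A * z ^ 5 / β := add_le_add f1 f2
        _ = _ := by field_simp
    have hz5 : 2 * A2 * z ^ 5 ≤ β := by
      have h5 : (2 * A2 * z ^ 5) ^ 2 ≤ β ^ 2 := by
        calc (2 * A2 * z ^ 5) ^ 2 = (4 * A2 ^ 2) * z ^ 10 := by ring
          _ ≤ β * β := by
              refine mul_le_mul hβA2 ?_ (by positivity) hβ0.le
              exact (pow_le_pow_right₀ hz1 (by norm_num)).trans hz20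
          _ = β ^ 2 := by ring
      exact (pow_le_pow_iff_left₀ (by positivity) hβ0.le two_ne_zero).1 h5
    have hE2 : E ≤ 1 / 2 := by
      refine hEs.trans ?_
      rw [div_le_iff₀ hβ0]
      linarith
    have hEE : E ^ 2 ≤ A2 ^ 2 / β := by
      have f1 : E ^ 2 ≤ (A2 * z ^ 5 / β) ^ 2 := pow_le_pow_left₀ hE0 hEs 2
      have f2 : (A2 * z ^ 5 / β) ^ 2 = A2 ^ 2 / β * (z ^ 10 / β) := by field_simp
      have f3 : z ^ 10 / β ≤ 1 := by
        rw [div_le_one hβ0]
        exact (pow_le_pow_right₀ hz1 (by norm_num)).trans hz20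
      rw [f2] at f1
      calc E ^ 2 ≤ A2 ^ 2 / β * (z ^ 10 / β) := f1
        _ ≤ A2 ^ 2 / β * 1 := mul_le_mul_of_nonneg_left f3 (by positivity)
        _ = _ := mul_one _
    have hlg : -Real.log (w R p) ≤ E + 2 * E ^ 2 := by
      have f1 := Real.log_le_log (by linarith : 0 < 1 - E) hwE
      have f2 := neg_log_le hE0 hE2
      linarith
    have h3 : P R ≤ (E + 2 * E ^ 2) / p :=
      h1.trans (div_le_div_of_nonneg_right hlg hp0.le)
    have h4 : (E + 2 * E ^ 2) / p ≤ n / (N * β) * g + (A + 2 * A2 ^ 2) * z ^ 2 / (β * p) := by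
      have f1 : E + 2 * E ^ 2 ≤ n / (N * β) * p * g + (A + 2 * A2 ^ 2) * z ^ 2 / β := by
        have g1 : A2 ^ 2 / β ≤ A2 ^ 2 * z ^ 2 / β := by
          refine div_le_div_of_nonneg_right ?_ hβ0.le
          exact le_mul_of_one_le_right hs2 (one_le_pow₀ hz1)
        have g2 : (A + 2 * A2 ^ 2) * z ^ 2 / β = A * z ^ 2 / β + 2 * (A2 ^ 2 * z ^ 2 / β) := by
          ring
        rw [g2]
        have g3 : E = n / (N * β) * p * g + A * z ^ 2 / β := hE
        linarith
      calc (E + 2 * E ^ 2) / p ≤ (n / (N * β) * p * g + (A + 2 * A2 ^ 2) * z ^ 2 / β) / p :=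
            div_le_div_of_nonneg_right f1 hp0.le
        _ = _ := by field_simp
    have h5 : (A + 2 * A2 ^ 2) * z ^ 2 / (β * p) ≤ (2 * A + 4 * A2 ^ 2) * β ^ (-(1 + κ)) := by
      have f1 : β ^ (-(1 + κ)) = 1 / (β * z) := by
        rw [neg_add, Real.rpow_add hβ0, Real.rpow_neg_one, Real.rpow_neg hβ0.le, ← hz]
        field_simp
      rw [f1, mul_one_div, div_le_div_iff₀ (by positivity) (by positivity)]
      have f2 : z ^ 2 * (β * z) ≤ 2 * (β * p) := by
        calc z ^ 2 * (β * z) = β * z ^ 3 := by ring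
          _ ≤ β * (2 * p) := mul_le_mul_of_nonneg_left hzp2 hβ0.le
          _ = _ := by ring
      calc (A + 2 * A2 ^ 2) * z ^ 2 * (β * z) = (A + 2 * A2 ^ 2) * (z ^ 2 * (β * z)) := by ring
        _ ≤ (A + 2 * A2 ^ 2) * (2 * (β * p)) := mul_le_mul_of_nonneg_left f2 (by positivity)
        _ = _ := by ring
    have h6 : (2 * A + 4 * A2 ^ 2) * β ^ (-(1 + κ)) ≤
        (2 * A + 4 * A2 ^ 2 + 8 * A3) * β ^ (-(1 + κ)) :=
      mul_le_mul_of_nonneg_right (by linarith) (by positivity)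
    linarith
  · -- the string tension
    have h1 := hσle p hp1
    have h2 := hPle p p hp1
    have h3 := hsquare p hp1 le_rfl
    have h4 := hsm3 p le_rfl
    obtain ⟨E, hE⟩ : ∃ E : ℝ, E = A3 * z * p / β := ⟨_, rfl⟩
    rw [← hE] at h3 h4
    have hE0 : 0 ≤ E := by rw [hE]; positivity
    have h5 : -Real.log (w p p) ≤ 2 * E := by
      have f1 := Real.log_le_log (by linarith : 0 < 1 - E) h3
      have f2 := neg_log_le hE0 h4
      have f3 : E * E ≤ E * (1 / 2) := mul_le_mul_of_nonneg_left h4 hE0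
      have f4 : E ^ 2 = E * E := pow_two E
      rw [f4] at f2
      linarith
    have h6 : σ ≤ 2 * E / p / p := by
      calc σ ≤ P p / p := h1
        _ ≤ (-Real.log (w p p) / p) / p := div_le_div_of_nonneg_right h2 hp0.le
        _ ≤ (2 * E / p) / p := div_le_div_of_nonneg_right
            (div_le_div_of_nonneg_right h5 hp0.le) hp0.le
    have h7 : 2 * E / p / p ≤ 8 * A3 * β ^ (-(1 + κ)) := by
      have f1 : β ^ (-(1 + κ)) = 1 / (β * z) := by
        rw [neg_add, Real.rpow_add hβ0, Real.rpow_neg_one, Real.rpow_neg hβ0.le, ← hz]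
        field_simp
      have f2 : 2 * E / p / p = 2 * A3 * z / (β * p) := by
        rw [hE]; field_simp
      rw [f1, f2, mul_one_div, div_le_div_iff₀ (by positivity) (by positivity)]
      have f3 : z * (β * z) ≤ 2 * (β * p) := by
        calc z * (β * z) = β * z ^ 2 := by ring
          _ ≤ β * z ^ 3 := mul_le_mul_of_nonneg_left (pow_le_pow_right₀ hz1 (by norm_num)) hβ0.le
          _ ≤ β * (2 * p) := mul_le_mul_of_nonneg_left hzp2 hβ0.le
          _ = _ := by ring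
      calc 2 * A3 * z * (β * z) = 2 * A3 * (z * (β * z)) := by ring
        _ ≤ 2 * A3 * (2 * (β * p)) := mul_le_mul_of_nonneg_left f3 (by positivity)
        _ = 4 * (A3 * (β * p)) := by ring
        _ ≤ 8 * (A3 * (β * p)) := by
            have : 0 ≤ A3 * (β * p) := by positivity
            linarith
        _ = 8 * A3 * (β * p) := by ring
    have h8 : 8 * A3 * β ^ (-(1 + κ)) ≤ (2 * A + 4 * A2 ^ 2 + 8 * A3) * β ^ (-(1 + κ)) :=
      mul_le_mul_of_nonneg_right (by linarith) (by positivity)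
    linarith

end

end Pool.Agent.TH618.YM
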